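import Mathlib

/-!
# The cohomology of the mod 2 Steenrod algebra: definitions

The cobar complex of the dual Steenrod algebra `𝔽₂[ξ₁, ξ₂, …]`, graded by the internal degree. All
terms of the complex are subspaces of one polynomial ring `P`, whose variable `(a, n)` is `ξ_{n+1}`
in the slot `a`.
-/

set_option autoImplicit false

namespace Pool.Agent.H749.GK.St

open MvPolynomial TensorProduct Finset

/-- The polynomial ring over `𝔽₂` in the variables `(a, n)`; the variable `(a, n)` stands for
`ξ_{n+1}` in the slot `a`. -/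
abbrev P : Type := MvPolynomial (ℕ × ℕ) (ZMod 2)

/-- `ξ_n` in the slot `a`, where `ξ₀ = 1`. -/
noncomputable def ξ (a : ℕ) : ℕ → P
  | 0 => 1
  | n + 1 => X (a, n)

/-- The coproduct `∑ᵢ ξ_{n-i} ^ (2 ^ i) ⊗ ξᵢ` of `ξ_n`, with values in the slots `a`, `a + 1`. -/
noncomputable def coprod (a n : ℕ) : P :=
  ∑ i ∈ Finset.range (n + 1), ξ a (n - i) ^ (2 ^ i) * ξ (a + 1) i

/-- The `j`-th coface: for `0 < j` it applies the coproduct in the `j`-th slot (the slot `j - 1`),
and moves the following slots by one; for `j = 0` it moves all slots, so that a unit is inserted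
at the left. On the cochains of degree `s`, which use the slots `0, …, s - 1`, the coface `j = s + 1`
changes nothing: a unit is inserted at the right. -/
noncomputable def face (j : ℕ) : P →ₐ[ZMod 2] P :=
  aeval fun v : ℕ × ℕ => if v.1 + 1 < j then X v else
    if v.1 + 1 = j then coprod v.1 (v.2 + 1) else X (v.1 + 1, v.2)

/-- The differential of the cobar complex on cochains of degree `s`, the sum of the cofaces
`0, …, s + 1`. -/
noncomputable def d (s : ℕ) : P →ₗ[ZMod 2] P :=
  ∑ j ∈ Finset.range (s + 2), (face j).toLinearMap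

/-- The cochains of degree `s` and internal degree `t`: polynomials in the variables of the slots
`a < s`, homogeneous of degree `t`, where `ξ_{n+1}` has degree `2 ^ (n + 1) - 1`. -/
noncomputable def C (s : ℕ) (t : ℤ) : Submodule (ZMod 2) P :=
  Subalgebra.toSubmodule (supported (ZMod 2) {v : ℕ × ℕ | v.1 < s}) ⊓
    weightedHomogeneousSubmodule (ZMod 2) (fun v : ℕ × ℕ => (2 : ℤ) ^ (v.2 + 1) - 1) t

/-- The cocycles of degree `s` and internal degree `t`. -/
noncomputable def Z (s : ℕ) (t : ℤ) : Submodule (ZMod 2) P := C s t ⊓ LinearMap.ker (d s)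

/-- The coboundaries of degree `s` and internal degree `t`. -/
noncomputable def B : ℕ → ℤ → Submodule (ZMod 2) P
  | 0, _ => ⊥
  | s + 1, t => (C s t).map (d s)

/-- `Ext^{s,t}`, cocycles modulo coboundaries. -/
def Ext (s : ℕ) (t : ℤ) : Type := ↥(Z s t) ⧸ (B s t).comap (Z s t).subtype

noncomputable instance instAddCommGroupExt (s : ℕ) (t : ℤ) : AddCommGroup (Ext s t) :=
  Submodule.Quotient.addCommGroup ((B s t).comap (Z s t).subtype)

noncomputable instance instModuleExt (s : ℕ) (t : ℤ) : Module (ZMod 2) (Ext s t) :=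
  Submodule.Quotient.module ((B s t).comap (Z s t).subtype)

/-- The class of a cocycle. -/
noncomputable def cl {s : ℕ} {t : ℤ} (x : Z s t) : Ext s t :=
  (Submodule.Quotient.mk x : ↥(Z s t) ⧸ (B s t).comap (Z s t).subtype)

/-- The shift of the slots by `a`. The product in the cobar complex of a cochain `x` of degree `a`
and a cochain `y` is `x * shift a y`. -/
noncomputable def shift (a : ℕ) : P →ₐ[ZMod 2] P := rename fun v : ℕ × ℕ => (a + v.1, v.2)

/-- `Ext^{a,t} ⊗ Ext^{b,u}` for a pair `p = (a, b)` with `a + b = s`. -/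
abbrev ExtPair (s : ℕ) (t u : ℤ) (p : antidiagonal s) : Type := Ext p.1.1 t ⊗[ZMod 2] Ext p.1.2 u

/-- `⨁_{a + b = s} Ext^{a,t} ⊗ Ext^{b,u}`, as the product over the pairs `p = (a, b)` with
`a + b = s`. -/
def ExtTensor (s : ℕ) (t u : ℤ) : Type := ∀ p : antidiagonal s, ExtPair s t u p

noncomputable instance instAddCommGroupTensor (s : ℕ) (t u : ℤ) :
    AddCommGroup (ExtTensor s t u) :=
  Pi.addCommGroup (f := ExtPair s t u)

noncomputable instance instModuleTensor (s : ℕ) (t u : ℤ) : Module (ZMod 2) (ExtTensor s t u) :=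
  Pi.module (antidiagonal s) (ExtPair s t u) (ZMod 2)

/-- The element `[x] ⊗ [y]` of the summand `Ext^{a,t} ⊗ Ext^{b,u}`, `p = (a, b)`. -/
noncomputable def tens {s : ℕ} {t u : ℤ} (p : antidiagonal s) (x : Z p.1.1 t) (y : Z p.1.2 u) :
    ExtTensor s t u :=
  Pi.single (M := ExtPair s t u) p (cl x ⊗ₜ[ZMod 2] cl y)

end Pool.Agent.H749.GK.St
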