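import Pool.Agent.H749.GK.ML

/-!
# A contracting homotopy of the de Rham differential, compatible with split cochains
-/

set_option autoImplicit false
set_option linter.unusedSectionVars false

namespace Pool.Agent.H749.GK

open Finset MvPolynomial Pool.Agent.W624.Stz

section ht

variable {K : Type}

/-- indices of pairs of variables, in lexicographic order -/
abbrev Ix := ℕ ×ₗ ℕ

/-- the variable `x` -/
def xi (K : Type) (i : Ix) : Vr K := .x (ofLex i).1 (ofLex i).2
/-- the variable `s` -/
def si (K : Type) (i : Ix) : Vr K := .s (ofLex i).1 (ofLex i).2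

theorem xi_inj {i j : Ix} (h : xi K i = xi K j) : i = j := by
  simp only [xi, Vr.x.injEq] at h
  exact ofLex.injective (Prod.ext h.1 h.2)

theorem si_inj {i j : Ix} (h : si K i = si K j) : i = j := by
  simp only [si, Vr.s.injEq] at h
  exact ofLex.injective (Prod.ext h.1 h.2)

theorem xi_si (i j : Ix) : xi K i ≠ si K j := by simp [xi, si]

/-- index of a variable -/
def idx : Vr K → Ix
  | .x a n => toLex (a, n)
  | .s a n => toLex (a, n)
  | .y _ _ => toLex (0, 0)

/-- the bad indices of a monomial -/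
noncomputable def bad (e : Vr K →₀ ℕ) : Finset Ix :=
  (e.support.image idx).filter (fun i => e (xi K i) % 2 = 1 ∨ e (si K i) ≠ 0)

theorem mem_bad {e : Vr K →₀ ℕ} {i : Ix} :
    i ∈ bad e ↔ e (xi K i) % 2 = 1 ∨ e (si K i) ≠ 0 := by
  rw [bad, mem_filter, and_iff_right_iff_imp]
  intro h
  rw [mem_image]
  rcases h with h | h
  · refine ⟨xi K i, ?_, rfl⟩
    rw [Finsupp.mem_support_iff]
    intro h0
    rw [h0] at h
    omega
  · exact ⟨si K i, Finsupp.mem_support_iff.mpr h, rfl⟩

/-- the odd indices of a monomial -/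
noncomputable def odd (e : Vr K →₀ ℕ) : Finset Ix := (bad e).filter (fun i => e (xi K i) % 2 = 1)

theorem mem_odd {e : Vr K →₀ ℕ} {i : Ix} : i ∈ odd e ↔ e (xi K i) % 2 = 1 := by
  rw [odd, mem_filter, mem_bad]
  tauto

/-- replace `s` by `x` at the first bad index, if the exponent of `x` is even there -/
noncomputable def phT (e : Vr K →₀ ℕ) : Option (Vr K →₀ ℕ) := by
  classical exact
    if h : (bad e).Nonempty then
      (if e (xi K ((bad e).min' h)) % 2 = 1 then none else
        some (e - Finsupp.single (si K ((bad e).min' h)) 1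
          + Finsupp.single (xi K ((bad e).min' h)) 1))
    else none

/-- `i` is the first bad index -/
def Fst (e : Vr K →₀ ℕ) (i : Ix) : Prop := i ∈ bad e ∧ ∀ j ∈ bad e, i ≤ j

theorem min_eq {e : Vr K →₀ ℕ} {i : Ix} (h : Fst e i) (hn : (bad e).Nonempty) :
    (bad e).min' hn = i :=
  le_antisymm (min'_le _ _ h.1) (le_min' _ _ _ fun _ hj => h.2 _ hj)

theorem Fst.exists {e : Vr K →₀ ℕ} (hn : (bad e).Nonempty) : ∃ i, Fst e i :=
  ⟨(bad e).min' hn, min'_mem _ _, fun _ hj => min'_le _ _ hj⟩

theorem phT_odd {e : Vr K →₀ ℕ} {i : Ix} (h : Fst e i) (ho : e (xi K i) % 2 = 1) :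
    phT e = none := by
  have hn : (bad e).Nonempty := ⟨i, h.1⟩
  rw [phT, dif_pos hn, min_eq h hn, if_pos ho]

theorem phT_even {e : Vr K →₀ ℕ} {i : Ix} (h : Fst e i) (ho : e (xi K i) % 2 = 0) :
    phT e = some (e - Finsupp.single (si K i) 1 + Finsupp.single (xi K i) 1) := by
  have hn : (bad e).Nonempty := ⟨i, h.1⟩
  rw [phT, dif_pos hn, min_eq h hn, if_neg (by omega)]

theorem phT_none {e : Vr K →₀ ℕ} (h : bad e = ∅) : phT e = none := by
  rw [phT, dif_neg (by rw [h]; simp)]

theorem Fst.even_s {e : Vr K →₀ ℕ} {i : Ix} (h : Fst e i) (ho : e (xi K i) % 2 = 0) :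
    e (si K i) ≠ 0 := by
  rcases mem_bad.mp h.1 with h1 | h1
  · omega
  · exact h1

theorem phT_some {e e' : Vr K →₀ ℕ} (h : phT e = some e') :
    ∃ (i : Ix) (e0 : Vr K →₀ ℕ), e = e0 + Finsupp.single (si K i) 1 ∧
      e' = e0 + Finsupp.single (xi K i) 1 := by
  by_cases hn : (bad e).Nonempty
  · obtain ⟨i, hi⟩ := Fst.exists hn
    by_cases ho : e (xi K i) % 2 = 1
    · rw [phT_odd hi ho] at h
      exact absurd h (by simp)
    · rw [phT_even hi (by omega)] at h
      have hs := hi.even_s (by omega)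
      refine ⟨i, e - Finsupp.single (si K i) 1, ?_, ?_⟩
      · rw [tsub_add_cancel_of_le]
        rw [Finsupp.single_le_iff]
        omega
      · simpa using h.symm
  · rw [phT_none (not_nonempty_iff_eq_empty.mp hn)] at h
    exact absurd h (by simp)

/-- the homotopy -/
noncomputable def HT (K : Type) : RR K →ₗ[ZMod 2] RR K := ml phT

/-- the de Rham differential on monomials -/
theorem DX_mono (e : Vr K →₀ ℕ) : DX K (monomial e 1)
    = ∑ i ∈ odd e, monomial (e - Finsupp.single (xi K i) 1 + Finsupp.single (si K i) 1)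
      (1 : ZMod 2) := by
  classical
  rw [DX, mkDerivation_monomial, one_smul, Finsupp.sum]
  have hsub : (odd e).image (xi K) ⊆ e.support := by
    intro v hv
    rw [mem_image] at hv
    obtain ⟨i, hi, rfl⟩ := hv
    rw [mem_odd] at hi
    rw [Finsupp.mem_support_iff]
    omega
  rw [← sum_subset hsub, sum_image (fun i _ j _ h => xi_inj h)]
  · refine sum_congr rfl fun i hi => ?_
    rw [mem_odd] at hi
    have h1 : ((e (xi K i) : ℕ) : ZMod 2) = 1 := by
      have : e (xi K i) = 2 * (e (xi K i) / 2) + 1 := by omega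
      rw [this]
      push_cast
      have h2 : (2 : ZMod 2) = 0 := rfl
      rw [h2, zero_mul, zero_add]
    rw [h1]
    change monomial (e - Finsupp.single (xi K i) 1) 1 • (X (si K i) : RR K) = _
    rw [smul_eq_mul, X, monomial_mul, one_mul]
  · intro v hv hv2
    cases v with
    | x a n =>
      have h1 : ¬ e (Vr.x a n) % 2 = 1 := by
        intro h
        apply hv2
        rw [mem_image]
        exact ⟨toLex (a, n), mem_odd.mpr h, rfl⟩
      have h2 : ((e (Vr.x a n) : ℕ) : ZMod 2) = 0 := by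
        rw [ZMod.natCast_eq_zero_iff]
        omega
      rw [h2]
      simp
    | s a n => simp
    | y c n => simp

theorem upd1_x (e : Vr K →₀ ℕ) (i j : Ix) :
    (e - Finsupp.single (xi K i) 1 + Finsupp.single (si K i) 1 : Vr K →₀ ℕ) (xi K j)
      = e (xi K j) - (if i = j then 1 else 0) := by
  classical
  rw [Finsupp.add_apply, Finsupp.tsub_apply, Finsupp.single_apply, Finsupp.single_apply,
    if_neg (show ¬ (si K i = xi K j) from fun h => xi_si j i h.symm), add_zero]
  by_cases h : i = j
  · subst h; simp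
  · rw [if_neg h, if_neg (fun h2 => h (xi_inj h2))]

theorem upd1_s (e : Vr K →₀ ℕ) (i j : Ix) :
    (e - Finsupp.single (xi K i) 1 + Finsupp.single (si K i) 1 : Vr K →₀ ℕ) (si K j)
      = e (si K j) + (if i = j then 1 else 0) := by
  classical
  rw [Finsupp.add_apply, Finsupp.tsub_apply, Finsupp.single_apply, Finsupp.single_apply,
    if_neg (xi_si i j), Nat.sub_zero]
  by_cases h : i = j
  · subst h; simp
  · rw [if_neg h, if_neg (fun h2 => h (si_inj h2))]

theorem upd2_x (e : Vr K →₀ ℕ) (i j : Ix) :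
    (e - Finsupp.single (si K i) 1 + Finsupp.single (xi K i) 1 : Vr K →₀ ℕ) (xi K j)
      = e (xi K j) + (if i = j then 1 else 0) := by
  classical
  rw [Finsupp.add_apply, Finsupp.tsub_apply, Finsupp.single_apply, Finsupp.single_apply,
    if_neg (show ¬ (si K i = xi K j) from fun h => xi_si j i h.symm), Nat.sub_zero]
  by_cases h : i = j
  · subst h; simp
  · rw [if_neg h, if_neg (fun h2 => h (xi_inj h2))]

theorem HT_DX_mono {e : Vr K →₀ ℕ} (hn : (bad e).Nonempty) :
    HT K (DX K (monomial e 1)) + DX K (HT K (monomial e 1)) = monomial e 1 := by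
  classical
  obtain ⟨i0, h0⟩ := Fst.exists hn
  have hbad : ∀ i ∈ odd e, ∀ j ∈ bad (e - Finsupp.single (xi K i) 1 + Finsupp.single (si K i) 1),
      i0 ≤ j := by
    intro i hi j hj
    rw [mem_bad, upd1_x, upd1_s] at hj
    by_cases hij : i = j
    · subst hij
      apply h0.2
      rw [mem_bad]
      exact Or.inl (mem_odd.mp hi)
    · rw [if_neg hij, Nat.sub_zero, add_zero] at hj
      exact h0.2 j (mem_bad.mpr hj)
  by_cases ho : e (xi K i0) % 2 = 1
  · have hT0 : HT K (monomial e 1) = 0 := by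
      rw [HT, ml_mono, phT_odd h0 ho]
      rfl
    rw [hT0, map_zero, add_zero, DX_mono, map_sum, sum_eq_single i0]
    · rw [HT, ml_mono, phT_even (i := i0)]
      · have h1 : e - Finsupp.single (xi K i0) 1 + Finsupp.single (si K i0) 1
            - Finsupp.single (si K i0) 1 + Finsupp.single (xi K i0) 1 = e := by
          rw [add_tsub_cancel_right, tsub_add_cancel_of_le]
          rw [Finsupp.single_le_iff]
          omega
        rw [h1]
        rfl
      · refine ⟨?_, hbad i0 (mem_odd.mpr ho)⟩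
        rw [mem_bad, upd1_s, if_pos rfl]
        exact Or.inr (by omega)
      · rw [upd1_x, if_pos rfl]
        omega
    · intro i hi hne
      rw [HT, ml_mono, phT_odd (i := i0)]
      · rfl
      · refine ⟨?_, hbad i hi⟩
        rw [mem_bad, upd1_x, if_neg hne, Nat.sub_zero]
        exact Or.inl ho
      · rw [upd1_x, if_neg hne, Nat.sub_zero]
        exact ho
    · intro h
      exact absurd (mem_odd.mpr ho) h
  · have he : e (xi K i0) % 2 = 0 := by omega
    have hs := h0.even_s he
    set e' := e - Finsupp.single (si K i0) 1 + Finsupp.single (xi K i0) 1 with he'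
    have hT0 : HT K (monomial e 1) = monomial e' 1 := by
      rw [HT, ml_mono, phT_even h0 he]
      rfl
    have hodd : odd e' = insert i0 (odd e) := by
      ext j
      rw [mem_insert, mem_odd, mem_odd, he', upd2_x]
      by_cases hj : i0 = j
      · subst hj
        rw [if_pos rfl]
        constructor
        · intro _; exact Or.inl rfl
        · intro _; omega
      · rw [if_neg hj, add_zero]
        constructor
        · intro h; exact Or.inr h
        · rintro (h | h)
          · exact absurd h.symm hj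
          · exact h
    have hnot : i0 ∉ odd e := by rw [mem_odd]; omega
    have h1 : DX K (HT K (monomial e 1)) = monomial e 1
        + ∑ i ∈ odd e, monomial (e' - Finsupp.single (xi K i) 1 + Finsupp.single (si K i) 1)
          (1 : ZMod 2) := by
      rw [hT0, DX_mono, hodd, sum_insert hnot]
      congr 1
      have h2 : e' - Finsupp.single (xi K i0) 1 + Finsupp.single (si K i0) 1 = e := by
        rw [he', add_tsub_cancel_right, tsub_add_cancel_of_le]
        rw [Finsupp.single_le_iff]
        omega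
      rw [h2]
    have h3 : HT K (DX K (monomial e 1))
        = ∑ i ∈ odd e, monomial (e' - Finsupp.single (xi K i) 1 + Finsupp.single (si K i) 1)
          (1 : ZMod 2) := by
      rw [DX_mono, map_sum]
      refine sum_congr rfl fun i hi => ?_
      have hne : i ≠ i0 := by rintro rfl; exact hnot hi
      rw [HT, ml_mono, phT_even (i := i0)]
      · refine congrArg (fun u => (monomial u (1 : ZMod 2) : RR K)) ?_
        have hx1 : 1 ≤ e (xi K i) := by
          have := mem_odd.mp hi
          omega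
        have hs1 : 1 ≤ e (si K i0) := by omega
        rw [he']
        ext v
        simp only [Finsupp.add_apply, Finsupp.tsub_apply, Finsupp.single_apply]
        by_cases c1 : xi K i = v
        · subst c1
          rw [if_neg (show ¬ (si K i = xi K i) from fun h => xi_si i i h.symm),
            if_neg (show ¬ (si K i0 = xi K i) from fun h => xi_si i i0 h.symm),
            if_neg (show ¬ (xi K i0 = xi K i) from fun h => hne (xi_inj h).symm)]
          simp
        · rw [if_neg c1]
          by_cases c2 : si K i0 = v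
          · subst c2
            rw [if_neg (show ¬ (si K i = si K i0) from fun h => hne (si_inj h)),
              if_neg (xi_si i0 i0)]
            simp
          · rw [if_neg c2]
            simp only [Nat.sub_zero]
            omega
      · refine ⟨?_, hbad i hi⟩
        rw [mem_bad, upd1_s, if_neg hne, add_zero]
        exact Or.inr hs
      · rw [upd1_x, if_neg hne, Nat.sub_zero]
        exact he
    rw [h1, h3]
    have h4 := p2_add_self (∑ i ∈ odd e, monomial (e' - Finsupp.single (xi K i) 1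
      + Finsupp.single (si K i) 1) (1 : ZMod 2) : RR K)
    rw [add_left_comm, h4, add_zero]

theorem HT_DX {f : RR K} {j : ℕ} (hf : IW (js K) f (j + 1)) :
    HT K (DX K f) + DX K (HT K f) = f := by
  classical
  have h0 : f = ∑ e ∈ f.support, coeff e f • (monomial e 1 : RR K) := by
    conv_lhs => rw [f.as_sum]
    refine sum_congr rfl fun e _ => ?_
    rw [smul_monomial, smul_eq_mul, mul_one]
  have h1 : ∀ e ∈ f.support, (bad e).Nonempty := by
    intro e he
    have h2 := hf (mem_support_iff.mp he)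
    have h3 : Finsupp.weight (js K) e ≠ 0 := by omega
    rw [Finsupp.weight_apply, Finsupp.sum] at h3
    obtain ⟨v, hv, hv2⟩ := exists_ne_zero_of_sum_ne_zero h3
    cases v with
    | x a n => simp [js] at hv2
    | s a n =>
      exact ⟨toLex (a, n), mem_bad.mpr (Or.inr (Finsupp.mem_support_iff.mp hv))⟩
    | y c n => simp [js] at hv2
  let L : RR K →ₗ[ZMod 2] RR K :=
    (HT K).comp (DX K).toLinearMap + (DX K).toLinearMap.comp (HT K)
  have hL : ∀ g, L g = HT K (DX K g) + DX K (HT K g) := fun g => rfl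
  rw [← hL]
  have h2 : L f = ∑ e ∈ f.support, coeff e f • L (monomial e 1) := by
    conv_lhs => rw [h0]
    rw [map_sum]
    exact sum_congr rfl fun e _ => map_smul _ _ _
  rw [h2]
  conv_rhs => rw [h0]
  exact sum_congr rfl fun e he => by rw [hL, HT_DX_mono (h1 e he)]

end ht

section ops

variable {K : Type}

/-- exponents of squares of group variables -/
def EvX (u : Vr K →₀ ℕ) : Prop := ∀ i, u (xi K i) % 2 = 0 ∧ u (si K i) = 0

theorem bad_add {u e : Vr K →₀ ℕ} (hu : EvX u) : bad (u + e) = bad e := by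
  ext i
  rw [mem_bad, mem_bad, Finsupp.add_apply, Finsupp.add_apply, (hu i).2, zero_add]
  have := (hu i).1
  constructor
  · rintro (h | h)
    · left; omega
    · exact Or.inr h
  · rintro (h | h)
    · left; omega
    · exact Or.inr h

theorem phT_add {u : Vr K →₀ ℕ} (hu : EvX u) (e : Vr K →₀ ℕ) :
    phT (u + e) = (phT e).map (fun e' => u + e') := by
  by_cases hn : (bad e).Nonempty
  · obtain ⟨i, hi⟩ := Fst.exists hn
    have hi2 : Fst (u + e) i := by
      rw [Fst, bad_add hu]; exact hi
    have hx : (u + e) (xi K i) % 2 = e (xi K i) % 2 := by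
      rw [Finsupp.add_apply]
      have := (hu i).1
      omega
    by_cases ho : e (xi K i) % 2 = 1
    · rw [phT_odd hi ho, phT_odd hi2 (by omega)]
      rfl
    · rw [phT_even hi (by omega), phT_even hi2 (by omega), Option.map_some]
      congr 1
      have hs := hi.even_s (by omega)
      rw [← add_assoc]
      congr 1
      rw [add_tsub_assoc_of_le]
      rw [Finsupp.single_le_iff]
      omega
  · rw [not_nonempty_iff_eq_empty] at hn
    rw [phT_none hn, phT_none (by rw [bad_add hu, hn])]
    rfl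

theorem HT_left {w : RR K} (hw : ∀ u, coeff u w ≠ 0 → EvX u) (f : RR K) :
    HT K (w * f) = w * HT K f :=
  ml_left' (fun u hu e => phT_add (hw u hu) e) f

/-- shift of indices -/
def shi (a : ℕ) (i : Ix) : Ix := toLex (a + (ofLex i).1, (ofLex i).2)

theorem shi_le {a : ℕ} {i j : Ix} (h : i ≤ j) : shi a i ≤ shi a j := by
  have h1 := (Prod.Lex.le_iff).mp h
  refine (Prod.Lex.le_iff).mpr ?_
  rcases h1 with h1 | ⟨h1, h2⟩
  · left
    change a + (ofLex i).1 < a + (ofLex j).1
    have : (ofLex i).1 < (ofLex j).1 := h1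
    omega
  · right
    refine ⟨?_, h2⟩
    change a + (ofLex i).1 = a + (ofLex j).1
    have : (ofLex i).1 = (ofLex j).1 := h1
    omega

theorem map_xi (a : ℕ) (e : Vr K →₀ ℕ) (i : Ix) :
    (e.mapDomain (shv a)) (xi K (shi a i)) = e (xi K i) :=
  Finsupp.mapDomain_apply (shv_inj a) e (xi K i)

theorem map_si (a : ℕ) (e : Vr K →₀ ℕ) (i : Ix) :
    (e.mapDomain (shv a)) (si K (shi a i)) = e (si K i) :=
  Finsupp.mapDomain_apply (shv_inj a) e (si K i)

theorem bad_map {a : ℕ} {e : Vr K →₀ ℕ} {j : Ix} (h : j ∈ bad (e.mapDomain (shv a))) :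
    ∃ i, i ∈ bad e ∧ j = shi a i := by
  have hge : a ≤ (ofLex j).1 := by
    by_contra hlt
    rw [mem_bad] at h
    have h1 : (e.mapDomain (shv a)) (xi K j) = 0 := by
      apply Finsupp.mapDomain_of_notMem_range
      rintro ⟨v, hv⟩
      cases v <;> simp only [shv, xi, Vr.x.injEq, reduceCtorEq] at hv
      omega
    have h2 : (e.mapDomain (shv a)) (si K j) = 0 := by
      apply Finsupp.mapDomain_of_notMem_range
      rintro ⟨v, hv⟩
      cases v <;> simp only [shv, si, Vr.s.injEq, reduceCtorEq] at hv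
      omega
    rw [h1, h2] at h
    omega
  have hj : j = shi a (toLex ((ofLex j).1 - a, (ofLex j).2)) := by
    apply ofLex.injective
    refine Prod.ext ?_ rfl
    change (ofLex j).1 = a + ((ofLex j).1 - a)
    omega
  refine ⟨_, ?_, hj⟩
  rw [mem_bad] at h ⊢
  rw [hj, map_xi, map_si] at h
  exact h

theorem phT_map (a : ℕ) (e : Vr K →₀ ℕ) :
    phT (e.mapDomain (shv a)) = (phT e).map (fun e' => e'.mapDomain (shv a)) := by
  by_cases hn : (bad e).Nonempty
  · obtain ⟨i, hi⟩ := Fst.exists hn
    have hi2 : Fst (e.mapDomain (shv a)) (shi a i) := by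
      refine ⟨?_, ?_⟩
      · rw [mem_bad, map_xi, map_si]
        exact mem_bad.mp hi.1
      · intro j hj
        obtain ⟨k, hk, rfl⟩ := bad_map hj
        exact shi_le (hi.2 k hk)
    by_cases ho : e (xi K i) % 2 = 1
    · rw [phT_odd hi ho, phT_odd hi2 (by rw [map_xi]; exact ho)]
      rfl
    · have hs := hi.even_s (by omega)
      obtain ⟨e0, he0⟩ : ∃ e0, e = e0 + Finsupp.single (si K i) 1 :=
        ⟨e - Finsupp.single (si K i) 1, by
          rw [tsub_add_cancel_of_le]
          rw [Finsupp.single_le_iff]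
          omega⟩
      rw [phT_even hi (by omega), phT_even hi2 (by rw [map_xi]; omega), Option.map_some]
      congr 1
      rw [he0, add_tsub_cancel_right, Finsupp.mapDomain_add, Finsupp.mapDomain_add,
        Finsupp.mapDomain_single, Finsupp.mapDomain_single]
      change _ + Finsupp.single (si K (shi a i)) 1 - Finsupp.single (si K (shi a i)) 1
        + Finsupp.single (xi K (shi a i)) 1 = _ + Finsupp.single (xi K (shi a i)) 1
      rw [add_tsub_cancel_right]
  · have h2 : bad (e.mapDomain (shv a)) = ∅ := by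
      rw [← not_nonempty_iff_eq_empty]
      rintro ⟨j, hj⟩
      obtain ⟨k, hk, _⟩ := bad_map hj
      exact hn ⟨k, hk⟩
    rw [not_nonempty_iff_eq_empty] at hn
    rw [phT_none hn, phT_none h2]
    rfl

theorem HT_sf (a : ℕ) (f : RR K) : HT K (sf K a f) = sf K a (HT K f) := by
  rw [sf_rename, sf_rename]
  exact ml_rename (phT_map a) f

theorem wsing {σ M : Type*} [AddCommMonoid M] (w : σ → M) (v : σ) :
    Finsupp.weight w (Finsupp.single v 1) = w v := by
  rw [Finsupp.weight_apply, Finsupp.sum_single_index (by simp), one_smul]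

theorem HT_cut {q : ℕ} {f : RR K} (hf : cut K q f = f) : cut K q (HT K f) = HT K f := by
  rw [cut_iff] at hf ⊢
  refine ml_IW hf ?_
  intro e e' he h
  obtain ⟨i, e0, rfl, rfl⟩ := phT_some h
  rw [map_add, wsing] at he ⊢
  exact he

theorem HT_IW {κ : K → Kd} {f : RR K} {t : ℤ} {ν : K → ℕ} {j : ℕ}
    (hf : IW (wF κ) f (t + 1, (ν, j + 1))) : IW (wF κ) (HT K f) (t, (ν, j)) := by
  refine ml_IW hf ?_
  intro e e' he h
  obtain ⟨i, e0, rfl, rfl⟩ := phT_some h
  rw [map_add, wsing] at he ⊢
  have h1 : wF κ (si K i) = wF κ (xi K i) + (1, (0, 1)) := by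
    simp only [wF, wG, si, xi]
    refine Prod.ext ?_ (Prod.ext ?_ ?_) <;> simp
  rw [h1, ← add_assoc] at he
  have h2 : ((t, (ν, j)) : ℤ × ((K → ℕ) × ℕ)) + (1, ((0 : K → ℕ), 1)) = (t + 1, (ν, j + 1)) := by
    simp
  rw [← h2] at he
  exact add_right_cancel he

theorem TT.HT {κ : K → Kd} {q : ℕ} {f : RR K} {t : ℤ} {ν : K → ℕ} {j : ℕ}
    (hf : TT κ q (t + 1) ν (j + 1) f) : TT κ q t ν j (HT K f) :=
  ⟨HT_cut hf.cu, HT_IW hf.iw⟩

/-- exponents of `2 ^ ρ`-th powers -/
theorem pow_supp {σ : Type*} {ρ : ℕ} {f : P2 σ} {u : σ →₀ ℕ} (h : coeff u (f ^ (2 ^ ρ)) ≠ 0) :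
    ∃ u0, coeff u0 f ≠ 0 ∧ u = 2 ^ ρ • u0 := by
  classical
  have h0 : f ^ (2 ^ ρ) = ∑ e ∈ f.support, monomial (2 ^ ρ • e) 1 := by
    conv_lhs => rw [f.as_sum, sum_pow0]
    refine sum_congr rfl fun e he => ?_
    rw [mem_support_iff] at he
    have h1 : coeff e f = 1 := by
      revert he; generalize coeff e f = c; revert c; decide
    rw [h1, monomial_pow, one_pow]
  rw [h0, coeff_sum] at h
  obtain ⟨e, he, h1⟩ := exists_ne_zero_of_sum_ne_zero h
  rw [coeff_monomial] at h1
  by_cases h2 : 2 ^ ρ • e = u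
  · exact ⟨e, mem_support_iff.mp he, h2.symm⟩
  · rw [if_neg h2] at h1
    exact absurd rfl h1

theorem ix_sfree {a : ℕ} {T : ℤ} {ν : Empty → ℕ} {x : RR Empty} (hx : TT kun a T ν 0 x)
    {u : Vr K →₀ ℕ} (hu : coeff u (ix K x) ≠ 0) (i : Ix) : u (si K i) = 0 := by
  have h1 : IW (js K) (ix K x) 0 := by
    refine IW.aeval' (AddMonoidHom.id ℕ) (ix K) (w := js Empty) (w' := js K) ?_ hx.jsw
    intro v
    cases v with
    | x a n => rw [ix_x]; exact isWeightedHomogeneous_X _ (js K) (Vr.x a n)
    | s a n => rw [ix_s]; exact isWeightedHomogeneous_X _ (js K) (Vr.s a n)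
    | y c n => exact c.elim
  have h2 := h1 hu
  rw [Finsupp.weight_apply, Finsupp.sum, sum_eq_zero_iff] at h2
  by_contra h3
  have h4 := h2 (si K i) (Finsupp.mem_support_iff.mpr h3)
  simp only [si, js, smul_eq_mul, mul_one] at h4
  exact h3 h4

theorem ix_even {a ρ : ℕ} {T : ℤ} {ν : Empty → ℕ} {x : RR Empty} (hx : TT kun a T ν 0 x)
    (hρ : 1 ≤ ρ) {u : Vr K →₀ ℕ} (hu : coeff u (ix K x ^ (2 ^ ρ)) ≠ 0) : EvX u := by
  obtain ⟨u0, h1, rfl⟩ := pow_supp hu
  intro i
  rw [Finsupp.smul_apply, Finsupp.smul_apply, ix_sfree hx h1 i, smul_zero]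
  refine ⟨?_, rfl⟩
  obtain ⟨r, rfl⟩ : ∃ r, ρ = r + 1 := ⟨ρ - 1, by omega⟩
  rw [pow_succ, smul_eq_mul, mul_assoc, mul_left_comm, Nat.mul_mod_right]

theorem HT_PP {ρ : ℕ} (hρ : 1 ≤ ρ) {T : ℤ} {q : ℕ} {f : RR K} (hf : f ∈ PP K ρ T q) :
    HT K f ∈ PP K ρ T q := by
  refine PP_map (HT K) ?_ hf
  intro a ha x hx z hz
  rw [HT_left (fun u hu => ix_even hx hρ hu), HT_sf]
  exact PP_gen ha hx (HT_cut hz)

theorem DX_sf (a : ℕ) (f : RR K) : DX K (sf K a f) = sf K a (DX K f) := by
  refine der_hom (sf K a) (DX K) (DX K) ?_ f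
  intro v
  cases v with
  | x b n => rw [sf_x, DX_x, DX_x, sf_s]
  | s b n => rw [sf_s, DX_s, DX_s, map_zero]
  | y c n => rw [sf_y, DX_y, map_zero]

theorem DX_PP {ρ : ℕ} (hρ : 1 ≤ ρ) {T : ℤ} {q : ℕ} {f : RR K} (hf : f ∈ PP K ρ T q) :
    DX K f ∈ PP K ρ T q := by
  have h1 := PP_map (L := K) (ρ' := ρ) (T' := T) (q' := q) (DX K).toLinearMap ?_ hf
  · exact h1
  intro a ha x hx z hz
  obtain ⟨r, rfl⟩ : ∃ r, ρ = r + 1 := ⟨ρ - 1, by omega⟩
  change DX K (ix K x ^ (2 ^ (r + 1)) * sf K a z) ∈ _
  rw [Derivation.leibniz, pow_succ, pow_mul, der_sq, smul_zero, add_zero, ← pow_mul, ← pow_succ,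
    smul_eq_mul, DX_sf]
  refine PP_gen ha hx ?_
  rw [← DX_cut, hz]

end ops

end Pool.Agent.H749.GK
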