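import Mathlib

/-!
# The Künneth argument for tensor products of complexes over `𝔽₂`, with explicit families
-/

set_option autoImplicit false
set_option linter.unusedSectionVars false

namespace Pool.Agent.H749.GK.KA

open TensorProduct

theorem ch2 {M : Type*} [AddCommGroup M] [Module (ZMod 2) M] (x : M) : x + x = 0 := by
  have h := two_smul (ZMod 2) x
  have h2 : (2 : ZMod 2) = 0 := rfl
  rw [h2, zero_smul] at h
  exact h.symm

theorem eq_of_add {M : Type*} [AddCommGroup M] [Module (ZMod 2) M] {x y : M} (h : x + y = 0) :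
    x = y := by
  have h1 := ch2 y
  calc x = x + (y + y) := by rw [h1, add_zero]
    _ = (x + y) + y := by abel
    _ = y := by rw [h, zero_add]

variable {X V ZX ZV : ℕ → Type}
variable [∀ a, AddCommGroup (X a)] [∀ a, Module (ZMod 2) (X a)]
variable [∀ a, AddCommGroup (V a)] [∀ a, Module (ZMod 2) (V a)]
variable [∀ a, AddCommGroup (ZX a)] [∀ a, Module (ZMod 2) (ZX a)]
variable [∀ a, AddCommGroup (ZV a)] [∀ a, Module (ZMod 2) (ZV a)]

/-- differential of the first factor -/
noncomputable def D1 (dX : ∀ a, X a →ₗ[ZMod 2] X (a + 1)) (u : ∀ a b, X a ⊗[ZMod 2] V b) :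
    ∀ a b, X a ⊗[ZMod 2] V b
  | 0, _ => 0
  | a + 1, b => (dX a).rTensor (V b) (u a b)

/-- differential of the second factor -/
noncomputable def D2 (dV : ∀ b, V b →ₗ[ZMod 2] V (b + 1)) (u : ∀ a b, X a ⊗[ZMod 2] V b) :
    ∀ a b, X a ⊗[ZMod 2] V b
  | _, 0 => 0
  | a, b + 1 => (dV b).lTensor (X a) (u a b)

/-- the images of the previous differentials -/
def PR (dX : ∀ a, X a →ₗ[ZMod 2] X (a + 1)) : ∀ a, Submodule (ZMod 2) (X a)
  | 0 => ⊥
  | a + 1 => LinearMap.range (dX a)

/-- pseudo-inverses -/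
theorem pinv {M N : Type*} [AddCommGroup M] [Module (ZMod 2) M] [AddCommGroup N]
    [Module (ZMod 2) N] (f : M →ₗ[ZMod 2] N) : ∃ g : N →ₗ[ZMod 2] M, ∀ x, f (g (f x)) = f x := by
  have : Fact (Nat.Prime 2) := ⟨Nat.prime_two⟩
  obtain ⟨h, hh⟩ := f.rangeRestrict.exists_rightInverse_of_surjective
    (LinearMap.range_eq_top.mpr f.surjective_rangeRestrict)
  obtain ⟨p, hp⟩ := (LinearMap.range f).subtype.exists_leftInverse_of_injective
    (LinearMap.ker_eq_bot.mpr (Submodule.subtype_injective _))
  refine ⟨h.comp p, fun x => ?_⟩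
  have h1 : p (f x) = ⟨f x, LinearMap.mem_range_self f x⟩ :=
    DFunLike.congr_fun hp ⟨f x, LinearMap.mem_range_self f x⟩
  have h2 := congrArg Subtype.val
    (DFunLike.congr_fun hh ⟨f x, LinearMap.mem_range_self f x⟩)
  rw [LinearMap.comp_apply, h1]
  exact h2

variable (dX : ∀ a, X a →ₗ[ZMod 2] X (a + 1)) (dV : ∀ b, V b →ₗ[ZMod 2] V (b + 1))

/-- homotopy -/
noncomputable def SG (σ : ∀ b, V (b + 1) →ₗ[ZMod 2] V b) (u : ∀ a b, X a ⊗[ZMod 2] V b) :
    ∀ a b, X a ⊗[ZMod 2] V b := fun a b => (σ b).lTensor (X a) (u a (b + 1))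

/-- the projection -/
noncomputable def PJ (σ : ∀ b, V (b + 1) →ₗ[ZMod 2] V b) : ∀ b, V b →ₗ[ZMod 2] V b
  | 0 => LinearMap.id + (σ 0).comp (dV 0)
  | b + 1 => LinearMap.id + (dV b).comp (σ b) + (σ (b + 1)).comp (dV (b + 1))

theorem lr_comm {A A' B B' : Type} [AddCommGroup A] [Module (ZMod 2) A] [AddCommGroup A']
    [Module (ZMod 2) A'] [AddCommGroup B] [Module (ZMod 2) B] [AddCommGroup B']
    [Module (ZMod 2) B'] (f : A →ₗ[ZMod 2] A') (g : B →ₗ[ZMod 2] B') (t : A ⊗[ZMod 2] B) :
    f.rTensor B' (g.lTensor A t) = g.lTensor A' (f.rTensor B t) := by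
  rw [← LinearMap.comp_apply, ← LinearMap.comp_apply, LinearMap.rTensor_comp_lTensor,
    LinearMap.lTensor_comp_rTensor]

theorem homot (σ : ∀ b, V (b + 1) →ₗ[ZMod 2] V b) (u : ∀ a b, X a ⊗[ZMod 2] V b) (a b : ℕ) :
    u a b = D1 dX (SG σ u) a b + D2 dV (SG σ u) a b
      + (SG σ (D1 dX u) a b + SG σ (D2 dV u) a b) + (PJ dV σ b).lTensor (X a) (u a b) := by
  have h1 : D1 dX (SG σ u) a b = SG σ (D1 dX u) a b := by
    cases a with
    | zero => simp [D1, SG]
    | succ a =>
      simp only [D1, SG]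
      exact lr_comm _ _ _
  have h2 : D2 dV (SG σ u) a b + SG σ (D2 dV u) a b + (PJ dV σ b).lTensor (X a) (u a b)
      = u a b := by
    cases b with
    | zero =>
      simp only [D2, SG, PJ, zero_add]
      rw [LinearMap.lTensor_add, LinearMap.add_apply, LinearMap.lTensor_id, LinearMap.id_apply,
        LinearMap.lTensor_comp, LinearMap.comp_apply]
      have := ch2 ((LinearMap.lTensor (X a) (σ 0)) ((LinearMap.lTensor (X a) (dV 0)) (u a 0)))
      rw [add_comm (u a 0), ← add_assoc, this, zero_add]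
    | succ b =>
      simp only [D2, SG, PJ]
      rw [LinearMap.lTensor_add, LinearMap.add_apply, LinearMap.lTensor_add, LinearMap.add_apply,
        LinearMap.lTensor_id, LinearMap.id_apply, LinearMap.lTensor_comp, LinearMap.comp_apply,
        LinearMap.lTensor_comp, LinearMap.comp_apply]
      have e1 := ch2 ((LinearMap.lTensor (X a) (dV b))
        ((LinearMap.lTensor (X a) (σ b)) (u a (b + 1))))
      have e2 := ch2 ((LinearMap.lTensor (X a) (σ (b + 1)))
        ((LinearMap.lTensor (X a) (dV (b + 1))) (u a (b + 1))))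
      have : ∀ p q r : X a ⊗[ZMod 2] V (b + 1), p + p = 0 → q + q = 0 →
          p + q + (r + p + q) = r := by
        intro p q r hp hq
        calc p + q + (r + p + q) = r + (p + p) + (q + q) := by abel
          _ = r := by rw [hp, hq, add_zero, add_zero]
      exact this _ _ _ e1 e2
  have e1 := ch2 (SG σ (D1 dX u) a b)
  have : ∀ p q r s t : X a ⊗[ZMod 2] V b, p + p = 0 → q + r + s = t →
      t = p + q + (p + r) + s := by
    intro p q r s t hp h
    calc t = (p + p) + (q + r + s) := by rw [hp, h, zero_add]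
      _ = _ := by abel
  rw [h1]
  exact this _ _ _ _ _ e1 h2

theorem dV_PJ (hdd : ∀ b x, dV (b + 1) (dV b x) = 0) {σ : ∀ b, V (b + 1) →ₗ[ZMod 2] V b}
    (hσ : ∀ b x, dV b (σ b (dV b x)) = dV b x) (b : ℕ) (x : V b) : dV b (PJ dV σ b x) = 0 := by
  cases b with
  | zero =>
    simp only [PJ, LinearMap.add_apply, LinearMap.id_apply, LinearMap.comp_apply, map_add, hσ]
    exact ch2 _
  | succ b =>
    simp only [PJ, LinearMap.add_apply, LinearMap.id_apply, LinearMap.comp_apply, map_add, hσ,
      hdd, add_zero]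
    exact ch2 _

theorem PJ_dV (hdd : ∀ b x, dV (b + 1) (dV b x) = 0) {σ : ∀ b, V (b + 1) →ₗ[ZMod 2] V b}
    (hσ : ∀ b x, dV b (σ b (dV b x)) = dV b x) (b : ℕ) (x : V b) :
    PJ dV σ (b + 1) (dV b x) = 0 := by
  simp only [PJ, LinearMap.add_apply, LinearMap.id_apply, LinearMap.comp_apply, hσ,
    hdd, map_zero, add_zero]
  exact ch2 _

variable (jX : ∀ a, ZX a →ₗ[ZMod 2] X a) (jV : ∀ b, ZV b →ₗ[ZMod 2] V b)

/-- surjectivity -/
theorem K1 (hX : ∀ a, Function.Exact (jX a) (dX a)) (hV : ∀ b, Function.Exact (jV b) (dV b))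
    (hjV : ∀ b, Function.Injective (jV b))
    (hdd : ∀ b x, dV (b + 1) (dV b x) = 0) (s : ℕ) (u : ∀ a b, X a ⊗[ZMod 2] V b)
    (hu : ∀ a b, a + b = s + 1 → D1 dX u a b + D2 dV u a b = 0) :
    ∃ (h : ∀ a b, X a ⊗[ZMod 2] V b) (w : ∀ a b, ZX a ⊗[ZMod 2] ZV b), ∀ a b, a + b = s →
      u a b = D1 dX h a b + D2 dV h a b + TensorProduct.map (jX a) (jV b) (w a b) := by
  have : Fact (Nat.Prime 2) := ⟨Nat.prime_two⟩
  choose σ hσ using fun b => pinv (dV b)
  have key : ∀ a b, a + b = s → ∃ w : ZX a ⊗[ZMod 2] ZV b,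
      (PJ dV σ b).lTensor (X a) (u a b) = TensorProduct.map (jX a) (jV b) w := by
    intro a b hab
    set t := (PJ dV σ b).lTensor (X a) (u a b) with ht
    have h1 : (dV b).lTensor (X a) t = 0 := by
      rw [ht, ← LinearMap.comp_apply, ← LinearMap.lTensor_comp]
      have : (dV b).comp (PJ dV σ b) = 0 := by
        ext x
        exact dV_PJ dV hdd hσ b x
      rw [this, LinearMap.lTensor_zero, LinearMap.zero_apply]
    have h2 : (dX a).rTensor (V b) t = 0 := by
      rw [ht, lr_comm]
      have h3 : (dX a).rTensor (V b) (u a b) = D2 dV u (a + 1) b := by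
        have := hu (a + 1) b (by omega)
        exact eq_of_add this
      rw [h3]
      cases b with
      | zero => simp [D2]
      | succ b =>
        simp only [D2]
        rw [← LinearMap.comp_apply, ← LinearMap.lTensor_comp]
        have : (PJ dV σ (b + 1)).comp (dV b) = 0 := by
          ext x
          exact PJ_dV dV hdd hσ b x
        rw [this, LinearMap.lTensor_zero, LinearMap.zero_apply]
    obtain ⟨t1, ht1⟩ := ((Module.Flat.lTensor_exact (X a) (hV b)) t).mp h1
    have h4 : (dX a).rTensor (ZV b) t1 = 0 := by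
      rw [← ht1, lr_comm] at h2
      exact Module.Flat.lTensor_preserves_injective_linearMap (jV b) (hjV b)
        (by rw [h2, map_zero])
    obtain ⟨t2, ht2⟩ := ((Module.Flat.rTensor_exact (ZV b) (hX a)) t1).mp h4
    refine ⟨t2, ?_⟩
    rw [← ht1, ← ht2, ← LinearMap.comp_apply, LinearMap.lTensor_comp_rTensor]
  classical
  refine ⟨SG σ u, fun a b => if h : a + b = s then (key a b h).choose else 0, fun a b hab => ?_⟩
  beta_reduce
  rw [dif_pos hab, ← (key a b hab).choose_spec]
  have h1 := homot dX dV σ u a b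
  have h2 : SG σ (D1 dX u) a b + SG σ (D2 dV u) a b = 0 := by
    have h3 : SG σ (D1 dX u) a b + SG σ (D2 dV u) a b
        = (σ b).lTensor (X a) (D1 dX u a (b + 1) + D2 dV u a (b + 1)) := by
      rw [map_add]
      rfl
    rw [h3, hu a (b + 1) (by omega), map_zero]
  rw [h2, add_zero] at h1
  exact h1

/-- injectivity -/
theorem K2 {a b : ℕ} {w : ZX a ⊗[ZMod 2] ZV b} {h : ∀ a b, X a ⊗[ZMod 2] V b}
    (hw : TensorProduct.map (jX a) (jV b) w = D1 dX h a b + D2 dV h a b)
    {M N : Type} [AddCommGroup M] [Module (ZMod 2) M] [AddCommGroup N] [Module (ZMod 2) N]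
    (fX : ZX a →ₗ[ZMod 2] M) (fV : ZV b →ₗ[ZMod 2] N)
    (hX : ∀ z, jX a z ∈ PR dX a → fX z = 0) (hV : ∀ z, jV b z ∈ PR dV b → fV z = 0) :
    TensorProduct.map fX fV w = 0 := by
  have : Fact (Nat.Prime 2) := ⟨Nat.prime_two⟩
  let qX := (PR dX a).mkQ
  let qV := (PR dV b).mkQ
  have h1 : TensorProduct.map (qX.comp (jX a)) (qV.comp (jV b)) w = 0 := by
    rw [TensorProduct.map_comp, LinearMap.comp_apply, hw, map_add]
    have e1 : TensorProduct.map qX qV (D1 dX h a b) = 0 := by
      cases a with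
      | zero => simp [D1]
      | succ a =>
        simp only [D1]
        rw [← LinearMap.comp_apply, LinearMap.map_comp_rTensor]
        have : qX.comp (dX a) = 0 := by
          ext x
          rw [LinearMap.comp_apply, LinearMap.zero_apply]
          exact (Submodule.Quotient.mk_eq_zero _).mpr (LinearMap.mem_range_self _ x)
        rw [this, TensorProduct.map_zero_left, LinearMap.zero_apply]
    have e2 : TensorProduct.map qX qV (D2 dV h a b) = 0 := by
      cases b with
      | zero => simp [D2]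
      | succ b =>
        simp only [D2]
        rw [← LinearMap.comp_apply, LinearMap.map_comp_lTensor]
        have : qV.comp (dV b) = 0 := by
          ext x
          rw [LinearMap.comp_apply, LinearMap.zero_apply]
          exact (Submodule.Quotient.mk_eq_zero _).mpr (LinearMap.mem_range_self _ x)
        rw [this, TensorProduct.map_zero_right, LinearMap.zero_apply]
    rw [e1, e2, add_zero]
  -- factor through the ranges
  let rX := (qX.comp (jX a)).rangeRestrict
  let rV := (qV.comp (jV b)).rangeRestrict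
  have h2 : TensorProduct.map rX rV w = 0 := by
    have hinj : Function.Injective (TensorProduct.map
        (LinearMap.range (qX.comp (jX a))).subtype (LinearMap.range (qV.comp (jV b))).subtype) :=
      TensorProduct.map_injective_of_flat_flat _ _ (Submodule.subtype_injective _)
        (Submodule.subtype_injective _)
    apply hinj
    rw [← LinearMap.comp_apply, ← TensorProduct.map_comp, map_zero]
    exact h1
  -- factor `fX` through `rX`
  have fac : ∀ {A B D : Type} [AddCommGroup A] [Module (ZMod 2) A] [AddCommGroup B]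
      [Module (ZMod 2) B] [AddCommGroup D] [Module (ZMod 2) D] (r : A →ₗ[ZMod 2] B)
      (_ : Function.Surjective r) (f : A →ₗ[ZMod 2] D) (_ : ∀ z, r z = 0 → f z = 0),
      ∃ g : B →ₗ[ZMod 2] D, g.comp r = f := by
    intro A B D _ _ _ _ _ _ r hr f hf
    obtain ⟨i, hi⟩ := r.exists_rightInverse_of_surjective (LinearMap.range_eq_top.mpr hr)
    refine ⟨f.comp i, ?_⟩
    ext x
    have h3 : r (i (r x) - x) = 0 := by
      rw [map_sub]
      have := DFunLike.congr_fun hi (r x)
      rw [LinearMap.comp_apply, LinearMap.id_apply] at this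
      rw [this, sub_self]
    have h4 := hf _ h3
    rw [map_sub, sub_eq_zero] at h4
    exact h4
  obtain ⟨gX, hgX⟩ := fac rX (LinearMap.surjective_rangeRestrict _) fX (by
    intro z hz
    apply hX
    have := congrArg Subtype.val hz
    exact (Submodule.Quotient.mk_eq_zero _).mp this)
  obtain ⟨gV, hgV⟩ := fac rV (LinearMap.surjective_rangeRestrict _) fV (by
    intro z hz
    apply hV
    have := congrArg Subtype.val hz
    exact (Submodule.Quotient.mk_eq_zero _).mp this)
  rw [← hgX, ← hgV, TensorProduct.map_comp, LinearMap.comp_apply, h2, map_zero]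

end Pool.Agent.H749.GK.KA
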