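import Pool.Agent.H749.GK.TR
import Pool.Agent.H749.GK.KA

/-!
# Products of cochains and the normalisation of the first slot
-/

set_option autoImplicit false
set_option linter.unusedSectionVars false

namespace Pool.Agent.H749.GK.St

open Finset MvPolynomial TensorProduct Pool.Agent.W624.Stz

/-- polynomials in the slots `< s` -/
noncomputable abbrev Sup (s : ℕ) : Subalgebra (ZMod 2) P := supported (ZMod 2) {v : ℕ × ℕ | v.1 < s}

/-- weights -/
abbrev wt : ℕ × ℕ → ℤ := fun v => (2 : ℤ) ^ (v.2 + 1) - 1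

theorem C_iff {s : ℕ} {t : ℤ} {f : P} : f ∈ C s t ↔ f ∈ Sup s ∧ IW wt f t := Iff.rfl

theorem Sup_le {s s' : ℕ} (h : s ≤ s') : Sup s ≤ Sup s' :=
  supported_mono fun v (hv : v.1 < s) => show v.1 < s' by omega

theorem C_le {s s' : ℕ} {t : ℤ} (h : s ≤ s') : C s t ≤ C s' t := fun _ hf => ⟨Sup_le h hf.1, hf.2⟩

theorem shift_X (a : ℕ) (v : ℕ × ℕ) : shift a (X v) = X (a + v.1, v.2) := by
  rw [shift, rename_X]

theorem aeval_Sup {s : ℕ} {g : ℕ × ℕ → P} {f : P} {S : Subalgebra (ZMod 2) P}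
    (hg : ∀ v : ℕ × ℕ, v.1 < s → g v ∈ S) (hf : f ∈ Sup s) : aeval g f ∈ S := by
  rw [Sup, supported] at hf
  induction hf using Algebra.adjoin_induction with
  | mem x hx =>
    obtain ⟨v, hv, rfl⟩ := hx
    rw [aeval_X]
    exact hg v hv
  | algebraMap r => rw [AlgHom.commutes]; exact Subalgebra.algebraMap_mem _ _
  | add x y _ _ hx hy => rw [map_add]; exact Subalgebra.add_mem _ hx hy
  | mul x y _ _ hx hy => rw [map_mul]; exact Subalgebra.mul_mem _ hx hy

theorem shift_Sup {a b : ℕ} {f : P} (hf : f ∈ Sup b) : shift a f ∈ Sup (a + b) := by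
  have h := aeval_Sup (g := fun v : ℕ × ℕ => X (a + v.1, v.2)) (S := Sup (a + b)) (by
    intro v hv
    rw [Sup, X_mem_supported]
    exact Nat.add_lt_add_left hv a) hf
  have h2 : shift a = aeval (fun v : ℕ × ℕ => (X (a + v.1, v.2) : P)) := by
    apply algHom_ext
    intro v
    rw [shift_X, aeval_X]
  rwa [h2]

theorem shift_IW {a : ℕ} {f : P} {t : ℤ} (hf : IW wt f t) : IW wt (shift a f) t := by
  refine IW.aeval' (AddMonoidHom.id ℤ) (shift a) (w := wt) ?_ hf
  intro v
  rw [shift_X]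
  exact isWeightedHomogeneous_X (ZMod 2) wt (a + v.1, v.2)

theorem shift_C {a b : ℕ} {t : ℤ} {f : P} (hf : f ∈ C b t) : shift a f ∈ C (a + b) t :=
  ⟨shift_Sup hf.1, shift_IW hf.2⟩

theorem mul_C {a b : ℕ} {t u : ℤ} {x y : P} (hx : x ∈ C a t) (hy : y ∈ C b u) :
    x * shift a y ∈ C (a + b) (t + u) :=
  ⟨Subalgebra.mul_mem _ (Sup_le (by omega) hx.1) (shift_Sup hy.1),
    IsWeightedHomogeneous.mul hx.2 (shift_IW hy.2)⟩

theorem pow_C {a : ℕ} {t : ℤ} {x : P} (ρ : ℕ) (hx : x ∈ C a t) :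
    x ^ (2 ^ ρ) ∈ C a (2 ^ ρ * t) := by
  refine ⟨Subalgebra.pow_mem _ hx.1 _, ?_⟩
  have h := IsWeightedHomogeneous.pow hx.2 (2 ^ ρ)
  have h2 : (2 ^ ρ : ℕ) • t = 2 ^ ρ * t := by
    rw [nsmul_eq_mul]; push_cast; rfl
  rw [h2] at h
  exact h

/-- the differential of a product -/
theorem d_mul {a b : ℕ} {t : ℤ} {x y : P} (ρ : ℕ) (hx : x ∈ C a t) (hy : y ∈ Sup b) :
    d (a + b) (x ^ (2 ^ ρ) * shift a y)
      = (d a x) ^ (2 ^ ρ) * shift (a + 1) y + x ^ (2 ^ ρ) * shift a (d b y) := by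
  have hs : x ^ (2 ^ ρ) * shift a y ∈ Sup (a + b) :=
    Subalgebra.mul_mem _ (Subalgebra.pow_mem _ (Sup_le (by omega) hx.1) _) (shift_Sup hy)
  have h := dd_PG (K := Empty) kun (q := a + b) (a := a) (by omega) ρ (io_TT hx) (io y)
  rw [ix_empty, ix_empty, show a + b - a = b by omega, ← io_d hx.1, ← io_d hy, ← io_shift,
    ← io_shift, ← io_shift, ← map_pow, ← map_pow, ← map_mul, ← map_mul, ← map_mul, ← map_add,
    ← io_d hs] at h
  exact io_inj h

/-- evaluation of the first slot at the unit -/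
noncomputable def e0 : P →ₐ[ZMod 2] P :=
  aeval fun v : ℕ × ℕ => if v.1 = 0 then 0 else X (v.1 - 1, v.2)

theorem e0_zero (n : ℕ) : e0 (X (0, n)) = 0 := by
  rw [e0, aeval_X, if_pos rfl]

theorem e0_succ (a n : ℕ) : e0 (X (a + 1, n)) = X (a, n) := by
  rw [e0, aeval_X, if_neg (by simp)]
  simp

theorem e0_shift (f : P) : e0 (shift 1 f) = f := by
  have : e0.comp (shift 1) = AlgHom.id (ZMod 2) P := by
    apply algHom_ext
    rintro ⟨a, n⟩
    rw [AlgHom.comp_apply, shift_X, add_comm 1 a, e0_succ]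
    rfl
  exact DFunLike.congr_fun this f

theorem e0_Sup {b : ℕ} {f : P} (hf : f ∈ Sup (b + 1)) : e0 f ∈ Sup b := by
  refine aeval_Sup (s := b + 1) ?_ hf
  rintro ⟨a, n⟩ ha
  cases a with
  | zero => rw [if_pos rfl]; exact Subalgebra.zero_mem _
  | succ a =>
    rw [if_neg (by simp), Sup, X_mem_supported]
    simp only [Nat.add_sub_cancel]
    exact Nat.lt_of_succ_lt_succ ha

theorem e0_IW {f : P} {t : ℤ} (hf : IW wt f t) : IW wt (e0 f) t := by
  refine IW.aeval' (AddMonoidHom.id ℤ) e0 (w := wt) ?_ hf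
  rintro ⟨a, n⟩
  cases a with
  | zero => rw [e0_zero]; exact IW.zero' _ _
  | succ a =>
    rw [e0_succ]
    exact isWeightedHomogeneous_X (ZMod 2) wt (a, n)

theorem e0_C {b : ℕ} {t : ℤ} {f : P} (hf : f ∈ C (b + 1) t) : e0 f ∈ C b t :=
  ⟨e0_Sup hf.1, e0_IW hf.2⟩

theorem face_zero (f : P) : face 0 f = shift 1 f := by
  have : face 0 = shift 1 := by
    apply algHom_ext
    rintro ⟨a, n⟩
    rw [face, aeval_X, if_neg (by simp), if_neg (by simp), shift_X, add_comm 1 a]
  rw [this]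

theorem e0_xi (n : ℕ) : e0 (ξ 0 n) = if n = 0 then 1 else 0 := by
  cases n with
  | zero => rw [if_pos rfl]; exact map_one _
  | succ n => rw [if_neg (by simp)]; exact e0_zero n

theorem e0_xi1 (a n : ℕ) : e0 (ξ (a + 1) n) = ξ a n := by
  cases n with
  | zero => exact map_one _
  | succ n => exact e0_succ a n

theorem e0_cop0 (n : ℕ) : e0 (coprod 0 n) = ξ 0 n := by
  rw [coprod, map_sum, sum_eq_single n]
  · rw [map_mul, map_pow, e0_xi, Nat.sub_self, if_pos rfl, one_pow, one_mul, e0_xi1]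
  · intro i hi hne
    rw [mem_range] at hi
    rw [map_mul, map_pow, e0_xi, if_neg (by omega), zero_pow (by positivity), zero_mul]
  · intro h
    exact absurd (mem_range.mpr (by omega)) h

theorem e0_cop1 (a n : ℕ) : e0 (coprod (a + 1) n) = coprod a n := by
  rw [coprod, coprod, map_sum]
  refine sum_congr rfl fun i _ => ?_
  rw [map_mul, map_pow, e0_xi1, e0_xi1]

theorem e0_face1 (f : P) : e0 (face 1 f) = f := by
  have : e0.comp (face 1) = AlgHom.id (ZMod 2) P := by
    apply algHom_ext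
    rintro ⟨a, n⟩
    rw [AlgHom.comp_apply, face, aeval_X, if_neg (by simp)]
    cases a with
    | zero => rw [if_pos rfl, e0_cop0]; rfl
    | succ a => rw [if_neg (by simp), e0_succ]; rfl
  exact DFunLike.congr_fun this f

theorem e0_face (j : ℕ) (f : P) : e0 (face (j + 2) f) = face (j + 1) (e0 f) := by
  have : e0.comp (face (j + 2)) = (face (j + 1)).comp e0 := by
    apply algHom_ext
    rintro ⟨a, n⟩
    rw [AlgHom.comp_apply, AlgHom.comp_apply]
    cases a with
    | zero => rw [e0_zero, map_zero, face, aeval_X, if_pos (by simp), e0_zero]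
    | succ a =>
      rw [e0_succ, face, face, aeval_X, aeval_X]
      simp only
      rcases lt_trichotomy (a + 1) (j + 1) with h | h | h
      · rw [if_pos (by omega), if_pos h, e0_succ]
      · rw [if_neg (by omega), if_pos (by omega), if_neg (by omega), if_pos (by omega), e0_cop1]
      · rw [if_neg (by omega), if_neg (by omega), if_neg (by omega), if_neg (by omega), e0_succ]
  exact DFunLike.congr_fun this f

theorem d_apply (s : ℕ) (f : P) : d s f = ∑ j ∈ range (s + 2), face j f := by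
  rw [d, LinearMap.sum_apply]; rfl

theorem e0_d (b : ℕ) (f : P) : e0 (d (b + 1) f) = d b (e0 f) + shift 1 (e0 f) := by
  have h1 : ∑ k ∈ range (b + 1), e0 (face (k + 1 + 1) f)
      = ∑ k ∈ range (b + 1), face (k + 1) (e0 f) := sum_congr rfl fun k _ => e0_face k f
  have h2 : e0 (d (b + 1) f) = ∑ k ∈ range (b + 1), face (k + 1) (e0 f) := by
    rw [d_apply, map_sum, show b + 1 + 2 = (b + 1) + 1 + 1 from rfl, sum_range_succ' _ (b + 1 + 1),
      sum_range_succ' _ (b + 1), h1, face_zero, e0_shift, zero_add, e0_face1, add_assoc,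
      p2_add_self, add_zero]
  have h3 : d b (e0 f) = ∑ k ∈ range (b + 1), face (k + 1) (e0 f) + shift 1 (e0 f) := by
    rw [d_apply, show b + 2 = b + 1 + 1 from rfl, sum_range_succ' _ (b + 1), face_zero]
  rw [h2, h3, add_assoc, p2_add_self, add_zero]

theorem shift_shift (a : ℕ) (f : P) : shift a (shift 1 f) = shift (a + 1) f := by
  have : (shift a).comp (shift 1) = shift (a + 1) := by
    apply algHom_ext
    rintro ⟨b, n⟩
    rw [AlgHom.comp_apply, shift_X, shift_X, shift_X]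
    simp only
    rw [show a + (1 + b) = a + 1 + b by omega]
  exact DFunLike.congr_fun this f

/-- the cochains which vanish if the first argument is the unit -/
noncomputable def V (b : ℕ) (c : ℤ) : Submodule (ZMod 2) P where
  carrier := {z | z ∈ C b c ∧ (0 < b → e0 z = 0)}
  zero_mem' := ⟨Submodule.zero_mem _, fun _ => map_zero _⟩
  add_mem' := fun hx hy => ⟨Submodule.add_mem _ hx.1 hy.1, fun h => by
    rw [map_add, hx.2 h, hy.2 h, add_zero]⟩
  smul_mem' := fun k x hx => ⟨Submodule.smul_mem _ k hx.1, fun h => by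
    rw [map_smul, hx.2 h, smul_zero]⟩

theorem V_C {b : ℕ} {c : ℤ} {z : P} (h : z ∈ V b c) : z ∈ C b c := h.1

theorem V_e0 {b : ℕ} {c : ℤ} {z : P} (h : z ∈ V (b + 1) c) : e0 z = 0 := h.2 (by omega)

theorem C0_const {c : ℤ} {z : P} (h : z ∈ C 0 c) : ∃ r : ZMod 2, z = MvPolynomial.C r := by
  have h1 := h.1
  have h2 : {v : ℕ × ℕ | v.1 < 0} = ∅ := by
    ext v; simp
  rw [h2, supported_empty] at h1
  obtain ⟨r, hr⟩ := Algebra.mem_bot.mp h1
  exact ⟨r, hr.symm⟩

theorem d_zero {c : ℤ} {z : P} (h : z ∈ C 0 c) : d 0 z = 0 := by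
  obtain ⟨r, rfl⟩ := C0_const h
  rw [d_apply, sum_range_succ, sum_range_one, algHom_C, algHom_C]
  exact p2_add_self _

theorem d_V {b : ℕ} {c : ℤ} {z : P} (h : z ∈ V b c) : d b z ∈ V (b + 1) c := by
  refine ⟨d_C h.1, fun _ => ?_⟩
  cases b with
  | zero => rw [d_zero h.1, map_zero]
  | succ b => rw [e0_d, V_e0 h, map_zero, map_zero, add_zero]

/-- the decomposition of cochains -/
theorem V_split {b : ℕ} {c : ℤ} {z : P} (h : z ∈ C (b + 1) c) :
    z + shift 1 (e0 z) ∈ V (b + 1) c := by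
  refine ⟨Submodule.add_mem _ h ?_, fun _ => ?_⟩
  · have := shift_C (a := 1) (e0_C h)
    rwa [add_comm 1 b] at this
  · rw [map_add, e0_shift]
    exact p2_add_self _

end Pool.Agent.H749.GK.St
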