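import Pool.Agent.H749.GK.KB

/-!
# The split cochains as a tensor product of complexes
-/

set_option autoImplicit false
set_option linter.unusedSectionVars false

namespace Pool.Agent.H749.GK.St

open Finset MvPolynomial TensorProduct Pool.Agent.W624.Stz

/-- the power map -/
noncomputable def pw (ρ : ℕ) : P →ₗ[ZMod 2] P :=
  AddMonoidHom.toZModLinearMap 2
    { toFun := fun x => x ^ (2 ^ ρ)
      map_zero' := zero_pow (by positivity)
      map_add' := fun x y => add_pow0 x y ρ }

theorem pw_apply (ρ : ℕ) (x : P) : pw ρ x = x ^ (2 ^ ρ) := rfl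

variable (ρ : ℕ) (T c : ℤ)

/-- products -/
noncomputable def Th (a b : ℕ) : ↥(C a T) ⊗[ZMod 2] ↥(V b c) →ₗ[ZMod 2] P :=
  TensorProduct.lift ((LinearMap.mul (ZMod 2) P).compl₁₂ ((pw ρ).comp (C a T).subtype)
    ((shift a).toLinearMap.comp (V b c).subtype))

theorem Th_tmul (a b : ℕ) (x : C a T) (z : V b c) :
    Th ρ T c a b (x ⊗ₜ z) = x.1 ^ (2 ^ ρ) * shift a z.1 := rfl

/-- exponents of the shift -/
theorem coeff_shift (a : ℕ) (e : (ℕ × ℕ) →₀ ℕ) (z : P) :
    coeff (e.mapDomain fun v : ℕ × ℕ => (a + v.1, v.2)) (shift a z) = coeff e z := by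
  rw [shift]
  apply coeff_rename_mapDomain
  intro v w h
  simp only [Prod.mk.injEq] at h
  exact Prod.ext (by omega) h.2

theorem supp_shift {a : ℕ} {z : P} {e : (ℕ × ℕ) →₀ ℕ} (h : coeff e (shift a z) ≠ 0) :
    ∃ e', e'.mapDomain (fun v : ℕ × ℕ => (a + v.1, v.2)) = e ∧ coeff e' z ≠ 0 := by
  rw [shift] at h
  exact coeff_rename_ne_zero _ _ _ h

theorem supp_Sup {a : ℕ} {x : P} (hx : x ∈ Sup a) {e : (ℕ × ℕ) →₀ ℕ} (he : coeff e x ≠ 0)
    {v : ℕ × ℕ} (hv : a ≤ v.1) : e v = 0 := by
  by_contra h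
  have h1 := mem_supported.mp hx
  have h2 : v ∈ x.vars := (mem_vars_iff_mem_support v).mpr ⟨e, mem_support_iff.mpr he, Finsupp.mem_support_iff.mpr h⟩
  have h3 : v.1 < a := h1 h2
  omega

theorem map_low {a : ℕ} {e : (ℕ × ℕ) →₀ ℕ} {v : ℕ × ℕ} (hv : v.1 < a) :
    e.mapDomain (fun v : ℕ × ℕ => (a + v.1, v.2)) v = 0 := by
  apply Finsupp.mapDomain_of_notMem_range
  rintro ⟨w, hw⟩
  rw [← hw] at hv
  simp at hv

theorem shv_inj (a : ℕ) : Function.Injective (fun v : ℕ × ℕ => (a + v.1, v.2)) := by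
  intro v w h
  simp only [Prod.mk.injEq] at h
  exact Prod.ext (by omega) h.2

/-- coefficients of products -/
theorem coeff_prod {a : ℕ} {x z : P} (hx : x ∈ Sup a) (m n : (ℕ × ℕ) →₀ ℕ)
    (hm : ∀ v : ℕ × ℕ, a ≤ v.1 → m v = 0) :
    coeff (m + n.mapDomain fun v : ℕ × ℕ => (a + v.1, v.2)) (x * shift a z)
      = coeff m x * coeff n z := by
  classical
  rw [coeff_mul, sum_eq_single (m, n.mapDomain fun v : ℕ × ℕ => (a + v.1, v.2))]
  · rw [coeff_shift]
  · rintro ⟨m', n'⟩ h hne
    have h : m' + n' = m + n.mapDomain fun v : ℕ × ℕ => (a + v.1, v.2) :=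
      HasAntidiagonal.mem_antidiagonal.mp h
    simp only
    by_contra h0
    have h1 : coeff m' x ≠ 0 := left_ne_zero_of_mul h0
    have h2 : coeff n' (shift a z) ≠ 0 := right_ne_zero_of_mul h0
    obtain ⟨n'', rfl, hn⟩ := supp_shift h2
    apply hne
    have h3 : m' = m := by
      ext v
      rcases Nat.lt_or_ge v.1 a with hv | hv
      · have h4 := DFunLike.congr_fun h v
        rw [Finsupp.add_apply, Finsupp.add_apply, map_low hv, map_low hv, add_zero,
          add_zero] at h4
        exact h4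
      · rw [hm v hv, supp_Sup hx h1 hv]
    subst h3
    rw [add_right_inj] at h
    rw [h]
  · intro h
    exfalso
    apply h
    rw [HasAntidiagonal.mem_antidiagonal]

theorem pow_inj0 {x : P} (h : x ^ (2 ^ ρ) = 0) : x = 0 := by
  rw [pow_eq_zero_iff (by positivity)] at h
  exact h

/-- injectivity of one product map -/
theorem Th_inj (a b : ℕ) (t : ↥(C a T) ⊗[ZMod 2] ↥(V b c)) (h : Th ρ T c a b t = 0) :
    t = 0 := by
  have : Fact (Nat.Prime 2) := ⟨Nat.prime_two⟩
  let 𝒞 := Module.Basis.ofVectorSpace (ZMod 2) ↥(V b c)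
  obtain ⟨g, rfl⟩ := TensorProduct.eq_repr_basis_right 𝒞 t
  have key : ∀ i, g i = 0 := by
    intro i
    apply Subtype.ext
    apply pow_inj0 ρ
    ext m
    rw [coeff_zero]
    by_cases hm : ∀ v : ℕ × ℕ, a ≤ v.1 → m v = 0
    · have h1 : ∑ i ∈ g.support, coeff m ((g i).1 ^ (2 ^ ρ)) • (𝒞 i) = 0 := by
        apply Subtype.ext
        ext n
        have h2 := congrArg (coeff (m + n.mapDomain fun v : ℕ × ℕ => (a + v.1, v.2))) h
        rw [Finsupp.sum, map_sum, coeff_sum, coeff_zero] at h2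
        rw [Submodule.coe_sum, coeff_sum, Submodule.coe_zero, coeff_zero, ← h2]
        refine sum_congr rfl fun i _ => ?_
        rw [Th_tmul, coeff_prod (Subalgebra.pow_mem _ (g i).2.1 _) m n hm, Submodule.coe_smul,
          coeff_smul, smul_eq_mul]
      by_cases hi : i ∈ g.support
      · exact linearIndependent_iff'.mp 𝒞.linearIndependent g.support _ h1 i hi
      · rw [Finsupp.notMem_support_iff.mp hi]
        simp
    · push Not at hm
      obtain ⟨v, hv, hv2⟩ := hm
      by_contra h0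
      exact hv2 (supp_Sup (Subalgebra.pow_mem _ (g i).2.1 _) h0 hv)
  have : g = 0 := by
    ext1 i
    exact key i
  rw [this, Finsupp.sum_zero_index]

/-- weights of the slots from `a` on -/
def wa (a : ℕ) : ℕ × ℕ → ℤ := fun v => if v.1 < a then 0 else wt v

theorem IW_pow_low {a a' : ℕ} (h : a ≤ a') {x : P} (hx : x ∈ Sup a) :
    IW (wa a') (x ^ (2 ^ ρ)) 0 := by
  have h1 : IW (wa a') x 0 := by
    intro e he
    rw [Finsupp.weight_apply]
    apply Finset.sum_eq_zero
    intro v hv
    rcases Nat.lt_or_ge v.1 a' with h2 | h2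
    · simp only [wa, if_pos h2, smul_zero]
    · exact absurd (supp_Sup hx he (by omega)) (Finsupp.mem_support_iff.mp hv)
  have h2 := h1.pow (2 ^ ρ)
  rwa [smul_zero] at h2

theorem wa_shift (a : ℕ) (n : (ℕ × ℕ) →₀ ℕ) :
    Finsupp.weight (wa a) (n.mapDomain fun v : ℕ × ℕ => (a + v.1, v.2)) = Finsupp.weight wt n := by
  rw [Finsupp.weight_apply, Finsupp.weight_apply, Finsupp.sum_mapDomain_index (by simp)
    (by intro v m m'; rw [add_smul])]
  refine Finsupp.sum_congr fun v _ => ?_
  simp [wa]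

theorem IW_shift {a : ℕ} {z : P} (hz : IW wt z c) : IW (wa a) (shift a z) c := by
  intro e he
  obtain ⟨n, rfl, hn⟩ := supp_shift he
  rw [wa_shift]
  exact hz hn

theorem Th_same (a b : ℕ) (t : ↥(C a T) ⊗[ZMod 2] ↥(V b c)) :
    cm (wa a) c (Th ρ T c a b t) = Th ρ T c a b t := by
  apply cm_same
  induction t using TensorProduct.induction_on with
  | zero => rw [map_zero]; exact IW.zero' _ _
  | add x y hx hy => rw [map_add]; exact hx.add hy
  | tmul x z =>
    rw [Th_tmul]
    have := IsWeightedHomogeneous.mul (IW_pow_low ρ (le_refl a) x.2.1)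
      (IW_shift c (a := a) z.2.1.2)
    rwa [zero_add] at this

theorem coeff_e0 (e : (ℕ × ℕ) →₀ ℕ) (z : P) :
    coeff e (e0 z) = coeff (e.mapDomain fun v : ℕ × ℕ => (1 + v.1, v.2)) z := by
  classical
  have key : ∀ u : (ℕ × ℕ) →₀ ℕ, coeff e (e0 (monomial u 1))
      = coeff (e.mapDomain fun v : ℕ × ℕ => (1 + v.1, v.2)) (monomial u (1 : ZMod 2)) := by
    intro u
    by_cases hu : ∃ u' : (ℕ × ℕ) →₀ ℕ, u'.mapDomain (fun v : ℕ × ℕ => (1 + v.1, v.2)) = u
    · obtain ⟨u', rfl⟩ := hu
      have h1 : (monomial (u'.mapDomain fun v : ℕ × ℕ => (1 + v.1, v.2)) (1 : ZMod 2))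
          = shift 1 (monomial u' 1) := by
        rw [shift, rename_monomial]
      rw [h1, e0_shift, coeff_shift]
    · have h2 : ∃ n, u (0, n) ≠ 0 := by
        by_contra h3
        push Not at h3
        apply hu
        refine ⟨u.comapDomain _ (shv_inj 1).injOn, ?_⟩
        apply Finsupp.mapDomain_comapDomain _ (shv_inj 1)
        rintro ⟨a, n⟩ hv
        cases a with
        | zero => exact absurd (h3 n) (Finsupp.mem_support_iff.mp hv)
        | succ a => exact ⟨(a, n), by simp [add_comm]⟩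
      obtain ⟨n, hn⟩ := h2
      have h3 : e0 (monomial u (1 : ZMod 2)) = 0 := by
        have h4 : monomial u (1 : ZMod 2) = X (0, n) * monomial (u - Finsupp.single (0, n) 1) 1 := by
          rw [X, monomial_mul, one_mul, add_tsub_cancel_of_le]
          rw [Finsupp.single_le_iff]
          omega
        rw [h4, map_mul, e0_zero, zero_mul]
      rw [h3, coeff_zero, coeff_monomial, if_neg]
      intro h5
      exact hu ⟨e, h5.symm⟩
  conv_lhs => rw [z.as_sum]
  conv_rhs => rw [z.as_sum]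
  rw [map_sum, coeff_sum, coeff_sum]
  refine sum_congr rfl fun u _ => ?_
  have h1 : monomial u (coeff u z) = coeff u z • (monomial u 1 : P) := by
    rw [smul_monomial, smul_eq_mul, mul_one]
  rw [h1, map_smul, coeff_smul, coeff_smul, key u]

theorem wa_zero {a a' : ℕ} (h : a' ≤ a) {E : (ℕ × ℕ) →₀ ℕ}
    (hE : Finsupp.weight (wa a) E = Finsupp.weight (wa a') E)
    (hE2 : ∀ {v : ℕ × ℕ}, v.1 < a' → E v = 0) (v : ℕ × ℕ) (hv : v.1 < a) : E v = 0 := by
  have h1 : ∑ v ∈ E.support, (E v • wa a' v - E v • wa a v) = 0 := by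
    rw [sum_sub_distrib]
    rw [Finsupp.weight_apply, Finsupp.weight_apply, Finsupp.sum, Finsupp.sum] at hE
    rw [hE, sub_self]
  have hpos : ∀ v : ℕ × ℕ, (0 : ℤ) < wt v := by
    intro v
    simp only [wt]
    have h2 : (2 : ℤ) ^ 1 ≤ 2 ^ (v.2 + 1) := pow_le_pow_right₀ (by norm_num) (by omega)
    linarith
  rw [sum_eq_zero_iff_of_nonneg] at h1
  · by_contra h0
    have h2 := h1 v (Finsupp.mem_support_iff.mpr h0)
    rcases Nat.lt_or_ge v.1 a' with h3 | h3
    · exact h0 (hE2 h3)
    · simp only [wa, if_pos hv, if_neg (show ¬ v.1 < a' by omega), smul_zero, sub_zero,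
        nsmul_eq_mul] at h2
      have h4 := hpos v
      have h5 : (0 : ℤ) < (E v : ℤ) := by exact_mod_cast Nat.pos_of_ne_zero h0
      have := mul_pos h5 h4
      omega
  · intro v _
    rw [nsmul_eq_mul, nsmul_eq_mul, ← mul_sub]
    apply mul_nonneg (by positivity)
    have h4 := hpos v
    simp only [wa]
    split_ifs
    · linarith
    · omega
    · linarith
    · linarith

theorem Th_other {a a' b' : ℕ} (h : a' < a) (hb : 0 < b')
    (t : ↥(C a' T) ⊗[ZMod 2] ↥(V b' c)) : cm (wa a) c (Th ρ T c a' b' t) = 0 := by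
  induction t using TensorProduct.induction_on with
  | zero => rw [map_zero, map_zero]
  | add x y hx hy => rw [map_add, map_add, hx, hy, add_zero]
  | tmul x z =>
    rw [Th_tmul]
    have h1 := cm_mul (w := wa a) (IW_pow_low ρ h.le x.2.1) c (shift a' z.1)
    rw [zero_add] at h1
    rw [h1]
    have h2 : cm (wa a) c (shift a' z.1) = 0 := by
      ext e
      rw [coeff_weightedHomogeneousComponent, coeff_zero]
      split_ifs with he
      · by_contra h3
        obtain ⟨n, rfl, hn⟩ := supp_shift h3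
        have h4 : Finsupp.weight wt n = c := z.2.1.2 hn
        rw [← wa_shift a' n] at h4
        have h5 := wa_zero h.le (he.trans h4.symm) (map_low (e := n))
        have h6 : ∃ n' : (ℕ × ℕ) →₀ ℕ, n'.mapDomain (fun v : ℕ × ℕ => (1 + v.1, v.2)) = n := by
          refine ⟨n.comapDomain _ (shv_inj 1).injOn, ?_⟩
          apply Finsupp.mapDomain_comapDomain _ (shv_inj 1)
          rintro ⟨i, m⟩ hv
          cases i with
          | zero =>
            have h7 := h5 (a' + 0, m) (by simpa using h)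
            have h8 := Finsupp.mapDomain_apply (shv_inj a') n (0, m)
            exact absurd (h8.symm.trans h7) (Finsupp.mem_support_iff.mp hv)
          | succ i => exact ⟨(i, m), by simp [add_comm]⟩
        obtain ⟨n', rfl⟩ := h6
        rw [← coeff_e0, z.2.2 hb, coeff_zero] at hn
        exact hn rfl
      · rfl
    rw [h2, mul_zero]

end Pool.Agent.H749.GK.St
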