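import Pool.Agent.H749.GK.KC

/-!
# The cohomology of the split cochains
-/

set_option autoImplicit false
set_option linter.unusedSectionVars false

namespace Pool.Agent.H749.GK.St

open Finset MvPolynomial TensorProduct Pool.Agent.W624.Stz Pool.Agent.H749.GK.KA

/-- families -/
abbrev Fam (T c : ℤ) := ∀ a b : ℕ, ↥(C a T) ⊗[ZMod 2] ↥(V b c)

variable (ρ : ℕ) (T c : ℤ)

/-- the sum of the products -/
noncomputable def TS (s : ℕ) (u : Fam T c) : P :=
  ∑ p ∈ antidiagonal s, Th ρ T c p.1 p.2 (u p.1 p.2)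

theorem TS_inj (s : ℕ) (u : Fam T c) (h : TS ρ T c s u = 0) :
    ∀ a b, a + b = s → u a b = 0 := by
  -- descending induction on `a`
  have key : ∀ k a b, a + b = s → b = k → u a b = 0 := by
    intro k
    induction k using Nat.strong_induction_on with
    | _ k ih =>
      intro a b hab hbk
      subst hbk
      apply Th_inj ρ T c a b
      have h1 : cm (wa a) c (TS ρ T c s u) = Th ρ T c a b (u a b) := by
        rw [TS, map_sum, sum_eq_single (a, b)]
        · exact Th_same ρ T c a b _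
        · rintro ⟨a', b'⟩ hp hne
          rw [HasAntidiagonal.mem_antidiagonal] at hp
          simp only at hp ⊢
          rcases Nat.lt_trichotomy a' a with h2 | h2 | h2
          · exact Th_other ρ T c h2 (by omega) _
          · exfalso
            apply hne
            rw [Prod.mk.injEq]
            omega
          · rw [ih b' (by omega) a' b' hp rfl, map_zero, map_zero]
        · intro h2
          exfalso
          apply h2
          rw [HasAntidiagonal.mem_antidiagonal]
          exact hab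
      rw [← h1, h, map_zero]
  exact fun a b hab => key b a b hab rfl

theorem TS_add (s : ℕ) (u v : Fam T c) :
    TS ρ T c s (fun a b => u a b + v a b) = TS ρ T c s u + TS ρ T c s v := by
  simp only [TS, map_add, sum_add_distrib]

theorem TS_congr {s : ℕ} {u v : Fam T c} (h : ∀ a b, a + b = s → u a b = v a b) :
    TS ρ T c s u = TS ρ T c s v := by
  refine sum_congr rfl fun p hp => ?_
  rw [h p.1 p.2 (HasAntidiagonal.mem_antidiagonal.mp hp)]

/-- the differentials on the factors -/
noncomputable def dXm (a : ℕ) : ↥(C a T) →ₗ[ZMod 2] ↥(C (a + 1) T) :=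
  (d a).restrict fun _ hx => d_C hx

/-- the differentials on the factors -/
noncomputable def dVm (b : ℕ) : ↥(V b c) →ₗ[ZMod 2] ↥(V (b + 1) c) :=
  (d b).restrict fun _ hx => d_V hx

theorem d_Th (a b : ℕ) (t : ↥(C a T) ⊗[ZMod 2] ↥(V b c)) :
    d (a + b) (Th ρ T c a b t) = Th ρ T c (a + 1) b ((dXm T a).rTensor _ t)
      + Th ρ T c a (b + 1) ((dVm c b).lTensor _ t) := by
  induction t using TensorProduct.induction_on with
  | zero => simp only [map_zero, add_zero]
  | add x y hx hy =>
    simp only [map_add, hx, hy]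
    abel
  | tmul x z =>
    rw [Th_tmul, LinearMap.rTensor_tmul, LinearMap.lTensor_tmul, Th_tmul, Th_tmul,
      d_mul ρ x.2 z.2.1.1]
    rfl

/-- the total differential -/
noncomputable def DD (u : Fam T c) : Fam T c :=
  fun a b => D1 (dXm T) u a b + D2 (dVm c) u a b

theorem d_TS (s : ℕ) (u : Fam T c) : d s (TS ρ T c s u) = TS ρ T c (s + 1) (DD T c u) := by
  have h1 : d s (TS ρ T c s u)
      = ∑ p ∈ antidiagonal s, Th ρ T c (p.1 + 1) p.2 ((dXm T p.1).rTensor _ (u p.1 p.2))
        + ∑ p ∈ antidiagonal s, Th ρ T c p.1 (p.2 + 1) ((dVm c p.2).lTensor _ (u p.1 p.2)) := by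
    rw [TS, map_sum, ← sum_add_distrib]
    refine sum_congr rfl fun p hp => ?_
    have := HasAntidiagonal.mem_antidiagonal.mp hp
    rw [← d_Th, this]
  have h2 : TS ρ T c (s + 1) (D1 (dXm T) u)
      = ∑ p ∈ antidiagonal s, Th ρ T c (p.1 + 1) p.2 ((dXm T p.1).rTensor _ (u p.1 p.2)) := by
    rw [TS, Nat.sum_antidiagonal_succ]
    simp only [D1, map_zero, zero_add]
  have h3 : TS ρ T c (s + 1) (D2 (dVm c) u)
      = ∑ p ∈ antidiagonal s, Th ρ T c p.1 (p.2 + 1) ((dVm c p.2).lTensor _ (u p.1 p.2)) := by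
    rw [TS, Nat.sum_antidiagonal_succ']
    simp only [D2, map_zero, zero_add]
  rw [h1, ← h2, ← h3, ← TS_add]
  rfl

theorem Th_C (a b : ℕ) (t : ↥(C a T) ⊗[ZMod 2] ↥(V b c)) :
    Th ρ T c a b t ∈ C (a + b) (2 ^ ρ * T + c) := by
  induction t using TensorProduct.induction_on with
  | zero => rw [map_zero]; exact Submodule.zero_mem _
  | add x y hx hy => rw [map_add]; exact Submodule.add_mem _ hx hy
  | tmul x z => rw [Th_tmul]; exact mul_C (pow_C ρ x.2) z.2.1

theorem TS_C (s : ℕ) (u : Fam T c) : TS ρ T c s u ∈ C s (2 ^ ρ * T + c) := by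
  refine Submodule.sum_mem _ fun p hp => ?_
  have := Th_C ρ T c p.1 p.2 (u p.1 p.2)
  rwa [HasAntidiagonal.mem_antidiagonal.mp hp] at this

theorem Th_Sp (a b : ℕ) (t : ↥(C a T) ⊗[ZMod 2] ↥(V b c)) :
    Th ρ T c a b t ∈ Sp ρ T (a + b) := by
  induction t using TensorProduct.induction_on with
  | zero => rw [map_zero]; exact Submodule.zero_mem _
  | add x y hx hy => rw [map_add]; exact Submodule.add_mem _ hx hy
  | tmul x z =>
    rw [Th_tmul]
    refine Submodule.subset_span ⟨a, by omega, x.1, x.2, z.1, ?_, rfl⟩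
    rw [show a + b - a = b by omega]
    exact z.2.1.1

theorem TS_Sp (s : ℕ) (u : Fam T c) : TS ρ T c s u ∈ Sp ρ T s := by
  refine Submodule.sum_mem _ fun p hp => ?_
  have := Th_Sp ρ T c p.1 p.2 (u p.1 p.2)
  rwa [HasAntidiagonal.mem_antidiagonal.mp hp] at this

/-- the range of the sums of products -/
noncomputable def RG (s : ℕ) : Submodule (ZMod 2) P where
  carrier := {f | ∃ u : Fam T c, f = TS ρ T c s u}
  zero_mem' := ⟨fun _ _ => 0, by simp only [TS, map_zero, sum_const_zero]⟩
  add_mem' := by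
    rintro _ _ ⟨u, rfl⟩ ⟨v, rfl⟩
    exact ⟨_, (TS_add ρ T c s u v).symm⟩
  smul_mem' := by
    rintro k _ ⟨u, rfl⟩
    refine ⟨fun a b => k • u a b, ?_⟩
    simp only [TS, map_smul, smul_sum]

theorem Th_RG {s a b : ℕ} (hab : a + b = s) (t : ↥(C a T) ⊗[ZMod 2] ↥(V b c)) :
    Th ρ T c a b t ∈ RG ρ T c s := by
  classical
  refine ⟨fun a' b' => if h : a' = a ∧ b' = b then h.1 ▸ h.2 ▸ t else 0, ?_⟩
  rw [TS, sum_eq_single (a, b)]
  · simp
  · rintro ⟨a', b'⟩ hp hne
    simp only
    rw [dif_neg, map_zero]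
    rintro ⟨rfl, rfl⟩
    exact hne rfl
  · intro h2
    exfalso
    apply h2
    rw [HasAntidiagonal.mem_antidiagonal]
    exact hab

theorem prod_RG : ∀ (b a s : ℕ) (_ : a + b = s) (x y : P) (_ : x ∈ C a T) (_ : y ∈ C b c),
    x ^ (2 ^ ρ) * shift a y ∈ RG ρ T c s := by
  intro b
  induction b with
  | zero =>
    intro a s hab x y hx hy
    have hy' : y ∈ V 0 c := ⟨hy, fun h => absurd h (by omega)⟩
    have := Th_RG ρ T c hab ((⟨x, hx⟩ : C a T) ⊗ₜ[ZMod 2] (⟨y, hy'⟩ : V 0 c))
    rwa [Th_tmul] at this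
  | succ b ih =>
    intro a s hab x y hx hy
    have h1 := Th_RG ρ T c hab
      ((⟨x, hx⟩ : C a T) ⊗ₜ[ZMod 2] (⟨y + shift 1 (e0 y), V_split hy⟩ : V (b + 1) c))
    rw [Th_tmul] at h1
    have h2 := ih (a + 1) s (by omega) x (e0 y) (C_le (by omega) hx) (e0_C hy)
    have h3 := Submodule.add_mem _ h1 h2
    simp only [map_add, shift_shift] at h3
    rwa [mul_add, add_assoc, p2_add_self, add_zero] at h3

theorem normal {s : ℕ} {f : P} (hf : f ∈ Sp ρ T s) (hf2 : f ∈ C s (2 ^ ρ * T + c)) :
    ∃ u : Fam T c, f = TS ρ T c s u := by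
  have key : ∀ g ∈ Sp ρ T s, cm wt (2 ^ ρ * T + c) g ∈ RG ρ T c s := by
    intro g hg
    induction hg using Submodule.span_induction with
    | mem g hg =>
      obtain ⟨a, ha, x, hx, y, hy, rfl⟩ := hg
      have h1 := cm_mul (w := wt) (pow_C ρ hx).2 c (shift a y)
      have h2 := cm_comm (w := wt) (w' := wt) (fun m => m) (fun _ _ h => h)
        (shift a).toLinearMap (fun f m hf => shift_IW hf) y c
      rw [AlgHom.toLinearMap_apply, AlgHom.toLinearMap_apply] at h2
      rw [h1, h2]
      refine prod_RG ρ T c (s - a) a s (by omega) x _ hx ⟨?_, cm_IW _ _ _⟩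
      have hy' := mem_supported.mp hy
      change _ ∈ Sup (s - a)
      rw [Sup, mem_supported]
      refine subset_trans ?_ hy'
      intro v hv
      rw [mem_coe, mem_vars_iff_mem_support] at hv ⊢
      obtain ⟨e, he, hve⟩ := hv
      refine ⟨e, ?_, hve⟩
      rw [mem_support_iff] at he ⊢
      rw [coeff_weightedHomogeneousComponent] at he
      split_ifs at he with h5
      · exact he
      · exact absurd rfl he
    | zero => rw [map_zero]; exact Submodule.zero_mem _
    | add f g _ _ hf hg => rw [map_add]; exact Submodule.add_mem _ hf hg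
    | smul k f _ hf => rw [map_smul]; exact Submodule.smul_mem _ _ hf
  have h1 := key f hf
  rwa [cm_same hf2.2] at h1

end Pool.Agent.H749.GK.St
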