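import Pool.Agent.H749.GK.KD

/-!
# Cup products and the Künneth theorem near multiples of `2 ^ r`
-/

set_option autoImplicit false
set_option linter.unusedSectionVars false

namespace Pool.Agent.H749.GK.St

open Finset MvPolynomial TensorProduct Pool.Agent.W624.Stz Pool.Agent.H749.GK.KA

section main

variable (ρ : ℕ) (T c : ℤ)

/-- cocycles of the normalized complex -/
noncomputable def VZ (b : ℕ) (c : ℤ) : Submodule (ZMod 2) P := V b c ⊓ LinearMap.ker (d b)

/-- inclusions -/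
noncomputable def jX (a : ℕ) : ↥(Z a T) →ₗ[ZMod 2] ↥(C a T) := Submodule.inclusion inf_le_left
/-- inclusions -/
noncomputable def jV (b : ℕ) : ↥(VZ b c) →ₗ[ZMod 2] ↥(V b c) := Submodule.inclusion inf_le_left

theorem exX (a : ℕ) : Function.Exact (jX T a) (dXm T a) := by
  intro y
  constructor
  · intro h
    exact ⟨⟨y.1, y.2, congrArg Subtype.val h⟩, rfl⟩
  · rintro ⟨x, rfl⟩
    exact Subtype.ext x.2.2

theorem exV (b : ℕ) : Function.Exact (jV c b) (dVm c b) := by
  intro y
  constructor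
  · intro h
    exact ⟨⟨y.1, y.2, congrArg Subtype.val h⟩, rfl⟩
  · rintro ⟨x, rfl⟩
    exact Subtype.ext x.2.2

theorem jV_inj (b : ℕ) : Function.Injective (jV c b) := Submodule.inclusion_injective _

theorem dd_V (b : ℕ) (x : ↥(V b c)) : dVm c (b + 1) (dVm c b x) = 0 :=
  Subtype.ext (d_d x.2.1.1)

theorem dp_C {s : ℕ} {t : ℤ} {f : P} (hf : f ∈ C (s - 1) t) : dp s f ∈ C s t := by
  cases s with
  | zero => rw [dp, LinearMap.zero_apply]; exact Submodule.zero_mem _
  | succ s => exact d_C hf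

theorem d_dp {s : ℕ} {t : ℤ} {f : P} (hf : f ∈ C (s - 1) t) : d s (dp s f) = 0 := by
  cases s with
  | zero => rw [dp, LinearMap.zero_apply, map_zero]
  | succ s => exact d_d hf.1

/-- surjectivity -/
theorem mainSurj {s : ℕ} (hT : (2 : ℤ) ^ (2 * s + 1) ∣ T) (hc : 0 ≤ c) (hc2 : c < 2 ^ ρ) {f : P}
    (hf : f ∈ Z s (2 ^ ρ * T + c)) : ∃ h ∈ C (s - 1) (2 ^ ρ * T + c),
      ∃ w : ∀ a b : ℕ, ↥(Z a T) ⊗[ZMod 2] ↥(VZ b c),
        f = dp s h + TS ρ T c s fun a b => TensorProduct.map (jX T a) (jV c b) (w a b) := by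
  obtain ⟨h1, hh1, hS⟩ := acyc hT hc hc2 hf.1
    (by rw [LinearMap.mem_ker.mp hf.2]; exact Submodule.zero_mem _)
  obtain ⟨u, hu⟩ := normal ρ T c hS (Submodule.add_mem _ hf.1 (dp_C hh1))
  have h2 : TS ρ T c (s + 1) (DD T c u) = 0 := by
    rw [← d_TS, ← hu, map_add, LinearMap.mem_ker.mp hf.2, d_dp hh1, add_zero]
  have h3 := TS_inj ρ T c _ _ h2
  obtain ⟨h, w, hw⟩ := K1 (dXm T) (dVm c) (jX T) (jV c) (exX T) (exV c) (jV_inj c) (dd_V c) s u h3
  have h4 : TS ρ T c s u = TS ρ T c s (DD T c h)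
      + TS ρ T c s fun a b => TensorProduct.map (jX T a) (jV c b) (w a b) := by
    rw [← TS_add]
    exact TS_congr ρ T c hw
  have h5 : ∃ h' ∈ C (s - 1) (2 ^ ρ * T + c), TS ρ T c s (DD T c h) = dp s h' := by
    cases s with
    | zero =>
      refine ⟨0, Submodule.zero_mem _, ?_⟩
      rw [map_zero, TS]
      simp [DD, D1, D2]
    | succ s => exact ⟨TS ρ T c s h, TS_C ρ T c s h, (d_TS ρ T c s h).symm⟩
  obtain ⟨h', hh', h6⟩ := h5
  refine ⟨h1 + h', Submodule.add_mem _ hh1 hh', w, ?_⟩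
  rw [h4, h6] at hu
  have h7 := p2_add_self (dp s h1)
  calc f = f + (dp s h1 + dp s h1) := by rw [h7, add_zero]
    _ = f + dp s h1 + dp s h1 := by rw [add_assoc]
    _ = _ := by rw [hu, map_add]; abel

/-- injectivity -/
theorem mainInj {s : ℕ} (hT : (2 : ℤ) ^ (2 * s + 1) ∣ T) (hc : 0 ≤ c) (hc2 : c < 2 ^ ρ)
    (w : ∀ a b : ℕ, ↥(Z a T) ⊗[ZMod 2] ↥(VZ b c)) {v : P} (hv : v ∈ C (s - 1) (2 ^ ρ * T + c))
    (h : TS ρ T c s (fun a b => TensorProduct.map (jX T a) (jV c b) (w a b)) = dp s v) :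
    ∃ g : Fam T c, ∀ a b, a + b = s → TensorProduct.map (jX T a) (jV c b) (w a b)
      = D1 (dXm T) g a b + D2 (dVm c) g a b := by
  have key : ∃ g : Fam T c, TS ρ T c s (fun a b => TensorProduct.map (jX T a) (jV c b) (w a b))
      = TS ρ T c s (DD T c g) := by
    cases s with
    | zero =>
      refine ⟨fun _ _ => 0, ?_⟩
      rw [h, dp, LinearMap.zero_apply, TS]
      simp [DD, D1, D2]
    | succ s =>
      have hv' : v ∈ C s (2 ^ ρ * T + c) := hv
      have h1 : d s v ∈ Sp ρ T (s + 1) := by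
        have h2 : dp (s + 1) v = d s v := rfl
        rw [← h2, ← h]
        exact TS_Sp ρ T c _ _
      obtain ⟨h3, hh3, hS⟩ := acyc (dvd_trans (pow_dvd_pow 2 (by omega)) hT) hc hc2 hv' h1
      obtain ⟨g, hg⟩ := normal ρ T c hS (Submodule.add_mem _ hv' (dp_C hh3))
      refine ⟨g, ?_⟩
      rw [h, ← d_TS, ← hg, map_add, d_dp hh3, add_zero]
      rfl
  obtain ⟨g, hg⟩ := key
  refine ⟨g, fun a b hab => ?_⟩
  have h1 : TS ρ T c s (fun a b => TensorProduct.map (jX T a) (jV c b) (w a b) + DD T c g a b)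
      = 0 := by
    rw [TS_add, hg]
    exact p2_add_self _
  exact eq_of_add (TS_inj ρ T c _ _ h1 a b hab)

end main

section cup

theorem mem_B {s : ℕ} {t : ℤ} {f : P} : f ∈ B s t ↔ ∃ v ∈ C (s - 1) t, dp s v = f := by
  cases s with
  | zero =>
    constructor
    · intro h
      exact ⟨0, Submodule.zero_mem _, by rw [map_zero]; exact ((Submodule.mem_bot _).mp h).symm⟩
    · rintro ⟨v, _, rfl⟩
      rw [dp, LinearMap.zero_apply]
      exact Submodule.zero_mem _
  | succ s => exact Submodule.mem_map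

theorem cl_zero {s : ℕ} {t : ℤ} {x : Z s t} : cl x = 0 ↔ x.1 ∈ B s t :=
  (Submodule.Quotient.mk_eq_zero ((B s t).comap (Z s t).subtype)).trans Submodule.mem_comap

theorem cl_surj {s : ℕ} {t : ℤ} (α : Ext s t) : ∃ x : Z s t, cl x = α :=
  Submodule.Quotient.mk_surjective _ α

/-- the class map as a linear map -/
noncomputable def clL (s : ℕ) (t : ℤ) : ↥(Z s t) →ₗ[ZMod 2] Ext s t :=
  ((B s t).comap (Z s t).subtype).mkQ

theorem clL_apply {s : ℕ} {t : ℤ} (x : Z s t) : clL s t x = cl x := rfl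

theorem cl_eq {s : ℕ} {t : ℤ} {x y : Z s t} (h : x.1 + y.1 ∈ B s t) : cl x = cl y := by
  have h1 : cl (x + y) = 0 := cl_zero.mpr h
  rw [← clL_apply, map_add] at h1
  exact eq_of_add h1

theorem d_cup {a b : ℕ} {t : ℤ} {x y : P} (hx : x ∈ C a t) (hy : y ∈ Sup b) :
    d (a + b) (x * shift a y) = d a x * shift (a + 1) y + x * shift a (d b y) := by
  have := d_mul 0 hx hy
  simpa using this

/-- the product of cocycles -/
noncomputable def cupZ {a b s : ℕ} {t u : ℤ} (h : a + b = s) (x : Z a t) (y : Z b u) :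
    Z s (t + u) :=
  ⟨x.1 * shift a y.1, by
    subst h
    refine ⟨mul_C x.2.1 y.2.1, LinearMap.mem_ker.mpr ?_⟩
    rw [d_cup x.2.1 y.2.1.1, LinearMap.mem_ker.mp x.2.2,
      LinearMap.mem_ker.mp y.2.2, zero_mul, map_zero, mul_zero, add_zero]⟩

theorem cup_left {a b s : ℕ} {t u : ℤ} (h : a + b = s) {x : Z a t} (y : Z b u)
    (hx : x.1 ∈ B a t) : (cupZ h x y).1 ∈ B s (t + u) := by
  subst h
  cases a with
  | zero =>
    have h0 : x.1 = 0 := (Submodule.mem_bot _).mp hx
    change x.1 * shift 0 y.1 ∈ _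
    rw [h0, zero_mul]
    exact Submodule.zero_mem _
  | succ a =>
    obtain ⟨v, hv, hv2⟩ := Submodule.mem_map.mp hx
    change x.1 * shift (a + 1) y.1 ∈ _
    rw [mem_B]
    refine ⟨v * shift a y.1, ?_, ?_⟩
    · rw [show a + 1 + b - 1 = a + b by omega]
      exact mul_C hv y.2.1
    · rw [show a + 1 + b = (a + b) + 1 by omega]
      change d (a + b) _ = _
      rw [d_cup hv y.2.1.1, LinearMap.mem_ker.mp y.2.2, map_zero, mul_zero, add_zero, hv2]

theorem cup_right {a b s : ℕ} {t u : ℤ} (h : a + b = s) (x : Z a t) {y : Z b u}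
    (hy : y.1 ∈ B b u) : (cupZ h x y).1 ∈ B s (t + u) := by
  subst h
  cases b with
  | zero =>
    have h0 : y.1 = 0 := (Submodule.mem_bot _).mp hy
    change x.1 * shift a y.1 ∈ _
    rw [h0, map_zero, mul_zero]
    exact Submodule.zero_mem _
  | succ b =>
    obtain ⟨v, hv, hv2⟩ := Submodule.mem_map.mp hy
    change x.1 * shift a y.1 ∈ _
    rw [mem_B]
    refine ⟨x.1 * shift a v, ?_, ?_⟩
    · rw [show a + (b + 1) - 1 = a + b by omega]
      exact mul_C x.2.1 hv
    · change d (a + b) _ = _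
      rw [d_cup x.2.1 hv.1, LinearMap.mem_ker.mp x.2.2, zero_mul, zero_add, hv2]

theorem cup_congr {a b s : ℕ} {t u : ℤ} (h : a + b = s) {x x' : Z a t} {y y' : Z b u}
    (hx : cl x = cl x') (hy : cl y = cl y') : cl (cupZ h x y) = cl (cupZ h x' y') := by
  have h1 : cl (cupZ h x y) = cl (cupZ h x' y) := by
    apply cl_eq
    have h2 : cl (x + x') = 0 := by
      rw [← clL_apply, map_add, clL_apply, clL_apply, hx]
      exact ch2 _
    have h3 := cup_left h y (cl_zero.mp h2)
    change (x.1 + x'.1) * shift a y.1 ∈ _ at h3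
    rwa [add_mul] at h3
  have h2 : cl (cupZ h x' y) = cl (cupZ h x' y') := by
    apply cl_eq
    have h2 : cl (y + y') = 0 := by
      rw [← clL_apply, map_add, clL_apply, clL_apply, hy]
      exact ch2 _
    have h3 := cup_right h x' (cl_zero.mp h2)
    change x'.1 * shift a (y.1 + y'.1) ∈ _ at h3
    rwa [map_add, mul_add] at h3
  rw [h1, h2]

/-- representatives -/
noncomputable def rep {s : ℕ} {t : ℤ} (α : Ext s t) : Z s t := (cl_surj α).choose

theorem cl_rep {s : ℕ} {t : ℤ} (α : Ext s t) : cl (rep α) = α := (cl_surj α).choose_spec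

theorem cl_add {s : ℕ} {t : ℤ} (x y : Z s t) : cl (x + y) = cl x + cl y := (clL s t).map_add x y
theorem cl_smul {s : ℕ} {t : ℤ} (k : ZMod 2) (x : Z s t) : cl (k • x) = k • cl x :=
  (clL s t).map_smul k x

/-- the product of classes -/
noncomputable def cupE {a b s : ℕ} {t u : ℤ} (h : a + b = s) :
    Ext a t →ₗ[ZMod 2] Ext b u →ₗ[ZMod 2] Ext s (t + u) :=
  LinearMap.mk₂ (ZMod 2) (fun α β => cl (cupZ h (rep α) (rep β)))
    (fun α α' β => by
      rw [← cl_add]
      have h1 : cl (rep (α + α')) = cl (rep α + rep α') := by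
        rw [cl_rep, cl_add, cl_rep, cl_rep]
      rw [cup_congr h h1 (rfl : cl (rep β) = _)]
      congr 1
      apply Subtype.ext
      exact add_mul _ _ _)
    (fun k α β => by
      rw [← cl_smul]
      have h1 : cl (rep (k • α)) = cl (k • rep α) := by
        rw [cl_rep, cl_smul, cl_rep]
      rw [cup_congr h h1 (rfl : cl (rep β) = _)]
      congr 1
      apply Subtype.ext
      exact smul_mul_assoc _ _ _)
    (fun α β β' => by
      rw [← cl_add]
      have h1 : cl (rep (β + β')) = cl (rep β + rep β') := by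
        rw [cl_rep, cl_add, cl_rep, cl_rep]
      rw [cup_congr h (rfl : cl (rep α) = _) h1]
      congr 1
      apply Subtype.ext
      change _ * shift a (_ + _) = _ * _ + _ * _
      rw [map_add, mul_add])
    (fun k α β => by
      rw [← cl_smul]
      have h1 : cl (rep (k • β)) = cl (k • rep β) := by
        rw [cl_rep, cl_smul, cl_rep]
      rw [cup_congr h (rfl : cl (rep α) = _) h1]
      congr 1
      apply Subtype.ext
      change _ * shift a (k • _) = k • (_ * _)
      rw [map_smul, mul_smul_comm])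

theorem cupE_cl {a b s : ℕ} {t u : ℤ} (h : a + b = s) (x : Z a t) (y : Z b u) :
    cupE h (cl x) (cl y) = cl (cupZ h x y) :=
  cup_congr h (cl_rep _) (cl_rep _)

/-- families of tensors -/
def mkT {s : ℕ} {t u : ℤ} (f : ∀ p : antidiagonal s, ExtPair s t u p) : ExtTensor s t u := f

/-- the Künneth map -/
noncomputable def kap (s : ℕ) (t u : ℤ) : ExtTensor s t u →ₗ[ZMod 2] Ext s (t + u) :=
  ∑ p : antidiagonal s, (TensorProduct.lift (cupE (HasAntidiagonal.mem_antidiagonal.mp p.2))).comp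
    (LinearMap.proj (φ := ExtPair s t u) p)

theorem kap_apply (s : ℕ) (t u : ℤ) (ω : ExtTensor s t u) :
    kap s t u ω = ∑ p : antidiagonal s,
      TensorProduct.lift (cupE (HasAntidiagonal.mem_antidiagonal.mp p.2)) (ω p) := by
  rw [kap, LinearMap.sum_apply]
  rfl

theorem kap_single (s : ℕ) (t u : ℤ) (p : antidiagonal s) (x : Z p.1.1 t) (y : Z p.1.2 u) :
    kap s t u (tens p x y) = cl (cupZ (HasAntidiagonal.mem_antidiagonal.mp p.2) x y) := by
  rw [kap_apply, sum_eq_single p]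
  · rw [tens, Pi.single_eq_same, TensorProduct.lift.tmul, cupE_cl]
  · intro q _ hq
    rw [tens, Pi.single_eq_of_ne hq, map_zero]
  · intro h
    exact absurd (mem_univ p) h

end cup

end Pool.Agent.H749.GK.St
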