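import Pool.Agent.H749.GK.KE

/-!
# The Künneth theorem near multiples of `2 ^ r`
-/

set_option autoImplicit false
set_option linter.unusedSectionVars false

namespace Pool.Agent.H749.GK.St

open Finset MvPolynomial TensorProduct Pool.Agent.W624.Stz Pool.Agent.H749.GK.KA

theorem wt_pos (v : ℕ × ℕ) : (0 : ℤ) < wt v := by
  simp only [wt]
  have h2 : (2 : ℤ) ^ 1 ≤ 2 ^ (v.2 + 1) := pow_le_pow_right₀ (by norm_num) (by omega)
  linarith

theorem weight_nonneg (e : (ℕ × ℕ) →₀ ℕ) : 0 ≤ Finsupp.weight wt e := by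
  rw [Finsupp.weight_apply, Finsupp.sum]
  exact sum_nonneg fun v _ => by
    rw [nsmul_eq_mul]
    exact mul_nonneg (by positivity) (wt_pos v).le

theorem C_neg {s : ℕ} {t : ℤ} (ht : t < 0) {f : P} (hf : f ∈ C s t) : f = 0 := by
  by_contra h
  obtain ⟨e, he⟩ := ne_zero_iff.mp h
  have h1 : Finsupp.weight wt e = t := hf.2 he
  have := weight_nonneg e
  omega

theorem weight_zero {e : (ℕ × ℕ) →₀ ℕ} (h : Finsupp.weight wt e = 0) : e = 0 := by
  ext v
  rw [Finsupp.weight_apply, Finsupp.sum, sum_eq_zero_iff_of_nonneg] at h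
  · by_contra h0
    have h1 := h v (Finsupp.mem_support_iff.mpr h0)
    rw [nsmul_eq_mul] at h1
    have h5 : (0 : ℤ) < (e v : ℤ) := by exact_mod_cast Nat.pos_of_ne_zero h0
    have := mul_pos h5 (wt_pos v)
    omega
  · intro v _
    rw [nsmul_eq_mul]
    exact mul_nonneg (by positivity) (wt_pos v).le

theorem C_deg0 {s : ℕ} {f : P} (hf : f ∈ C s 0) : ∃ r : ZMod 2, f = MvPolynomial.C r := by
  refine ⟨coeff 0 f, ?_⟩
  ext e
  rw [coeff_C]
  split_ifs with h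
  · rw [h]
  · by_contra h0
    exact h (weight_zero (hf.2 h0)).symm

theorem V_deg0 {b : ℕ} {f : P} (hf : f ∈ V (b + 1) 0) : f = 0 := by
  obtain ⟨r, rfl⟩ := C_deg0 hf.1
  have h := V_e0 hf
  rwa [algHom_C] at h

theorem face_pow (j ρ : ℕ) (f : P) : face j (f ^ (2 ^ ρ)) = (face j f) ^ (2 ^ ρ) := map_pow _ _ _

theorem d_pow (s ρ : ℕ) (f : P) : d s (f ^ (2 ^ ρ)) = (d s f) ^ (2 ^ ρ) := by
  rw [d_apply, d_apply, sum_pow0]
  exact sum_congr rfl fun j _ => map_pow _ _ _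

variable (ρ : ℕ) (T c : ℤ)

/-- the iterated `Sq⁰` on cocycles -/
noncomputable def sqZ (a : ℕ) : ↥(Z a T) →ₗ[ZMod 2] ↥(Z a (2 ^ ρ * T)) :=
  (pw ρ).restrict (p := Z a T) (q := Z a (2 ^ ρ * T)) fun x hx =>
    ⟨pow_C ρ hx.1, LinearMap.mem_ker.mpr (by
      rw [pw_apply, d_pow, LinearMap.mem_ker.mp hx.2, zero_pow (by positivity)])⟩

/-- the iterated `Sq⁰` -/
noncomputable def sqc (a : ℕ) : ↥(Z a T) →ₗ[ZMod 2] Ext a (2 ^ ρ * T) := (clL _ _).comp (sqZ ρ T a)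

theorem sqc_zero {a : ℕ} {x : Z a T} (h : jX T a x ∈ PR (dXm T) a) : sqc ρ T a x = 0 := by
  refine cl_zero.mpr ?_
  change x.1 ^ (2 ^ ρ) ∈ _
  cases a with
  | zero =>
    have h1 : jX T 0 x = 0 := (Submodule.mem_bot _).mp h
    have h2 : x.1 = 0 := congrArg Subtype.val h1
    rw [h2, zero_pow (by positivity)]
    exact Submodule.zero_mem _
  | succ a =>
    obtain ⟨v, hv⟩ := h
    have h2 : d a v.1 = x.1 := congrArg Subtype.val hv
    rw [← h2, ← d_pow]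
    exact Submodule.mem_map_of_mem (pow_C ρ v.2)

theorem sqc_surj {a : ℕ} (hT : (2 : ℤ) ^ (2 * a + 1) ∣ T) : Function.Surjective (sqc ρ T a) := by
  intro α
  obtain ⟨f, rfl⟩ := cl_surj α
  have h0 : (2 : ℤ) ^ ρ * T = 2 ^ ρ * T + 0 := (add_zero _).symm
  have hf1 : f.1 ∈ C a (2 ^ ρ * T + 0) := by rw [add_zero]; exact f.2.1
  obtain ⟨h1, hh1, hS⟩ := acyc (c := 0) hT le_rfl (by positivity) hf1
    (by rw [LinearMap.mem_ker.mp f.2.2]; exact Submodule.zero_mem _)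
  obtain ⟨u, hu⟩ := normal ρ T 0 hS (Submodule.add_mem _ hf1 (dp_C hh1))
  -- the sum is a power
  have h2 : ∃ y ∈ C a T, TS ρ T 0 a u = y ^ (2 ^ ρ) := by
    have h3 : ∀ b a' (t : ↥(C a' T) ⊗[ZMod 2] ↥(V b 0)), a' ≤ a →
        ∃ y ∈ C a T, Th ρ T 0 a' b t = pw ρ y := by
      intro b a' t ha
      induction t using TensorProduct.induction_on with
      | zero => exact ⟨0, Submodule.zero_mem _, by rw [map_zero, map_zero]⟩
      | add x y hx hy =>
        obtain ⟨x', hx', hx2⟩ := hx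
        obtain ⟨y', hy', hy2⟩ := hy
        exact ⟨x' + y', Submodule.add_mem _ hx' hy', by rw [map_add, map_add, hx2, hy2]⟩
      | tmul x z =>
        rw [Th_tmul]
        cases b with
        | zero =>
          obtain ⟨r, hr⟩ := C_deg0 z.2.1
          refine ⟨r • x.1, Submodule.smul_mem _ _ (C_le ha x.2), ?_⟩
          rw [map_smul, pw_apply, hr, shift, rename_C, mul_comm, ← smul_eq_C_mul]
        | succ b =>
          refine ⟨0, Submodule.zero_mem _, ?_⟩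
          rw [V_deg0 z.2, map_zero, mul_zero, map_zero]
    have h4 : TS ρ T 0 a u ∈ (C a T).map (pw ρ) := by
      refine Submodule.sum_mem _ fun p hp => ?_
      have := HasAntidiagonal.mem_antidiagonal.mp hp
      obtain ⟨y, hy, hy2⟩ := h3 p.2 p.1 (u p.1 p.2) (by omega)
      exact ⟨y, hy, hy2.symm⟩
    obtain ⟨y, hy, hy2⟩ := h4
    exact ⟨y, hy, hy2.symm⟩
  obtain ⟨y, hy, hy2⟩ := h2
  rw [hy2] at hu
  have h5 : d a y = 0 := by
    apply pow_inj0 ρ
    rw [← d_pow, ← hu, map_add, LinearMap.mem_ker.mp f.2.2, d_dp hh1, add_zero]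
  refine ⟨⟨y, hy, LinearMap.mem_ker.mpr h5⟩, ?_⟩
  change cl _ = _
  apply cl_eq
  change y ^ (2 ^ ρ) + f.1 ∈ _
  rw [← hu, mem_B]
  refine ⟨h1, ?_, ?_⟩
  · rwa [add_zero] at hh1
  · have h7 := p2_add_self f.1
    calc dp a h1 = (f.1 + f.1) + dp a h1 := by rw [h7, zero_add]
      _ = _ := by abel

/-- the classes of the normalized cocycles -/
noncomputable def nzZ (b : ℕ) : ↥(VZ b c) →ₗ[ZMod 2] ↥(Z b c) :=
  Submodule.inclusion fun _ hx => ⟨hx.1.1, hx.2⟩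

/-- the classes of the normalized cocycles -/
noncomputable def nzc (b : ℕ) : ↥(VZ b c) →ₗ[ZMod 2] Ext b c := (clL _ _).comp (nzZ c b)

theorem nzc_zero {b : ℕ} {x : VZ b c} (h : jV c b x ∈ PR (dVm c) b) : nzc c b x = 0 := by
  refine cl_zero.mpr ?_
  change x.1 ∈ _
  cases b with
  | zero =>
    have h1 : jV c 0 x = 0 := (Submodule.mem_bot _).mp h
    have h2 : x.1 = 0 := congrArg Subtype.val h1
    rw [h2]
    exact Submodule.zero_mem _
  | succ b =>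
    obtain ⟨v, hv⟩ := h
    have h2 : d b v.1 = x.1 := congrArg Subtype.val hv
    rw [← h2]
    exact Submodule.mem_map_of_mem v.2.1

theorem nzc_surj (b : ℕ) : Function.Surjective (nzc c b) := by
  intro α
  obtain ⟨f, rfl⟩ := cl_surj α
  cases b with
  | zero => exact ⟨⟨f.1, ⟨f.2.1, fun h => absurd h (by omega)⟩, f.2.2⟩, rfl⟩
  | succ b =>
    have h1 := e0_d b f.1
    rw [LinearMap.mem_ker.mp f.2.2, map_zero] at h1
    have h2 : d b (e0 f.1) = shift 1 (e0 f.1) := eq_of_add h1.symm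
    have h3 := e0_C f.2.1
    refine ⟨⟨f.1 + shift 1 (e0 f.1), V_split f.2.1, LinearMap.mem_ker.mpr ?_⟩, ?_⟩
    · rw [← h2, map_add, LinearMap.mem_ker.mp f.2.2, zero_add, d_d h3.1]
    · change cl _ = _
      apply cl_eq
      have h4 : f.1 + shift 1 (e0 f.1) + f.1 = d b (e0 f.1) := by
        rw [h2, add_comm, ← add_assoc, p2_add_self, zero_add]
      change f.1 + shift 1 (e0 f.1) + f.1 ∈ _
      rw [h4]
      exact Submodule.mem_map_of_mem h3

/-- the product map on the level of cocycles -/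
theorem Th_Z {a b s : ℕ} (h : a + b = s) (t : ↥(Z a T) ⊗[ZMod 2] ↥(VZ b c)) :
    Th ρ T c a b (TensorProduct.map (jX T a) (jV c b) t) ∈ Z s (2 ^ ρ * T + c) := by
  induction t using TensorProduct.induction_on with
  | zero => rw [map_zero, map_zero]; exact Submodule.zero_mem _
  | add x y hx hy => rw [map_add, map_add]; exact Submodule.add_mem _ hx hy
  | tmul x z => exact (cupZ h (sqZ ρ T a x) (nzZ c b z)).2

theorem Th_cl {a b s : ℕ} (h : a + b = s) (t : ↥(Z a T) ⊗[ZMod 2] ↥(VZ b c)) :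
    TensorProduct.lift (cupE h) (TensorProduct.map (sqc ρ T a) (nzc c b) t)
      = cl ⟨_, Th_Z ρ T c h t⟩ := by
  induction t using TensorProduct.induction_on with
  | zero =>
    rw [map_zero, map_zero]
    refine (cl_zero.mpr ?_).symm
    change Th ρ T c a b (TensorProduct.map (jX T a) (jV c b) 0) ∈ _
    rw [map_zero, map_zero]
    exact Submodule.zero_mem _
  | add x y hx hy =>
    rw [map_add, map_add, hx, hy, ← cl_add]
    congr 1
    apply Subtype.ext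
    change Th ρ T c a b _ + Th ρ T c a b _ = Th ρ T c a b _
    rw [map_add, map_add]
  | tmul x z =>
    rw [TensorProduct.map_tmul, TensorProduct.lift.tmul]
    exact cupE_cl h (sqZ ρ T a x) (nzZ c b z)

theorem kap_w (s : ℕ) (w : ∀ a b : ℕ, ↥(Z a T) ⊗[ZMod 2] ↥(VZ b c)) :
    ∃ F : Z s (2 ^ ρ * T + c),
      F.1 = TS ρ T c s (fun a b => TensorProduct.map (jX T a) (jV c b) (w a b)) ∧
      kap s (2 ^ ρ * T) c (mkT fun p => TensorProduct.map (sqc ρ T p.1.1) (nzc c p.1.2)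
        (w p.1.1 p.1.2)) = cl F := by
  refine ⟨∑ p : antidiagonal s, ⟨_, Th_Z ρ T c (HasAntidiagonal.mem_antidiagonal.mp p.2)
    (w p.1.1 p.1.2)⟩, ?_, ?_⟩
  · rw [Submodule.coe_sum, TS]
    exact sum_coe_sort (antidiagonal s) (fun p => Th ρ T c p.1 p.2
      (TensorProduct.map (jX T p.1) (jV c p.2) (w p.1 p.2)))
  · rw [kap_apply, ← clL_apply, map_sum]
    exact sum_congr rfl fun p _ => Th_cl ρ T c _ _

theorem kap_surj {s : ℕ} (hT : (2 : ℤ) ^ (2 * s + 1) ∣ T) (hc : 0 ≤ c) (hc2 : c < 2 ^ ρ) :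
    Function.Surjective (kap s (2 ^ ρ * T) c) := by
  intro α
  obtain ⟨f, rfl⟩ := cl_surj α
  obtain ⟨h, hh, w, hw⟩ := mainSurj ρ T c hT hc hc2 f.2
  obtain ⟨F, hF1, hF2⟩ := kap_w ρ T c s w
  refine ⟨_, hF2.trans ?_⟩
  apply cl_eq
  rw [hF1, mem_B]
  refine ⟨h, hh, ?_⟩
  rw [hw, add_comm, add_assoc, p2_add_self, add_zero]

theorem kap_inj0 {s : ℕ} (hT : (2 : ℤ) ^ (2 * s + 1) ∣ T) (hc : 0 ≤ c) (hc2 : c < 2 ^ ρ)
    {ω : ExtTensor s (2 ^ ρ * T) c} (hω : kap s (2 ^ ρ * T) c ω = 0) (p : antidiagonal s) :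
    ω p = 0 := by
  have h1 : ∀ p : antidiagonal s, ∃ t : ↥(Z p.1.1 T) ⊗[ZMod 2] ↥(VZ p.1.2 c),
      TensorProduct.map (sqc ρ T p.1.1) (nzc c p.1.2) t = ω p := by
    intro p
    have := HasAntidiagonal.mem_antidiagonal.mp p.2
    exact TensorProduct.map_surjective
      (sqc_surj ρ T (dvd_trans (pow_dvd_pow 2 (by omega)) hT)) (nzc_surj c _) (ω p)
  choose t ht using h1
  classical
  let w : ∀ a b : ℕ, ↥(Z a T) ⊗[ZMod 2] ↥(VZ b c) := fun a b =>
    if h : (a, b) ∈ antidiagonal s then t ⟨(a, b), h⟩ else 0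
  have hw : ∀ p : antidiagonal s, w p.1.1 p.1.2 = t p := by
    intro p
    simp only [w]
    rw [dif_pos p.2]
  obtain ⟨F, hF1, hF2⟩ := kap_w ρ T c s w
  have h2 : (mkT fun p : antidiagonal s => TensorProduct.map (sqc ρ T p.1.1) (nzc c p.1.2)
      (w p.1.1 p.1.2)) = ω := by
    funext p
    rw [mkT, hw, ht]
  rw [h2, hω] at hF2
  obtain ⟨v, hv, hv2⟩ := mem_B.mp (cl_zero.mp hF2.symm)
  obtain ⟨g, hg⟩ := mainInj ρ T c hT hc hc2 w hv (by rw [← hF1, hv2])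
  have h3 := K2 (dXm T) (dVm c) (jX T) (jV c)
    (hg p.1.1 p.1.2 (HasAntidiagonal.mem_antidiagonal.mp p.2)) (sqc ρ T p.1.1) (nzc c p.1.2)
    (fun z hz => sqc_zero ρ T hz) (fun z hz => nzc_zero c hz)
  rw [hw, ht] at h3
  exact h3

theorem kap_inj {s : ℕ} (hT : (2 : ℤ) ^ (2 * s + 1) ∣ T) (hc : 0 ≤ c) (hc2 : c < 2 ^ ρ) :
    Function.Injective (kap s (2 ^ ρ * T) c) := by
  rw [injective_iff_map_eq_zero]
  intro ω h
  funext p
  exact kap_inj0 ρ T c hT hc hc2 h p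

/-- for negative `c` everything vanishes -/
theorem kap_neg {s ρ : ℕ} {T c : ℤ} (hT : (2 : ℤ) ^ (ρ + 2 * s + 1) ∣ T) (hc : c < 0)
    (hc2 : -2 ^ (ρ + 1) < c) : Function.Bijective (kap s T c) := by
  have h1 : ∀ α : Ext s (T + c), α = 0 := by
    intro α
    obtain ⟨f, rfl⟩ := cl_surj α
    rw [cl_zero, mem_B]
    exact vani hT hc hc2 f.2.1 (LinearMap.mem_ker.mp f.2.2)
  have h2 : ∀ (b : ℕ) (β : Ext b c), β = 0 := by
    intro b β
    obtain ⟨f, rfl⟩ := cl_surj β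
    rw [cl_zero, C_neg hc f.2.1]
    exact Submodule.zero_mem _
  constructor
  · intro ω ω' _
    funext p
    have h3 : ∀ t : Ext p.1.1 T ⊗[ZMod 2] Ext p.1.2 c, t = 0 := by
      intro t
      induction t using TensorProduct.induction_on with
      | zero => rfl
      | add x y hx hy => rw [hx, hy, add_zero]
      | tmul x y => rw [h2 _ y, TensorProduct.tmul_zero]
    rw [h3 (ω p), h3 (ω' p)]
  · intro α
    exact ⟨0, by rw [map_zero, h1 α]⟩

/-- **The Künneth theorem near multiples of `2 ^ r`.** -/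
theorem kunneth (s ρ : ℕ) (T c : ℤ) (hT : (2 : ℤ) ^ (ρ + 2 * s + 1) ∣ T)
    (hc : -2 ^ (ρ + 1) < c) (hc2 : c < 2 ^ ρ) :
    ∃ κ : ExtTensor s T c ≃ₗ[ZMod 2] Ext s (T + c),
      ∀ (p : antidiagonal s) (x : Z p.1.1 T) (y : Z p.1.2 c), ∃ w : Z s (T + c),
        w.1 = x.1 * shift p.1.1 y.1 ∧ κ (tens p x y) = cl w := by
  have hb : Function.Bijective (kap s T c) := by
    rcases lt_or_ge c 0 with h | h
    · exact kap_neg hT h hc
    · obtain ⟨k, rfl⟩ := hT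
      have h1 : (2 : ℤ) ^ (ρ + 2 * s + 1) * k = 2 ^ ρ * (2 ^ (2 * s + 1) * k) := by
        rw [show ρ + 2 * s + 1 = ρ + (2 * s + 1) by omega, pow_add]; ring
      rw [h1]
      exact ⟨kap_inj ρ _ c (Dvd.intro _ rfl) h hc2, kap_surj ρ _ c (Dvd.intro _ rfl) h hc2⟩
  refine ⟨LinearEquiv.ofBijective (kap s T c) hb, fun p x y =>
    ⟨cupZ (HasAntidiagonal.mem_antidiagonal.mp p.2) x y, rfl, ?_⟩⟩
  exact kap_single s T c p x y

end Pool.Agent.H749.GK.St
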