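import Pool.Graph.R_pool_sql_team_seeded_3997aac3.Q171.DG.Steps

/-!
# Explicit vanishing below multiples of a power of two

`QX p n 0 (T + w)` for `2 ^ r ∣ T`, `2 p + n + 1 ≤ r` and `-(2 ^ (r - 2 p) - 2 ^ (n + 1) + 2) < w < 2 n`,
`PX p n (T + w)` for `2 ^ r ∣ T`, `2 p + n ≤ r` and `-(2 ^ (r - 2 p) - 2 ^ n + 1) < w < n`.
-/

set_option autoImplicit false

namespace Pool.Agent.H749.GK

open Pool.Agent.W624.Stz Pool.Agent.Q171.DG

/-- the range for the twisted complexes -/
def WQ (p : ℕ) : Prop := ∀ (n r : ℕ) (T w : ℤ), (2 : ℤ) ^ r ∣ T → 2 * p + n + 1 ≤ r →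
  w < 2 * n → 2 ^ (n + 1) - 2 < w + 2 ^ (r - 2 * p) → QX p n 0 (T + w)

/-- the range for the untwisted complexes -/
def WP (p : ℕ) : Prop := ∀ (n r : ℕ) (T w : ℤ), (2 : ℤ) ^ r ∣ T → 2 * p + n ≤ r →
  w < n → 2 ^ n - 1 < w + 2 ^ (r - 2 * p) → PX p n (T + w)

theorem lt_two_pow_int (j : ℕ) : (j : ℤ) + 1 ≤ 2 ^ j := by
  have := Nat.lt_two_pow_self (n := j)
  exact_mod_cast this

/-- the terms with a Koszul degree -/
theorem kos {p : ℕ} (ih : ∀ p' < p, WQ p') {n r : ℕ} {T w : ℤ} (hT : (2 : ℤ) ^ r ∣ T)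
    (hr : 2 * p + n ≤ r) (hw : w < 2 * n)
    (hw2 : ∀ j : ℕ, 1 ≤ j → 2 ^ (n + j + 1) ≤ w + j + 1 + 4 ^ j * 2 ^ (r - 2 * p))
    (k : ℕ) (hk : k ≤ p) : QX (p - k) n (1 + k) (T + w + 1 + k) := by
  refine xQ _ _ _ _ (by omega) fun q hq1 hq2 hq3 => ?_
  have h1 := ih (p - k - q) (by omega) (n + (1 + k)) r T (w + (1 + k)) hT (by omega)
    (by push_cast; linarith) ?_
  · rwa [show T + (w + (1 + (k : ℤ))) = T + w + 1 + k by ring] at h1
  · have h2 := hw2 (1 + k) (by omega)
    have h3 : (4 : ℤ) ^ (1 + k) * 2 ^ (r - 2 * p) ≤ 2 ^ (r - 2 * (p - k - q)) := by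
      rw [show (4 : ℤ) = 2 ^ 2 by norm_num, ← pow_mul, ← pow_add]
      exact pow_le_pow_right₀ (by norm_num) (by omega)
    push_cast at h2 ⊢
    rw [show n + (1 + k) + 1 = n + (1 + k) + 1 from rfl] at h2
    linarith

theorem WQ_of {p n r : ℕ} {T w : ℤ} (ih : ∀ p' < p, WQ p')
    (hP : ∀ (r' : ℕ) (T' w' : ℤ), (2 : ℤ) ^ r' ∣ T' → 2 * p + n ≤ r' →
      w' < n → 2 ^ n - 1 < w' + 2 ^ (r' - 2 * p) → PX p n (T' + w'))
    (hT : (2 : ℤ) ^ r ∣ T) (hr : 2 * p + n + 1 ≤ r) (hw : w < 2 * n)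
    (hw2 : 2 ^ (n + 1) - 2 < w + 2 ^ (r - 2 * p)) : QX p n 0 (T + w) := by
  refine xB (fun k hk => kos ih hT (by omega) hw ?_ k hk) ?_
  · intro j hj
    have h1 : (2 : ℤ) ^ (n + 1) ≤ 2 ^ (r - 2 * p) := pow_le_pow_right₀ (by norm_num) (by omega)
    have h2 : (2 : ℤ) ^ (n + j + 1) = 2 ^ (n + 1) * 2 ^ j := by rw [← pow_add]; congr 1; omega
    have h3 : (4 : ℤ) ^ j = 2 ^ j * 2 ^ j := by rw [← mul_pow]; norm_num
    have h4 := lt_two_pow_int j
    have h5 : (1 : ℤ) ≤ j := by exact_mod_cast hj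
    have h6 : (0 : ℤ) < 2 ^ (n + 1) := by positivity
    rw [h2, h3]
    have h7 : (0 : ℤ) ≤ (2 ^ j * 2 ^ j - 1) * (2 ^ (r - 2 * p) - 2 ^ (n + 1)) :=
      mul_nonneg (by nlinarith) (by linarith)
    have h8 : (0 : ℤ) ≤ 2 ^ (n + 1) * (2 ^ j * (2 ^ j - 1)) :=
      mul_nonneg h6.le (mul_nonneg (by positivity) (by linarith))
    linarith
  · intro t' ht'
    obtain ⟨r', rfl⟩ : ∃ r', r = r' + 1 := ⟨r - 1, by omega⟩
    obtain ⟨c, hc⟩ := hT
    have h1 : T = 2 * (2 ^ r' * c) := by rw [hc, pow_succ]; ring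
    have h2 : w = 2 * (t' - 2 ^ r' * c) := by linarith
    have h3 := hP r' (2 ^ r' * c) (t' - 2 ^ r' * c) (Dvd.intro _ rfl) (by omega) (by linarith) (by
      rw [show r' + 1 - 2 * p = (r' - 2 * p) + 1 by omega, pow_succ, pow_succ] at hw2
      linarith)
    rwa [show 2 ^ r' * c + (t' - 2 ^ r' * c) = t' by ring] at h3

theorem WP_of {p : ℕ} (ih : ∀ p' < p, WQ p' ∧ WP p') : ∀ n : ℕ,
    (∀ (r : ℕ) (T w : ℤ), (2 : ℤ) ^ r ∣ T → 2 * p + n ≤ r → w < n →
      2 ^ n - 1 < w + 2 ^ (r - 2 * p) → PX p n (T + w)) := by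
  intro n
  induction n using Nat.strong_induction_on with
  | _ n ihn =>
    intro r T w hT hr hw hw2
    have hQ : ∀ n' < n, ∀ (r : ℕ) (T w : ℤ), (2 : ℤ) ^ r ∣ T → 2 * p + n' + 1 ≤ r →
        w < 2 * n' → 2 ^ (n' + 1) - 2 < w + 2 ^ (r - 2 * p) → QX p n' 0 (T + w) :=
      fun n' hn' r T w hT hr hw hw2 =>
        WQ_of (fun p' hp' => (ih p' hp').1) (ihn n' hn') hT hr hw hw2
    rcases Nat.eq_zero_or_pos n with rfl | hn
    · -- n = 0: by induction on r
      have key : ∀ (r : ℕ) (T w : ℤ), (2 : ℤ) ^ r ∣ T → 2 * p ≤ r → w < 0 →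
          0 < w + 2 ^ (r - 2 * p) → PX p 0 (T + w) := by
        intro r
        induction r with
        | zero =>
          intro T w hT hr hw hw2
          exfalso
          have : 2 ^ (0 - 2 * p) = (1 : ℤ) := by simp
          rw [this] at hw2
          omega
        | succ r ihr =>
          intro T w hT hr hw hw2
          have hr2 : 2 * p ≤ r := by
            by_contra h
            have h1 : r + 1 - 2 * p = 0 := by omega
            rw [h1, pow_zero] at hw2
            omega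
          apply xA
          intro d hd
          have hd0 : d = 0 := by omega
          subst hd0
          rw [Nat.cast_zero, sub_zero]
          refine xB (fun k hk => kos (fun p' hp' => (ih p' hp').1) hT (by omega)
            (by simpa using hw) ?_ k hk) ?_
          · intro j hj
            have h1 : (2 : ℤ) ≤ 2 ^ (r + 1 - 2 * p) := by
              calc (2 : ℤ) = 2 ^ 1 := by norm_num
                _ ≤ _ := pow_le_pow_right₀ (by norm_num) (by omega)
            have h2 : (2 : ℤ) ^ (0 + j + 1) = 2 * 2 ^ j := by rw [pow_succ, zero_add]; ring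
            have h3 : (4 : ℤ) ^ j = 2 ^ j * 2 ^ j := by rw [← mul_pow]; norm_num
            have h4 := lt_two_pow_int j
            have h5 : (1 : ℤ) ≤ j := by exact_mod_cast hj
            rw [h2, h3]
            nlinarith [mul_le_mul_of_nonneg_right h1 (show (0:ℤ) ≤ 2 ^ j * 2 ^ j - 1 by nlinarith)]
          · intro t' ht'
            obtain ⟨c, hc⟩ := hT
            have h1 : T = 2 * (2 ^ r * c) := by rw [hc, pow_succ]; ring
            have h3 := ihr (2 ^ r * c) (t' - 2 ^ r * c) (Dvd.intro _ rfl) hr2 (by linarith) (by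
              rw [show r + 1 - 2 * p = (r - 2 * p) + 1 by omega, pow_succ] at hw2
              linarith)
            rwa [show 2 ^ r * c + (t' - 2 ^ r * c) = t' by ring] at h3
      exact key r T w hT (by omega) (by simpa using hw) (by simpa using hw2)
    · have hn1 : (1 : ℤ) ≤ n := by exact_mod_cast hn
      apply xA0
      · intro k hk
        refine kos (fun p' hp' => (ih p' hp').1) hT hr (by linarith) ?_ k hk
        intro j hj
        have h1 : (2 : ℤ) ^ n ≤ 2 ^ (r - 2 * p) := pow_le_pow_right₀ (by norm_num) (by omega)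
        have h2 : (2 : ℤ) ^ (n + j + 1) = 2 ^ n * (2 * 2 ^ j) := by
          rw [pow_succ, pow_add]; ring
        have h3 : (4 : ℤ) ^ j = 2 ^ j * 2 ^ j := by rw [← mul_pow]; norm_num
        have h4 : (2 : ℤ) ≤ 2 ^ j := by
          calc (2 : ℤ) = 2 ^ 1 := by norm_num
            _ ≤ _ := pow_le_pow_right₀ (by norm_num) hj
        have h5 : (1 : ℤ) ≤ j := by exact_mod_cast hj
        have h6 : (0 : ℤ) < 2 ^ n := by positivity
        rw [h2, h3]
        nlinarith [mul_le_mul_of_nonneg_right h1 (show (0:ℤ) ≤ 2 ^ j * 2 ^ j - 1 by nlinarith),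
          mul_nonneg h6.le (show (0:ℤ) ≤ 2 ^ j * (2 ^ j - 2) by nlinarith)]
      · intro d hd1 hd2
        have h0 := hQ (n - d) (by omega) r T (w - d) hT (by omega) (by
          push_cast [Nat.cast_sub hd2]; linarith) ?_
        · rwa [show T + (w - (d : ℤ)) = T + w - d by ring] at h0
        · have h1 : (2 : ℤ) ^ n = 2 ^ (n - d + 1) * 2 ^ (d - 1) := by
            rw [← pow_add]; congr 1; omega
          have h2 := lt_two_pow_int (d - 1)
          have h3 : (((d - 1 : ℕ)) : ℤ) = d - 1 := by push_cast [Nat.cast_sub hd1]; ring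
          rw [h3] at h2
          have h4 : (2 : ℤ) ≤ 2 ^ (n - d + 1) := by
            calc (2 : ℤ) = 2 ^ 1 := by norm_num
              _ ≤ _ := pow_le_pow_right₀ (by norm_num) (by omega)
          have h5 : (1 : ℤ) ≤ d := by exact_mod_cast hd1
          nlinarith [mul_le_mul_of_nonneg_right h4 (show (0:ℤ) ≤ 2 ^ (d - 1) - 1 by linarith)]
      · intro k hk1 hk2
        refine (ih (p - k) (by omega)).2 n r T w hT (by omega) hw ?_
        have h1 : (2 : ℤ) ^ (r - 2 * p) ≤ 2 ^ (r - 2 * (p - k)) :=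
          pow_le_pow_right₀ (by norm_num) (by omega)
        linarith
      · intro n' hn'
        refine hQ n' (by omega) r T w hT (by omega) (by
          have : (2 : ℤ) * n' = n := by exact_mod_cast hn'
          linarith) ?_
        have h1 : (2 : ℤ) ^ (n' + 1) ≤ 2 ^ n := pow_le_pow_right₀ (by norm_num) (by omega)
        linarith

/-- **Explicit vanishing.** -/
theorem explicit (p : ℕ) : WQ p ∧ WP p := by
  induction p using Nat.strong_induction_on with
  | _ p ih =>
    have h1 : WP p := fun n r T w hT hr hw hw2 => WP_of ih n r T w hT hr hw hw2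
    exact ⟨fun n r T w hT hr hw hw2 =>
      WQ_of (fun p' hp' => (ih p' hp').1) (fun r' T' w' => h1 n r' T' w') hT hr hw hw2, h1⟩

end Pool.Agent.H749.GK
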