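import Pool.Agent.H749.GK.ST
import Pool.Agent.H749.GK.Van

/-!
# Acyclicity of the cobar complexes modulo split cochains near multiples of `2 ^ r`
-/

set_option autoImplicit false
set_option linter.unusedSectionVars false

namespace Pool.Agent.H749.GK

open Finset MvPolynomial Pool.Agent.W624.Stz Pool.Agent.Q171.DG

/-- acyclicity for the untwisted complexes -/
def KU (p n ρ : ℕ) (T c : ℤ) : Prop := ∀ (K : Type) [Fintype K] (ν : K → ℕ), ∑ x, ν x = n →
  ExP (kun : K → Kd) ρ T p c ν 0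

/-- acyclicity for the twisted complexes -/
def KW (p n j ρ : ℕ) (T c : ℤ) : Prop := ∀ (K : Type) [Fintype K] (ν : K → ℕ), ∑ x, ν x = n →
  ExP (ktw : K → Kd) ρ T p c ν j

theorem nonneg_weight {K : Type} {κ : K → Kd} (pr : ℤ × ((K → ℕ) × ℕ) →+ ℤ)
    (h : ∀ v, 0 ≤ pr (wF κ v)) (e : Vr K →₀ ℕ) : 0 ≤ pr (Finsupp.weight (wF κ) e) := by
  rw [← wmap, Finsupp.weight_apply, Finsupp.sum]
  refine sum_nonneg fun v _ => ?_
  rw [nsmul_eq_mul]
  exact mul_nonneg (by positivity) (h v)

/-- the excess of the degree -/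
def prU (K : Type) [Fintype K] (m : ℤ) : ℤ × ((K → ℕ) × ℕ) →+ ℤ where
  toFun x := x.1 - m * ∑ c, (x.2.1 c : ℤ)
  map_zero' := by simp
  map_add' a b := by
    simp only [Prod.fst_add, Prod.snd_add, Pi.add_apply, Nat.cast_add, sum_add_distrib]
    ring

theorem sum_ee' {K : Type} [Fintype K] (c : K) : ∑ c', ((ee c c' : ℕ) : ℤ) = 1 := by
  rw [← Nat.cast_sum, sum_ee]; rfl

theorem no_tw {K : Type} [Fintype K] {c : ℤ} {ν : K → ℕ} {n : ℕ} (hν : ∑ x, ν x = n)
    (hc : c < 2 * n) (z : RR K) (hz : IW (wF (ktw : K → Kd)) z (c, (ν, 0))) : z = 0 := by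
  by_contra hne
  obtain ⟨e, he⟩ := ne_zero_iff.mp hne
  have h1 := nonneg_weight (κ := (ktw : K → Kd)) (prU K 2) (by
    intro v
    cases v with
    | x a n =>
      simp only [prU, wF, wG, AddMonoidHom.coe_mk, ZeroHom.coe_mk]
      have : (1 : ℤ) ≤ 2 ^ (n + 1) := one_le_pow₀ (by norm_num)
      simp
      linarith
    | s a n =>
      simp only [prU, wF, wG, AddMonoidHom.coe_mk, ZeroHom.coe_mk]
      simp
    | y d n =>
      simp only [prU, wF, wG, AddMonoidHom.coe_mk, ZeroHom.coe_mk, sum_ee', tk, ktw]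
      have : (1 : ℤ) ≤ 2 ^ n := one_le_pow₀ (by norm_num)
      rw [pow_succ]
      linarith) e
  rw [hz he] at h1
  simp only [prU, AddMonoidHom.coe_mk, ZeroHom.coe_mk] at h1
  rw [← Nat.cast_sum, hν] at h1
  linarith

theorem no_un {K : Type} [Fintype K] {c : ℤ} {ν : K → ℕ} {n : ℕ} (hν : ∑ x, ν x = n)
    (hc : c < n) (z : RR K) (hz : IW (wF (kun : K → Kd)) z (c, (ν, 0))) : z = 0 := by
  by_contra hne
  obtain ⟨e, he⟩ := ne_zero_iff.mp hne
  have h1 := nonneg_weight (κ := (kun : K → Kd)) (prU K 1) (by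
    intro v
    cases v with
    | x a n =>
      simp only [prU, wF, wG, AddMonoidHom.coe_mk, ZeroHom.coe_mk]
      have : (1 : ℤ) ≤ 2 ^ (n + 1) := one_le_pow₀ (by norm_num)
      simp
      linarith
    | s a n =>
      simp only [prU, wF, wG, AddMonoidHom.coe_mk, ZeroHom.coe_mk]
      simp
    | y d n =>
      simp only [prU, wF, wG, AddMonoidHom.coe_mk, ZeroHom.coe_mk, sum_ee', tk, kun]
      have : (1 : ℤ) ≤ 2 ^ n := one_le_pow₀ (by norm_num)
      linarith) e
  rw [hz he] at h1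
  simp only [prU, AddMonoidHom.coe_mk, ZeroHom.coe_mk] at h1
  rw [← Nat.cast_sum, hν] at h1
  linarith

/-- removal of the coefficients -/
noncomputable def KL (K : Type) : RR K →ₐ[ZMod 2] RR Empty :=
  aeval (fun v => match v with
    | .x a n => X (.x a n)
    | .s a n => X (.s a n)
    | .y _ _ => 0)

theorem KL_x {K : Type} (a n : ℕ) : KL K (X (.x a n)) = X (.x a n) := aeval_X _ _
theorem KL_s {K : Type} (a n : ℕ) : KL K (X (.s a n)) = X (.s a n) := aeval_X _ _
theorem KL_y {K : Type} (c : K) (n : ℕ) : KL K (X (.y c n)) = 0 := aeval_X _ _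

/-- weights -/
def pKL (K : Type) : ℤ × ((K → ℕ) × ℕ) →+ ℤ × ((Empty → ℕ) × ℕ) where
  toFun m := (m.1, (0, m.2.2))
  map_zero' := rfl
  map_add' _ _ := by
    refine Prod.ext rfl (Prod.ext ?_ rfl)
    simp

/-- with no coefficients every cochain is split, for `ρ = 0` -/
theorem triv {K : Type} [Fintype K] {κ : K → Kd} {T : ℤ} {p : ℕ} {ν : K → ℕ}
    (hν : ∑ x, ν x = 0) : ExP κ 0 T p 0 ν 0 := by
  intro f hf _
  refine ⟨0, TT.zero, ?_⟩
  rw [map_zero, add_zero]
  have hν0 : ν = 0 := by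
    funext x
    have := (sum_eq_zero_iff.mp hν) x (mem_univ x)
    exact this
  subst hν0
  have hx : TT kun p T 0 0 (KL K f) := by
    refine ⟨?_, ?_⟩
    · rw [cut_iff]
      refine IW.aeval' (AddMonoidHom.id ℕ) (KL K) (w := hiw K p) ?_ (cut_iff.mp hf.cu)
      intro v
      cases v with
      | x a n => rw [KL_x]; exact isWeightedHomogeneous_X _ (hiw Empty p) (Vr.x a n)
      | s a n => rw [KL_s]; exact isWeightedHomogeneous_X _ (hiw Empty p) (Vr.s a n)
      | y c n => rw [KL_y]; exact IW.zero' _ _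
    · have h1 : IW (wF (kun : Empty → Kd)) (KL K f) (pKL K (2 ^ 0 * T + 0, (0, 0))) := by
        refine IW.aeval' (pKL K) (KL K) (w := wF κ) ?_ hf.iw
        intro v
        cases v with
        | x a n => rw [KL_x]; exact isWeightedHomogeneous_X _ _ _
        | s a n => rw [KL_s]; exact isWeightedHomogeneous_X _ _ _
        | y c n => rw [KL_y]; exact IW.zero' _ _
      have h2 : pKL K (2 ^ 0 * T + 0, (0, 0)) = (T, (0, 0)) := by
        refine Prod.ext ?_ rfl
        simp [pKL]
      rwa [h2] at h1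
  have hfx : ix K (KL K f) = f := by
    let yw : Vr K → ℕ := fun v => match v with
      | .x _ _ => 0
      | .s _ _ => 0
      | .y _ _ => 1
    let prs : ℤ × ((K → ℕ) × ℕ) →+ ℕ :=
      { toFun := fun m => ∑ c, m.2.1 c
        map_zero' := by simp
        map_add' := fun a b => by simp [sum_add_distrib] }
    have h1 : IW yw f 0 := by
      have h2 := hf.iw.coarse prs
      have h3 : (fun v => prs (wF κ v)) = yw := by
        funext v
        cases v with
        | x a n => simp [prs, wF, wG, yw]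
        | s a n => simp [prs, wF, wG, yw]
        | y c n =>
          simp only [prs, wF, wG, yw, AddMonoidHom.coe_mk, ZeroHom.coe_mk]
          exact sum_ee c
      rw [h3] at h2
      have h4 : prs (2 ^ 0 * T + 0, ((0 : K → ℕ), 0)) = 0 := by simp [prs]
      rwa [h4] at h2
    have h5 := hom_eq_of_IW ((ix K).comp (KL K)) (AlgHom.id _ _) yw h1 (by
      intro v hv
      rw [AlgHom.comp_apply, AlgHom.id_apply]
      cases v with
      | x a n => rw [KL_x, ix_x]
      | s a n => rw [KL_s, ix_s]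
      | y c n => exact absurd hv one_ne_zero)
    exact h5
  have h6 := PP_gen (K := K) (ρ := 0) (q := p) le_rfl hx (z := 1) (map_one _)
  rwa [map_one, mul_one, pow_zero, pow_one, hfx] at h6

/-- elimination of the Koszul degree -/
theorem xQP {ρ : ℕ} {T : ℤ} : ∀ (p n j : ℕ) (c : ℤ), 1 ≤ j →
    (∀ q, 1 ≤ q → q ≤ j → q ≤ p → KW (p - q) (n + j) 0 ρ T c) → KW p n j ρ T c := by
  intro p
  induction p with
  | zero =>
    intro n j c hj _ K _ ν _
    exact ExP_zero hj
  | succ p ih =>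
    intro n j c hj H K _ ν hν
    refine LemTP p c ν j hj fun i hi1 hi2 => ?_
    have key : KW p (n + i) (j - i) ρ T c := by
      rcases Nat.lt_or_ge i j with hlt | hge
      · refine ih (n + i) (j - i) c (by omega) fun q hq1 hq2 hq3 => ?_
        have := H (q + 1) (by omega) (by omega) (by omega)
        rw [show n + i + (j - i) = n + j by omega]
        rwa [show p + 1 - (q + 1) = p - q by omega] at this
      · have hij : i = j := by omega
        subst hij
        rw [Nat.sub_self]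
        simpa using H 1 le_rfl hi1 (by omega)
    exact key (Option K) (nx ν i) (by rw [sum_nx, hν])

/-- the claim for the twisted complexes -/
def CW (p ρ : ℕ) : Prop := ∀ (n : ℕ) (T c : ℤ), (2 : ℤ) ^ (2 * p + n + 1) ∣ T → 0 ≤ c →
  c < 2 * n + 2 ^ ρ → KW p n 0 ρ T c

/-- the claim for the untwisted complexes -/
def CU (p ρ : ℕ) : Prop := ∀ (n : ℕ) (T c : ℤ), (2 : ℤ) ^ (2 * p + n + 1) ∣ T → 0 ≤ c →
  c < n + 2 ^ ρ → KU p n ρ T c

theorem KW_low {p n ρ : ℕ} {T c : ℤ} (hT : (2 : ℤ) ^ (2 * p + n + 1) ∣ T) (hc : 0 ≤ c)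
    (hc2 : c < 2 * n) : KW p n 0 ρ T c := by
  intro K _ ν hν
  refine ExP_of_Ex naf_tw (no_tw hν hc2) ?_
  refine (explicit p).1 n (ρ + (2 * p + n + 1)) (2 ^ ρ * T) c ?_ (by omega) hc2 ?_ K ν hν
  · rw [pow_add]; exact mul_dvd_mul_left _ hT
  · have h1 : (2 : ℤ) ^ (n + 1) ≤ 2 ^ (ρ + (2 * p + n + 1) - 2 * p) :=
      pow_le_pow_right₀ (by norm_num) (by omega)
    linarith

theorem KU_low {p n ρ : ℕ} {T c : ℤ} (hT : (2 : ℤ) ^ (2 * p + n + 1) ∣ T) (hc : 0 ≤ c)
    (hc2 : c < n) : KU p n ρ T c := by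
  intro K _ ν hν
  refine ExP_of_Ex naf_un (no_un hν hc2) ?_
  refine (explicit p).2 n (ρ + (2 * p + n + 1)) (2 ^ ρ * T) c ?_ (by omega) hc2 ?_ K ν hν
  · rw [pow_add]; exact mul_dvd_mul_left _ hT
  · have h1 : (2 : ℤ) ^ n ≤ 2 ^ (ρ + (2 * p + n + 1) - 2 * p) :=
      pow_le_pow_right₀ (by norm_num) (by omega)
    linarith

theorem CU_of {p ρ : ℕ} (h : 1 ≤ ρ → CW p ρ) : CU p ρ := by
  intro n T c hT hc hc2
  rcases lt_or_ge c n with hlt | hge
  · exact KU_low hT hc hlt
  · intro K _ ν hν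
    apply stepAP
    intro d hd ν' hν'
    have hn' : ∑ x, ν' x = n - d := by omega
    have hT' : (2 : ℤ) ^ (2 * p + (n - d) + 1) ∣ T :=
      dvd_trans (pow_dvd_pow 2 (by omega)) hT
    have hcd : ((n - d : ℕ) : ℤ) = n - d := by
      rw [Nat.cast_sub (by omega)]
    have hdn : (d : ℤ) ≤ n := by exact_mod_cast (by omega : d ≤ n)
    rcases lt_or_ge (c - d) (2 * ((n - d : ℕ) : ℤ)) with hl2 | hg2
    · exact KW_low hT' (by linarith) hl2 K ν' hn'
    · rcases Nat.eq_zero_or_pos ρ with hρ | hρ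
      · subst hρ
        rw [pow_zero] at hc2
        rw [hcd] at hg2
        have h1 : (n : ℤ) = d := by linarith
        have h2 : n = d := by exact_mod_cast h1
        have h3 : c - d = 0 := by linarith
        rw [h3]
        apply triv
        omega
      · refine h hρ (n - d) T (c - d) hT' (by linarith) ?_ K ν' hn'
        rw [hcd]
        linarith

theorem CW_of {p ρ : ℕ} (ih : ∀ p' < p, CW p' (ρ + 1)) (h : CU p ρ) : CW p (ρ + 1) := by
  intro n T c hT hc hc2
  rcases lt_or_ge c (2 * n) with hlt | hge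
  · exact KW_low hT hc hlt
  · intro K _ ν hν
    apply stepBP
    · intro k hk
      have key : KW (p - k) n (1 + k) (ρ + 1) T (c + 1 + k) := by
        refine xQP _ _ _ _ (by omega) fun q hq1 hq2 hq3 => ?_
        refine ih (p - k - q) (by omega) (n + (1 + k)) T (c + 1 + k) ?_ (by positivity) ?_
        · exact dvd_trans (pow_dvd_pow 2 (by omega)) hT
        · push_cast
          linarith
      exact key K ν hν
    · intro c' hc'
      refine h n T c' hT (by linarith) ?_ K ν hν
      rw [pow_succ] at hc2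
      linarith

/-- **Acyclicity modulo split cochains.** -/
theorem acyclic (p : ℕ) : ∀ ρ : ℕ, CU p ρ ∧ CW p (ρ + 1) := by
  induction p using Nat.strong_induction_on with
  | _ p ih =>
    intro ρ
    induction ρ with
    | zero =>
      have h1 : CU p 0 := CU_of (fun h => absurd h (by omega))
      exact ⟨h1, CW_of (fun p' hp' => (ih p' hp' 0).2) h1⟩
    | succ ρ ihρ =>
      have h1 : CU p (ρ + 1) := CU_of (fun _ => ihρ.2)
      exact ⟨h1, CW_of (fun p' hp' => (ih p' hp' (ρ + 1)).2) h1⟩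

end Pool.Agent.H749.GK
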