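import Pool.Agent.H749.GK.PH

/-!
# Linear operators given on monomials
-/

set_option autoImplicit false
set_option linter.unusedSectionVars false

namespace Pool.Agent.H749.GK

open Finset MvPolynomial Pool.Agent.W624.Stz

section ml

variable {σ τ : Type*}

/-- the linear map which takes the monomial `e` to `φ e` -/
noncomputable def ml (φ : (σ →₀ ℕ) → Option (σ →₀ ℕ)) : P2 σ →ₗ[ZMod 2] P2 σ :=
  (basisMonomials σ (ZMod 2)).constr (ZMod 2)
    (fun e => (φ e).elim (0 : P2 σ) (fun e' => monomial e' (1 : ZMod 2)))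

theorem ml_mono (φ : (σ →₀ ℕ) → Option (σ →₀ ℕ)) (e : σ →₀ ℕ) :
    ml φ (monomial e 1) = (φ e).elim (0 : P2 σ) (fun e' => monomial e' (1 : ZMod 2)) := by
  have h := (basisMonomials σ (ZMod 2)).constr_basis (ZMod 2)
    (fun e => (φ e).elim (0 : P2 σ) (fun e' => monomial e' (1 : ZMod 2))) e
  rw [coe_basisMonomials] at h
  exact h

theorem lin_ext {L1 L2 : P2 σ →ₗ[ZMod 2] P2 τ}
    (h : ∀ e, L1 (monomial e 1) = L2 (monomial e 1)) (f : P2 σ) : L1 f = L2 f := by
  have : L1 = L2 := by
    apply (basisMonomials σ (ZMod 2)).ext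
    intro e
    rw [coe_basisMonomials]
    exact h e
  rw [this]

theorem ml_left {φ : (σ →₀ ℕ) → Option (σ →₀ ℕ)} {u u' : σ →₀ ℕ}
    (h : ∀ e, φ (u + e) = (φ e).map (fun e' => u' + e')) (f : P2 σ) :
    ml φ (monomial u 1 * f) = monomial u' 1 * ml φ f := by
  have := lin_ext (L1 := (ml φ).comp (LinearMap.mulLeft (ZMod 2) (monomial u (1 : ZMod 2))))
    (L2 := (LinearMap.mulLeft (ZMod 2) (monomial u' (1 : ZMod 2))).comp (ml φ)) (by
    intro e
    rw [LinearMap.comp_apply, LinearMap.comp_apply, LinearMap.mulLeft_apply,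
      LinearMap.mulLeft_apply, monomial_mul, one_mul, ml_mono, ml_mono, h]
    cases φ e with
    | none => simp
    | some e' => simp [monomial_mul]) f
  exact this

theorem ml_left' {φ : (σ →₀ ℕ) → Option (σ →₀ ℕ)} {w : P2 σ}
    (h : ∀ u, coeff u w ≠ 0 → ∀ e, φ (u + e) = (φ e).map (fun e' => u + e')) (f : P2 σ) :
    ml φ (w * f) = w * ml φ f := by
  have h0 : w = ∑ u ∈ w.support, monomial u 1 := by
    conv_lhs => rw [w.as_sum]
    refine sum_congr rfl fun u hu => ?_
    rw [mem_support_iff] at hu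
    have : coeff u w = 1 := by
      revert hu; generalize coeff u w = c; revert c; decide
    rw [this]
  rw [h0, sum_mul, map_sum, sum_mul]
  refine sum_congr rfl fun u hu => ?_
  exact ml_left (h u (mem_support_iff.mp hu)) f

theorem ml_rename {ι : σ → τ} {φ : (σ →₀ ℕ) → Option (σ →₀ ℕ)}
    {φ' : (τ →₀ ℕ) → Option (τ →₀ ℕ)}
    (h : ∀ e, φ' (e.mapDomain ι) = (φ e).map (fun e' => e'.mapDomain ι)) (f : P2 σ) :
    ml φ' (rename ι f) = rename ι (ml φ f) := by
  have := lin_ext (L1 := (ml φ').comp (rename ι : P2 σ →ₐ[ZMod 2] P2 τ).toLinearMap)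
    (L2 := (rename ι : P2 σ →ₐ[ZMod 2] P2 τ).toLinearMap.comp (ml φ)) (by
    intro e
    rw [LinearMap.comp_apply, LinearMap.comp_apply, AlgHom.toLinearMap_apply,
      AlgHom.toLinearMap_apply, rename_monomial, ml_mono, ml_mono, h]
    cases φ e with
    | none => simp
    | some e' => simp [rename_monomial]) f
  exact this

theorem ml_supp {φ : (σ →₀ ℕ) → Option (σ →₀ ℕ)} {f : P2 σ} {e' : σ →₀ ℕ}
    (h : coeff e' (ml φ f) ≠ 0) : ∃ e, coeff e f ≠ 0 ∧ φ e = some e' := by
  classical
  rw [f.as_sum, map_sum, coeff_sum] at h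
  obtain ⟨e, he, h1⟩ := exists_ne_zero_of_sum_ne_zero h
  rw [mem_support_iff] at he
  refine ⟨e, he, ?_⟩
  have h2 : monomial e (coeff e f) = coeff e f • (monomial e 1 : P2 σ) := by
    rw [smul_monomial, smul_eq_mul, mul_one]
  rw [h2, map_smul, coeff_smul, ml_mono] at h1
  cases hφ : φ e with
  | none => rw [hφ] at h1; simp at h1
  | some e2 =>
    rw [hφ] at h1
    simp only [Option.elim_some, coeff_monomial] at h1
    by_cases h3 : e2 = e'
    · rw [h3]
    · rw [if_neg h3] at h1; simp at h1

/-- homogeneity -/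
theorem ml_IW {M N : Type*} [AddCommMonoid M] [AddCommMonoid N] {w : σ → M} {w' : σ → N}
    {φ : (σ →₀ ℕ) → Option (σ →₀ ℕ)} {f : P2 σ} {m : M} {n : N} (hf : IW w f m)
    (h : ∀ e e', Finsupp.weight w e = m → φ e = some e' → Finsupp.weight w' e' = n) :
    IW w' (ml φ f) n := by
  intro e' he'
  obtain ⟨e, he, h1⟩ := ml_supp he'
  exact h e e' (hf he) h1

end ml

section cutw

variable {K : Type}

/-- the number of variables in the slots from `q` on -/
def hiw (K : Type) (q : ℕ) : Vr K → ℕ
  | .x a _ => if a < q then 0 else 1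
  | .s a _ => if a < q then 0 else 1
  | .y _ _ => 0

theorem cut_X0 {q : ℕ} {v : Vr K} (h : hiw K q v = 0) : cut K q (X v) = X v := by
  rw [cut, ev_X]
  cases v with
  | x a n =>
    have ha : a < q := by
      by_contra hc
      simp [hiw, hc] at h
    simp only [co, cpt, if_pos ha]
    rfl
  | s a n =>
    have ha : a < q := by
      by_contra hc
      simp [hiw, hc] at h
    simp only [co, cpt, if_pos ha]
    rfl
  | y c n => rfl

theorem cut_X1 {q : ℕ} {v : Vr K} (h : hiw K q v ≠ 0) : cut K q (X v) = 0 := by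
  rw [cut, ev_X]
  cases v with
  | x a n =>
    have ha : ¬ a < q := by
      intro hc
      simp [hiw, hc] at h
    simp only [co, cpt, if_neg ha, one_g, e1]
    rw [if_neg (by omega)]
  | s a n =>
    have ha : ¬ a < q := by
      intro hc
      simp [hiw, hc] at h
    simp only [co, cpt, if_neg ha, one_s]
    rfl
  | y c n => exact absurd rfl h

theorem cut_iff {q : ℕ} {f : RR K} : cut K q f = f ↔ IW (hiw K q) f 0 := by
  constructor
  · intro h
    have h0 : IW (fun _ : Vr K => (0 : ℕ)) f 0 := by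
      intro e _
      rw [Finsupp.weight_apply]
      simp [Finsupp.sum]
    have h1 : IW (hiw K q) (cut K q f) 0 := by
      refine IW.aeval' (AddMonoidHom.id ℕ) (cut K q) (w := fun _ => (0 : ℕ)) ?_ h0
      intro v
      rw [AddMonoidHom.id_apply]
      by_cases hv : hiw K q v = 0
      · rw [cut_X0 hv]
        have := isWeightedHomogeneous_X (ZMod 2) (hiw K q) v
        rwa [hv] at this
      · rw [cut_X1 hv]
        exact IW.zero' _ _
    rwa [h] at h1
  · intro h
    have := hom_eq_of_IW (cut K q) (AlgHom.id _ _) (hiw K q) h (by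
      intro v hv
      rw [cut_X0 hv, AlgHom.id_apply])
    exact this

end cutw

section shift

variable {K : Type}

/-- shift of the slots on variables -/
def shv (a : ℕ) : Vr K → Vr K
  | .x i n => .x (a + i) n
  | .s i n => .s (a + i) n
  | .y c n => .y c n

theorem shv_inj (a : ℕ) : Function.Injective (shv a : Vr K → Vr K) := by
  intro v w h
  cases v <;> cases w <;> simp only [shv, Vr.x.injEq, Vr.s.injEq, Vr.y.injEq, reduceCtorEq] at h ⊢
  · exact ⟨by omega, h.2⟩
  · exact ⟨by omega, h.2⟩
  · exact h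

theorem sf_rename (a : ℕ) (f : RR K) : sf K a f = rename (shv a) f := by
  have : sf K a = rename (shv a) := by
    apply algHom_ext
    intro v
    rw [rename_X]
    cases v with
    | x b n => rw [sf_x]; rfl
    | s b n => rw [sf_s]; rfl
    | y c n => rw [sf_y]; rfl
  rw [this]

theorem sf_inj (a : ℕ) : Function.Injective (sf K a) := by
  intro f g h
  rw [sf_rename, sf_rename] at h
  exact rename_injective _ (shv_inj a) h

end shift

end Pool.Agent.H749.GK
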