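import Pool.Agent.H749.GK.HT

/-!
# Further operators and split cochains: division, roots, components
-/

set_option autoImplicit false
set_option linter.unusedSectionVars false

namespace Pool.Agent.H749.GK

open Finset MvPolynomial Pool.Agent.W624.Stz

section div

variable {K : Type}

theorem ix_yfree {x : RR Empty} {u : Vr K →₀ ℕ} (hu : coeff u (ix K x) ≠ 0) (c : K) (n : ℕ) :
    u (.y c n) = 0 := by
  classical
  let yw : Vr K → ℕ := fun v => match v with
    | .x _ _ => 0
    | .s _ _ => 0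
    | .y _ _ => 1
  have h0 : IW (fun _ : Vr Empty => (0 : ℕ)) x 0 := by
    intro e _
    rw [Finsupp.weight_apply]
    simp [Finsupp.sum]
  have h1 : IW yw (ix K x) 0 := by
    refine IW.aeval' (AddMonoidHom.id ℕ) (ix K) (w := fun _ => (0 : ℕ)) ?_ h0
    intro v
    cases v with
    | x a n => rw [ix_x]; exact isWeightedHomogeneous_X _ yw (Vr.x a n)
    | s a n => rw [ix_s]; exact isWeightedHomogeneous_X _ yw (Vr.s a n)
    | y c n => exact c.elim
  have h2 := h1 hu
  rw [Finsupp.weight_apply, Finsupp.sum, sum_eq_zero_iff] at h2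
  by_contra h3
  have h4 := h2 (.y c n) (Finsupp.mem_support_iff.mpr h3)
  simp only [yw, smul_eq_mul, mul_one] at h4
  exact h3 h4

/-- division of exponents by a variable -/
noncomputable def phD (c : K) (e : Vr K →₀ ℕ) : Option (Vr K →₀ ℕ) :=
  if 1 ≤ e (.y c 0) then some (e - Finsupp.single (.y c 0) 1) else none

/-- division by a variable -/
noncomputable def DV (c : K) : RR K →ₗ[ZMod 2] RR K := ml (phD c)

theorem phD_some {c : K} {e e' : Vr K →₀ ℕ} (h : phD c e = some e') :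
    e = e' + Finsupp.single (.y c 0) 1 := by
  rw [phD] at h
  split_ifs at h with h1
  have h2 : e - Finsupp.single (.y c 0) 1 = e' := by simpa using h
  rw [← h2, tsub_add_cancel_of_le]
  rw [Finsupp.single_le_iff]
  exact h1

theorem DV_mul (c : K) (f : RR K) : DV c (X (.y c 0) * f) = f := by
  have := lin_ext (L1 := (DV c).comp (LinearMap.mulLeft (ZMod 2) (X (.y c 0) : RR K)))
    (L2 := LinearMap.id) (by
    intro e
    rw [LinearMap.comp_apply, LinearMap.mulLeft_apply, LinearMap.id_apply, X, monomial_mul,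
      one_mul, DV, ml_mono, phD, if_pos (by
        rw [Finsupp.add_apply, Finsupp.single_eq_same]; omega), add_tsub_cancel_left]
    rfl) f
  exact this

theorem DV_left {c : K} {w : RR K} (hw : ∀ u, coeff u w ≠ 0 → u (.y c 0) = 0) (f : RR K) :
    DV c (w * f) = w * DV c f := by
  refine ml_left' (fun u hu e => ?_) f
  have h := hw u hu
  rw [phD, phD, Finsupp.add_apply, h, zero_add]
  split_ifs with h1
  · rw [Option.map_some, add_tsub_assoc_of_le]
    rw [Finsupp.single_le_iff]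
    exact h1
  · rfl

theorem DV_sf (c : K) (a : ℕ) (f : RR K) : DV c (sf K a f) = sf K a (DV c f) := by
  rw [sf_rename, sf_rename]
  refine ml_rename (fun e => ?_) f
  have h1 : (e.mapDomain (shv a)) (.y c 0) = e (.y c 0) :=
    Finsupp.mapDomain_apply (shv_inj a) e (.y c 0)
  rw [phD, phD, h1]
  split_ifs with h
  · rw [Option.map_some]
    congr 1
    obtain ⟨e0, he0⟩ : ∃ e0, e = e0 + Finsupp.single (.y c 0) 1 :=
      ⟨e - Finsupp.single (.y c 0) 1, by
        rw [tsub_add_cancel_of_le]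
        rw [Finsupp.single_le_iff]
        exact h⟩
    rw [he0, add_tsub_cancel_right, Finsupp.mapDomain_add, Finsupp.mapDomain_single]
    change _ + Finsupp.single (Vr.y c 0) 1 - Finsupp.single (Vr.y c 0) 1 = _
    rw [add_tsub_cancel_right]
  · rfl

theorem DV_cut {c : K} {q : ℕ} {f : RR K} (hf : cut K q f = f) :
    cut K q (DV c f) = DV c f := by
  rw [cut_iff] at hf ⊢
  refine ml_IW hf ?_
  intro e e' he h
  rw [phD_some h, map_add] at he
  omega

theorem DV_PP (c : K) {ρ : ℕ} {T : ℤ} {q : ℕ} {f : RR K} (hf : f ∈ PP K ρ T q) :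
    DV c f ∈ PP K ρ T q := by
  refine PP_map (DV c) ?_ hf
  intro a ha x hx z hz
  rw [DV_left, DV_sf]
  · exact PP_gen ha hx (DV_cut hz)
  · intro u hu
    obtain ⟨u0, h1, rfl⟩ := pow_supp hu
    rw [Finsupp.smul_apply, ix_yfree h1, smul_zero]

theorem Y_PP {c : K} {ρ : ℕ} {T : ℤ} {q : ℕ} {f : RR K} (hf : X (.y c 0) * f ∈ PP K ρ T q) :
    f ∈ PP K ρ T q := by
  have := DV_PP c hf
  rwa [DV_mul] at this

theorem mulY_PP (c : K) {ρ : ℕ} {T : ℤ} {q : ℕ} {f : RR K} (hf : f ∈ PP K ρ T q) :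
    X (.y c 0) * f ∈ PP K ρ T q := by
  refine PP_map (LinearMap.mulLeft (ZMod 2) (X (.y c 0) : RR K)) ?_ hf
  intro a ha x hx z hz
  rw [LinearMap.mulLeft_apply, mul_left_comm]
  have h1 : (X (.y c 0) : RR K) * sf K a z = sf K a (X (.y c 0) * z) := by
    rw [map_mul, sf_y]
  rw [h1]
  refine PP_gen ha hx ?_
  rw [map_mul, hz]
  congr 1
  exact cut_X0 rfl

end div

section root

variable {σ : Type*}

/-- halving of exponents -/
noncomputable def phR (e : σ →₀ ℕ) : Option (σ →₀ ℕ) := by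
  classical exact if ∀ v, e v % 2 = 0 then some (e.mapRange (fun n => n / 2) rfl) else none

/-- the root operator -/
noncomputable def RT (σ : Type*) : P2 σ →ₗ[ZMod 2] P2 σ := ml phR

theorem phR_some {e e' : σ →₀ ℕ} (h : phR e = some e') : e = 2 • e' := by
  rw [phR] at h
  split_ifs at h with h1
  have h2 : e.mapRange (fun n => n / 2) rfl = e' := by simpa using h
  rw [← h2]
  ext v
  rw [Finsupp.smul_apply, Finsupp.mapRange_apply, smul_eq_mul]
  have := h1 v
  omega

theorem phR_add (u e : σ →₀ ℕ) : phR (2 • u + e) = (phR e).map (fun e' => u + e') := by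
  have h0 : (∀ v, (2 • u + e) v % 2 = 0) ↔ ∀ v, e v % 2 = 0 := by
    refine forall_congr' fun v => ?_
    rw [Finsupp.add_apply, Finsupp.smul_apply, smul_eq_mul]
    omega
  by_cases h : ∀ v, e v % 2 = 0
  · rw [phR, phR, if_pos h, if_pos (h0.mpr h), Option.map_some]
    congr 1
    ext v
    rw [Finsupp.mapRange_apply, Finsupp.add_apply, Finsupp.add_apply, Finsupp.smul_apply,
      Finsupp.mapRange_apply, smul_eq_mul]
    have := h v
    omega
  · rw [phR, phR, if_neg h, if_neg (fun h2 => h (h0.mp h2))]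
    rfl

theorem RT_left (w f : P2 σ) : RT σ (w ^ 2 * f) = w * RT σ f := by
  have h0 : w = ∑ u ∈ w.support, monomial u 1 := by
    conv_lhs => rw [w.as_sum]
    refine sum_congr rfl fun u hu => ?_
    rw [mem_support_iff] at hu
    have : coeff u w = 1 := by
      revert hu; generalize coeff u w = c; revert c; decide
    rw [this]
  have h1 : w ^ 2 = ∑ u ∈ w.support, monomial (2 • u) 1 := by
    conv_lhs => rw [h0, sum_sq0]
    refine sum_congr rfl fun u _ => ?_
    rw [monomial_pow, one_pow]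
  rw [h1, sum_mul, map_sum]
  conv_rhs => rw [h0, sum_mul]
  exact sum_congr rfl fun u _ => ml_left (phR_add u) f

theorem RT_one : RT σ 1 = 1 := by
  have h : phR (0 : σ →₀ ℕ) = some 0 := by
    rw [phR, if_pos (by intro v; simp)]
    congr 1
    ext v
    simp
  have h1 : (1 : P2 σ) = monomial 0 1 := rfl
  rw [h1, RT, ml_mono, h]
  rfl

theorem RT_sq (f : P2 σ) : RT σ (f ^ 2) = f := by
  have := RT_left f 1
  rwa [mul_one, RT_one, mul_one] at this

variable {K : Type}

theorem RT_sf (a : ℕ) (f : RR K) : RT _ (sf K a f) = sf K a (RT _ f) := by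
  rw [sf_rename, sf_rename]
  refine ml_rename (fun e => ?_) f
  have h0 : (∀ v, (e.mapDomain (shv a)) v % 2 = 0) ↔ ∀ v, e v % 2 = 0 := by
    constructor
    · intro h v
      have := h (shv a v)
      rwa [Finsupp.mapDomain_apply (shv_inj a)] at this
    · intro h v
      by_cases hv : v ∈ Set.range (shv a : Vr K → Vr K)
      · obtain ⟨w, rfl⟩ := hv
        rw [Finsupp.mapDomain_apply (shv_inj a)]
        exact h w
      · rw [Finsupp.mapDomain_of_notMem_range _ _ hv, Nat.zero_mod]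
  by_cases h : ∀ v, e v % 2 = 0
  · rw [phR, phR, if_pos h, if_pos (h0.mpr h), Option.map_some]
    congr 1
    ext v
    rw [Finsupp.mapRange_apply]
    by_cases hv : v ∈ Set.range (shv a : Vr K → Vr K)
    · obtain ⟨w, rfl⟩ := hv
      rw [Finsupp.mapDomain_apply (shv_inj a), Finsupp.mapDomain_apply (shv_inj a),
        Finsupp.mapRange_apply]
    · rw [Finsupp.mapDomain_of_notMem_range _ _ hv, Finsupp.mapDomain_of_notMem_range _ _ hv,
        Nat.zero_div]
  · rw [phR, phR, if_neg h, if_neg (fun h2 => h (h0.mp h2))]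
    rfl

theorem RT_cut {q : ℕ} {f : RR K} (hf : cut K q f = f) : cut K q (RT _ f) = RT _ f := by
  rw [cut_iff] at hf ⊢
  refine ml_IW hf ?_
  intro e e' he h
  rw [phR_some h, map_nsmul] at he
  simp only [smul_eq_mul] at he
  omega

theorem PHJ_co (z : Pt K (RR K)) (v : Vr K) :
    ev z (PHJ K (X v)) = co (mp id (fun y c n => y c n ^ 2) z : Pt K (RR K)) v := by
  cases v with
  | x a n => rw [PHJ_x, ev_X]; rfl
  | s a n => rw [PHJ_s, ev_X]; rfl
  | y c n => rw [PHJ_y, map_pow, ev_X]; rfl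

theorem RT_PP {ρ : ℕ} {T : ℤ} {q : ℕ} {f : RR K} (hf : f ∈ PP K (ρ + 1) T q) :
    RT _ f ∈ PP K ρ T q := by
  refine PP_map (RT _) ?_ hf
  intro a ha x hx z hz
  rw [pow_succ, pow_mul, RT_left, RT_sf]
  exact PP_gen ha hx (RT_cut hz)

theorem PHI_PP_root {ρ : ℕ} {T : ℤ} {q : ℕ} {f : RR K} (hf : PHI K f ∈ PP K (ρ + 1) T q) :
    f ∈ PP K ρ T q := by
  have h1 := coef_PP (PHJ K) (fun y c n => y c n ^ 2) PHJ_co hf
  rw [PHJ_PHI] at h1
  have h2 := RT_PP h1
  rwa [RT_sq] at h2

end root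

section comp

variable {K : Type} {M : Type*}

theorem cm_mul [AddCommMonoid M] [IsLeftCancelAdd M] {σ : Type*} {w : σ → M} {g : P2 σ} {m0 : M}
    (hg : IW w g m0) (m : M) (u : P2 σ) : cm w (m0 + m) (g * u) = g * cm w m u := by
  have h := cm_comm (w := w) (w' := w) (fun m => m0 + m) (fun _ _ h => add_left_cancel h)
    (LinearMap.mulLeft (ZMod 2) g) (fun f m hf => IsWeightedHomogeneous.mul hg hf) u m
  simpa only [LinearMap.mulLeft_apply] using h

/-- the weights of group variables -/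
def pE0 (K : Type) : ℤ × ((Empty → ℕ) × ℕ) →+ ℤ × ((K → ℕ) × ℕ) where
  toFun m := (m.1, (0, m.2.2))
  map_zero' := rfl
  map_add' _ _ := by
    refine Prod.ext rfl (Prod.ext ?_ rfl)
    simp

theorem IW_ix (κ : K → Kd) {κ' : Empty → Kd} {x : RR Empty} {m : ℤ × ((Empty → ℕ) × ℕ)}
    (hx : IW (wF κ') x m) : IW (wF κ) (ix K x) (pE0 K m) := by
  refine IW.aeval' (pE0 K) (ix K) (w := wF κ') ?_ hx
  intro v
  cases v with
  | x a n => rw [ix_x]; exact isWeightedHomogeneous_X _ _ _
  | s a n => rw [ix_s]; exact isWeightedHomogeneous_X _ _ _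
  | y c n => exact c.elim

theorem IW_ixp (κ : K → Kd) {a : ℕ} {T : ℤ} {x : RR Empty} (hx : TT kun a T 0 0 x) (ρ : ℕ) :
    IW (wF κ) (ix K x ^ (2 ^ ρ)) (2 ^ ρ * T, (0, 0)) := by
  have h := (IW_ix κ hx.iw).pow (2 ^ ρ)
  have h2 : 2 ^ ρ • pE0 K (T, ((0 : Empty → ℕ), 0)) = (2 ^ ρ * T, (0, 0)) := by
    refine Prod.ext ?_ (Prod.ext ?_ ?_)
    · simp [pE0]
    · simp [pE0]
    · simp [pE0]
  rwa [h2] at h

theorem IW_sf (κ : K → Kd) (a : ℕ) {f : RR K} {m : ℤ × ((K → ℕ) × ℕ)} (hf : IW (wF κ) f m) :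
    IW (wF κ) (sf K a f) m := by
  refine IW.aeval' (AddMonoidHom.id _) (sf K a) (w := wF κ) ?_ hf
  intro v
  cases v with
  | x b n => rw [sf_x]; exact isWeightedHomogeneous_X _ (wF κ) (Vr.x (a + b) n)
  | s b n => rw [sf_s]; exact isWeightedHomogeneous_X _ (wF κ) (Vr.s (a + b) n)
  | y c n => rw [sf_y]; exact isWeightedHomogeneous_X _ (wF κ) (Vr.y c n)

/-- the component of a product -/
theorem cm_PG (κ : K → Kd) {a : ℕ} {T : ℤ} {x : RR Empty} (hx : TT kun a T 0 0 x) (ρ : ℕ)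
    (c : ℤ) (ν : K → ℕ) (j : ℕ) (z : RR K) :
    cm (wF κ) (2 ^ ρ * T + c, (ν, j)) (ix K x ^ (2 ^ ρ) * sf K a z)
      = ix K x ^ (2 ^ ρ) * sf K a (cm (wF κ) (c, (ν, j)) z) := by
  have h := cm_mul (IW_ixp κ hx ρ) (c, (ν, j)) (sf K a z)
  have h2 : ((2 ^ ρ * T, (0, 0)) : ℤ × ((K → ℕ) × ℕ)) + (c, (ν, j))
      = (2 ^ ρ * T + c, (ν, j)) := by simp
  rw [h2] at h
  rw [h]
  congr 1
  have h3 := cm_comm (w := wF κ) (w' := wF κ) (fun m => m) (fun _ _ h => h)
    (sf K a).toLinearMap (fun f m hf => IW_sf κ a hf) z (c, (ν, j))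
  simpa only [AlgHom.toLinearMap_apply] using h3

/-- if there are no cochains of degree `c`, the homogeneous split cochains vanish -/
theorem PP_zero {κ : K → Kd} {ρ : ℕ} {T : ℤ} {q : ℕ} {c : ℤ} {ν : K → ℕ} {j : ℕ}
    (h0 : ∀ z : RR K, IW (wF κ) z (c, (ν, j)) → z = 0) {f : RR K} (hf : f ∈ PP K ρ T q)
    (hw : IW (wF κ) f (2 ^ ρ * T + c, (ν, j))) : f = 0 := by
  have h1 : cm (wF κ) (2 ^ ρ * T + c, (ν, j)) f = 0 := by
    clear hw
    induction hf using Submodule.span_induction with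
    | mem f hf =>
      obtain ⟨a, ha, x, hx, z, hz, rfl⟩ := hf
      rw [cm_PG κ hx, h0 _ (cm_IW _ _ _), map_zero, mul_zero]
    | zero => rw [map_zero]
    | add f g _ _ hf hg => rw [map_add, hf, hg, add_zero]
    | smul c f _ hf => rw [map_smul, hf, smul_zero]
  rwa [cm_same hw] at h1

/-- components of split cochains are split -/
theorem cm_PP (κ : K → Kd) {ρ : ℕ} {T : ℤ} {q : ℕ} (c : ℤ) (ν : K → ℕ) (j : ℕ) {f : RR K}
    (hf : f ∈ PP K ρ T q) : cm (wF κ) (2 ^ ρ * T + c, (ν, j)) f ∈ PP K ρ T q := by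
  refine PP_map (cm (wF κ) (2 ^ ρ * T + c, (ν, j))) ?_ hf
  intro a ha x hx z hz
  rw [cm_PG κ hx]
  exact PP_gen ha hx (by rw [← cm_cut, hz])

/-- components for the degree in the extra variables -/
theorem cmn_PP {ρ : ℕ} {T : ℤ} {q : ℕ} (i : ℕ) {f : RR (Option K)}
    (hf : f ∈ PP (Option K) ρ T q) : cm (wn K) i f ∈ PP (Option K) ρ T q := by
  refine PP_map (cm (wn K) i) ?_ hf
  intro a ha x hx z hz
  have h1 : IW (wn K) (ix (Option K) x ^ (2 ^ ρ)) 0 := by
    have h0 : IW (fun _ : Vr Empty => (0 : ℕ)) x 0 := by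
      intro e _
      rw [Finsupp.weight_apply]
      simp [Finsupp.sum]
    have h2 : IW (wn K) (ix (Option K) x) 0 := by
      refine IW.aeval' (AddMonoidHom.id ℕ) (ix (Option K)) (w := fun _ => (0 : ℕ)) ?_ h0
      intro v
      cases v with
      | x a n => rw [ix_x]; exact isWeightedHomogeneous_X _ (wn K) (Vr.x a n)
      | s a n => rw [ix_s]; exact isWeightedHomogeneous_X _ (wn K) (Vr.s a n)
      | y c n => exact c.elim
    have h3 := h2.pow (2 ^ ρ)
    rwa [smul_zero] at h3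
  have h4 := cm_mul h1 i (sf (Option K) a z)
  rw [zero_add] at h4
  rw [h4]
  have h5 := cm_comm (w := wn K) (w' := wn K) (fun m => m) (fun _ _ h => h)
    (sf (Option K) a).toLinearMap (fun f m hf => by
      refine IW.aeval' (AddMonoidHom.id _) (sf (Option K) a) (w := wn K) ?_ hf
      intro v
      cases v with
      | x b n => rw [sf_x]; exact isWeightedHomogeneous_X _ (wn K) (Vr.x (a + b) n)
      | s b n => rw [sf_s]; exact isWeightedHomogeneous_X _ (wn K) (Vr.s (a + b) n)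
      | y c n => rw [sf_y]; exact isWeightedHomogeneous_X _ (wn K) (Vr.y c n)) z i
  simp only [AlgHom.toLinearMap_apply] at h5
  rw [h5]
  refine PP_gen ha hx ?_
  have h6 := cm_comm (w := wn K) (w' := wn K) (fun m => m) (fun _ _ h => h)
    (cut (Option K) (q - a)).toLinearMap (fun f m hf => by
      rw [wn_eq] at hf ⊢
      exact IW_cut_c (κ := (ktw : Option K → Kd)) _ hf) z i
  simp only [AlgHom.toLinearMap_apply] at h6
  rw [← h6, hz]

end comp

end Pool.Agent.H749.GK
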