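import Pool.Agent.H749.GK.PP

/-!
# The homotopy and the linear part preserve split cochains
-/

set_option autoImplicit false
set_option linter.unusedSectionVars false

namespace Pool.Agent.H749.GK

open Finset MvPolynomial Pool.Agent.W624.Stz

section degen

/-- insertion of a unit in the slot `i` -/
def ipt {A : Type*} [CommRing A] [Algebra (ZMod 2) A] (i : ℕ) (γ : ℕ → Tg A) : ℕ → Tg A :=
  fun a => if a < i then γ a else if a = i then 1 else γ (a - 1)

/-- degeneracy -/
noncomputable def dg (i : ℕ) (x : RR Empty) : RR Empty := ev (ept (ipt i (uni Empty).1)) x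

theorem ev_dg {A : Type*} [CommRing A] [Algebra (ZMod 2) A] (i : ℕ) (γ : ℕ → Tg A)
    (x : RR Empty) : ev (ept γ) (dg i x) = ev (ept (ipt i γ)) x := by
  rw [dg, ev_map]
  congr 2
  have h : mP (ev (ept γ)) (uni Empty) = ept γ := mP_uni _
  have h2 : ∀ a, mT (ev (ept γ)) ((uni Empty).1 a) = γ a := fun a =>
    congrFun (congrArg Prod.fst h) a
  refine Prod.ext ?_ (funext fun c => c.elim)
  funext a
  change mT (ev (ept γ)) (ipt i (uni Empty).1 a) = ipt i γ a
  simp only [ipt]
  split_ifs
  · exact h2 a
  · exact mT_one _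
  · exact h2 _

theorem TT_dg {a i : ℕ} (hi : i < a) {T : ℤ} {x : RR Empty} (hx : TT kun a T 0 0 x) :
    TT kun (a - 1) T 0 0 (dg i x) := by
  refine ⟨?_, ?_⟩
  · apply cut_of_dep
    intro z z' hz
    have hz1 : z = ept z.1 := Prod.ext rfl (funext fun c => c.elim)
    have hz2 : z' = ept z'.1 := Prod.ext rfl (funext fun c => c.elim)
    simp only
    rw [hz1, hz2, ev_dg, ev_dg]
    apply dep_of_cut hx.cu
    refine ⟨?_, rfl⟩
    intro b hb
    have h1 := hz.1
    simp only [ept, ipt]
    split_ifs with h3 h4
    · exact h1 b (by omega)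
    · rfl
    · exact h1 (b - 1) (by omega)
  · refine IW_ev (w := wF (kun : Empty → Kd)) (ss := ((0 : Empty → ℕ), 1)) (κ := kun)
      (ω := fun c => (ee c, 0)) ?_ (fun c => c.elim) hx.iw
    intro b
    simp only [ept, ipt]
    split_ifs
    · exact uni_PM _ _ _ _
    · exact PMw_one _ _
    · exact uni_PM _ _ _ _

end degen

section homotopy

variable {K : Type}

theorem sf_LL (a : ℕ) (z : RR (Option K)) :
    sf (Option K) a (LL K z)
      = ev (fun i => lin ((uni (Option K)).1 (a + i)), bs (uni (Option K)).2) z := by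
  rw [sf, LL, ev_map]
  congr 2
  have h := mP_uni (spt a (uni (Option K)))
  refine Prod.ext ?_ ?_
  · funext i
    change mT (ev (spt a (uni (Option K)))) (lin ((uni (Option K)).1 i)) = _
    rw [mT_lin]
    congr 1
    exact congrFun (congrArg Prod.fst h) i
  · change mY (ev (spt a (uni (Option K)))) (bs (uni (Option K)).2) = _
    rw [mY_bs]
    congr 1
    exact congrArg Prod.snd h

theorem cut_LL {q : ℕ} {z : RR (Option K)} (hz : cut _ q z = z) : cut _ q (LL K z) = LL K z := by
  have key : ∀ w : Pt (Option K) (RR (Option K)), ev w (LL K z)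
      = ev (fun i => lin (w.1 i), bs w.2) z := by
    intro w
    rw [LL, ev_map]
    congr 2
    have h := mP_uni w
    refine Prod.ext ?_ ?_
    · funext i
      change mT (ev w) (lin ((uni (Option K)).1 i)) = _
      rw [mT_lin]
      congr 1
      exact congrFun (congrArg Prod.fst h) i
    · change mY (ev w) (bs (uni (Option K)).2) = _
      rw [mY_bs]
      congr 1
      exact congrArg Prod.snd h
  apply cut_of_dep
  intro w w' hw
  simp only
  rw [key, key]
  apply dep_of_cut hz
  refine ⟨fun b hb => ?_, ?_⟩
  · simp only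
    rw [hw.1 b hb]
  · simp only
    rw [hw.2]

theorem hh_PG {q a : ℕ} (ha : a ≤ q + 1) (ρ : ℕ) {T : ℤ} {x : RR Empty}
    (hx : TT kun a T 0 0 x) (z : RR (Option K)) :
    hh K q (ix (Option K) x ^ (2 ^ ρ) * sf (Option K) a z)
      = ∑ i ∈ range a, ix (Option K) (dg i x) ^ (2 ^ ρ) * sf (Option K) (a - 1) (LL K z)
        + ix (Option K) x ^ (2 ^ ρ) * sf (Option K) a (if a ≤ q then hh K (q - a) z else 0) := by
  set U := uni (Option K) with hU
  have e1 : ∀ i < a, ev (prm (act kE) lin bs tr q i U)
      (ix (Option K) x ^ (2 ^ ρ) * sf (Option K) a z)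
      = ix (Option K) (dg i x) ^ (2 ^ ρ) * sf (Option K) (a - 1) (LL K z) := by
    intro i hi
    rw [map_mul, map_pow, ev_ix, ev_sf]
    congr 1
    · congr 1
      rw [ix, ev_dg]
      apply ept_congr hx
      intro b hb
      simp only [ipt]
      rcases lt_trichotomy b i with h | h | h
      · rw [if_pos h, prm_lt h]
      · subst h
        rw [if_neg (by omega), if_pos rfl, prm_eq]
        rfl
      · rw [if_neg (by omega), if_neg (by omega), prm_gt h]
        rfl
    · rw [sf_LL]
      congr 1
      congr 1
      refine Prod.ext ?_ rfl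
      funext b
      change (prm (act kE) lin bs tr q i U).1 (a + b) = lin (U.1 (a - 1 + b))
      rw [prm_gt (by omega), show a + b - 1 = a - 1 + b by omega]
  have e2 : ∀ k, a + k ≤ q → ev (prm (act kE) lin bs tr q (a + k) U)
      (ix (Option K) x ^ (2 ^ ρ) * sf (Option K) a z)
      = ix (Option K) x ^ (2 ^ ρ) * ev (prm (act kE) lin bs tr (q - a) k (spt a U)) z := by
    intro k hk
    rw [map_mul, map_pow, ev_ix, ev_sf]
    congr 1
    · congr 1
      rw [ix]
      apply ept_congr hx
      intro b hb
      rw [prm_lt (by omega)]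
    · congr 2
      refine Prod.ext ?_ rfl
      funext b
      change (prm (act kE) lin bs tr q (a + k) U).1 (a + b)
        = (prm (act kE) lin bs tr (q - a) k (spt a U)).1 b
      rcases lt_trichotomy b k with h | h | h
      · rw [prm_lt (by omega), prm_lt h]
        rfl
      · subst h
        rw [prm_eq, prm_eq, show q - (a + b) = q - a - b by omega]
        congr 1
        apply run_congr
        intro c _
        change U.1 (a + b + c) = U.1 (a + (b + c))
        rw [add_assoc]
      · rw [prm_gt (by omega), prm_gt h]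
        congr 1
        change U.1 (a + b - 1) = U.1 (a + (b - 1))
        rw [show a + b - 1 = a + (b - 1) by omega]
  rw [hh_apply]
  by_cases haq : a ≤ q
  · rw [if_pos haq, show q + 1 = a + (q - a + 1) by omega, sum_range_add]
    congr 1
    · exact sum_congr rfl fun i hi => e1 i (mem_range.mp hi)
    · have h3 : sf (Option K) a (hh K (q - a) z)
          = ∑ k ∈ range (q - a + 1), ev (prm (act kE) lin bs tr (q - a) k (spt a U)) z := by
        rw [sf, ev_hh, hF]
      rw [h3, mul_sum]
      refine sum_congr rfl fun k hk => ?_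
      rw [mem_range] at hk
      exact e2 k (by omega)
  · have : a = q + 1 := by omega
    subst this
    rw [if_neg haq, map_zero, mul_zero, add_zero]
    exact sum_congr rfl fun i hi => e1 i (mem_range.mp hi)

theorem hh_PP {ρ : ℕ} {T : ℤ} {q : ℕ} {f : RR (Option K)} (hf : f ∈ PP (Option K) ρ T (q + 1)) :
    hh K q f ∈ PP (Option K) ρ T q := by
  refine PP_map (hh K q) ?_ hf
  intro a ha x hx z hz
  rw [hh_PG ha ρ hx z]
  refine Submodule.add_mem _ (Submodule.sum_mem _ fun i hi => ?_) ?_
  · rw [mem_range] at hi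
    refine PP_gen (by omega) (TT_dg hi hx) (cut_LL ?_)
    rw [show q - (a - 1) = q + 1 - a by omega, hz]
  · by_cases haq : a ≤ q
    · rw [if_pos haq]
      refine PP_gen haq hx ?_
      have h1 := cut_hm (q := q + 1 - a) hz
      rw [show q + 1 - a = (q - a) + 1 by omega] at h1
      exact h1
    · rw [if_neg haq, map_zero, mul_zero]
      exact Submodule.zero_mem _

end homotopy

section last

variable {K : Type}

theorem lf_ix (κ : Option K → Kd) (q : ℕ) (x : RR Empty) :
    lf κ q (ix (Option K) x) = ix (Option K) x := by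
  rw [lf, ev_ix, fc_last _ (by omega)]
  rfl

theorem lf_sf (κ : Option K → Kd) {q a : ℕ} (ha : a ≤ q) (z : RR (Option K)) :
    lf κ q (sf (Option K) a z) = sf (Option K) a (lf κ (q - a) z) := by
  have h : spt a (fc (act κ) q (q + 1) (uni (Option K)))
      = fc (act κ) (q - a) (q - a + 1) (spt a (uni (Option K))) := by
    rw [fc_last _ (by omega), fc_last _ (by omega)]
    refine Prod.ext rfl ?_
    change act κ ((uni (Option K)).1 q) (uni (Option K)).2
      = act κ ((uni (Option K)).1 (a + (q - a))) (uni (Option K)).2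
    rw [show a + (q - a) = q by omega]
  rw [lf, ev_sf, h, sf, lf, ev_map, mP_fc, mP_uni]

theorem lf_PG (κ : Option K → Kd) {q a : ℕ} (ha : a ≤ q) (ρ : ℕ) (x : RR Empty)
    (z : RR (Option K)) :
    lf κ q (ix (Option K) x ^ (2 ^ ρ) * sf (Option K) a z)
      = ix (Option K) x ^ (2 ^ ρ) * sf (Option K) a (lf κ (q - a) z) := by
  rw [map_mul, map_pow, lf_ix, lf_sf κ ha]

end last

end Pool.Agent.H749.GK
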