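import Pool.Graph.R_seed8.W624.StzF

/-!
# The split cochains

`PP K ρ T q` is spanned by the products `x ^ (2 ^ ρ) * z` of a cochain `x` of the group in the first
`a ≤ q` slots, of internal degree `T`, and a cochain `z` in the remaining `q - a` slots.
-/

set_option autoImplicit false
set_option linter.unusedSectionVars false

namespace Pool.Agent.H749.GK

open Finset MvPolynomial Pool.Agent.W624.Stz

section pts

variable {A : Type*} [CommRing A] [Algebra (ZMod 2) A] {K L : Type}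

/-- the point with given group part and no coefficients -/
def ept (γ : ℕ → Tg A) : Pt Empty A := (γ, fun c => c.elim)

/-- shift of the slots of a point -/
def spt (a : ℕ) (z : Pt K A) : Pt K A := (fun i => z.1 (a + i), z.2)

/-- inclusion of the cochains without coefficients -/
noncomputable def ix (K : Type) : RR Empty →ₐ[ZMod 2] RR K := ev (ept (uni K).1)

/-- shift of the slots of a cochain -/
noncomputable def sf (K : Type) (a : ℕ) : RR K →ₐ[ZMod 2] RR K := ev (spt a (uni K))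

theorem ev_ix (z : Pt K A) (x : RR Empty) : ev z (ix K x) = ev (ept z.1) x := by
  rw [ix, ev_map]
  congr 2
  refine Prod.ext ?_ (funext fun c => c.elim)
  have h := congrArg Prod.fst (mP_uni z)
  exact h

theorem ev_sf (z : Pt K A) (a : ℕ) (f : RR K) : ev z (sf K a f) = ev (spt a z) f := by
  rw [sf, ev_map]
  congr 2
  have h := mP_uni z
  refine Prod.ext ?_ ?_
  · funext i
    exact congrFun (congrArg Prod.fst h) (a + i)
  · have h2 := congrArg Prod.snd h
    exact h2

theorem ix_empty (x : RR Empty) : ix Empty x = x := by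
  rw [ix]
  have h : ept (uni Empty).1 = uni Empty := Prod.ext rfl (funext fun c => c.elim)
  rw [h, ev_uni]

theorem ix_x (a n : ℕ) : ix K (X (.x a n)) = X (.x a n) := by
  rw [ix, ev_X]; rfl

theorem ix_s (a n : ℕ) : ix K (X (.s a n)) = X (.s a n) := by
  rw [ix, ev_X]; rfl

theorem sf_x (b a n : ℕ) : sf K b (X (.x a n)) = X (.x (b + a) n) := by
  rw [sf, ev_X]; rfl

theorem sf_s (b a n : ℕ) : sf K b (X (.s a n)) = X (.s (b + a) n) := by
  rw [sf, ev_X]; rfl

theorem sf_y (b : ℕ) (c : K) (n : ℕ) : sf K b (X (.y c n)) = X (.y c n) := by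
  rw [sf, ev_X]; rfl

end pts

section defs

variable {K L : Type}

/-- generators of the split cochains -/
def PG (K : Type) (ρ : ℕ) (T : ℤ) (q : ℕ) (f : RR K) : Prop :=
  ∃ a, a ≤ q ∧ ∃ x : RR Empty, TT kun a T 0 0 x ∧ ∃ z : RR K, cut K (q - a) z = z ∧
    f = ix K x ^ (2 ^ ρ) * sf K a z

/-- split cochains -/
noncomputable def PP (K : Type) (ρ : ℕ) (T : ℤ) (q : ℕ) : Submodule (ZMod 2) (RR K) :=
  Submodule.span (ZMod 2) {f | PG K ρ T q f}

theorem PP_map {ρ ρ' : ℕ} {T T' : ℤ} {q q' : ℕ} (L1 : RR K →ₗ[ZMod 2] RR L)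
    (h : ∀ a, a ≤ q → ∀ x : RR Empty, TT kun a T 0 0 x → ∀ z : RR K, cut K (q - a) z = z →
      L1 (ix K x ^ (2 ^ ρ) * sf K a z) ∈ PP L ρ' T' q')
    {f : RR K} (hf : f ∈ PP K ρ T q) : L1 f ∈ PP L ρ' T' q' := by
  induction hf using Submodule.span_induction with
  | mem f hf =>
    obtain ⟨a, ha, x, hx, z, hz, rfl⟩ := hf
    exact h a ha x hx z hz
  | zero => rw [map_zero]; exact Submodule.zero_mem _
  | add f g _ _ hf hg => rw [map_add]; exact Submodule.add_mem _ hf hg
  | smul c f _ hf => rw [map_smul]; exact Submodule.smul_mem _ _ hf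

theorem PP_gen {ρ : ℕ} {T : ℤ} {q : ℕ} {a : ℕ} (ha : a ≤ q) {x : RR Empty}
    (hx : TT kun a T 0 0 x) {z : RR K} (hz : cut K (q - a) z = z) :
    ix K x ^ (2 ^ ρ) * sf K a z ∈ PP K ρ T q :=
  Submodule.subset_span ⟨a, ha, x, hx, z, hz, rfl⟩

/-- cochains without s-variables only see the group parts -/
theorem ept_congr {a : ℕ} {T : ℤ} {ν : Empty → ℕ} {x : RR Empty} (hx : TT kun a T ν 0 x)
    {γ γ' : ℕ → Tg (RR L)} (h : ∀ i < a, (γ i).g = (γ' i).g) :
    ev (ept γ) x = ev (ept γ') x := by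
  refine hom_congr hx _ _ ?_ (fun c => c.elim)
  intro i n hi
  rw [ev_X, ev_X]
  simp only [co, ept]
  rw [h i hi]

/-- a hom which only changes the coefficients -/
theorem coef_ix (θ : RR K →ₐ[ZMod 2] RR L) (h : (L → ℕ → RR L) → (K → ℕ → RR L))
    (hθ : ∀ (z : Pt L (RR L)) v, ev z (θ (X v)) = co (mp id h z : Pt K (RR L)) v) (x : RR Empty) :
    θ (ix K x) = ix L x := by
  rw [← ev_uni (θ (ix K x)), hom_ev θ id h hθ, ev_ix, ← ev_uni (ix L x), ev_ix]
  rfl

theorem coef_sf (θ : RR K →ₐ[ZMod 2] RR L) (h : (L → ℕ → RR L) → (K → ℕ → RR L))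
    (hθ : ∀ (z : Pt L (RR L)) v, ev z (θ (X v)) = co (mp id h z : Pt K (RR L)) v) (a : ℕ)
    (f : RR K) : θ (sf K a f) = sf L a (θ f) := by
  rw [← ev_uni (θ (sf K a f)), hom_ev θ id h hθ, ev_sf, ← ev_uni (sf L a (θ f)), ev_sf,
    hom_ev θ id h hθ]
  rfl

theorem coef_PP (θ : RR K →ₐ[ZMod 2] RR L) (h : (L → ℕ → RR L) → (K → ℕ → RR L))
    (hθ : ∀ (z : Pt L (RR L)) v, ev z (θ (X v)) = co (mp id h z : Pt K (RR L)) v)
    {ρ : ℕ} {T : ℤ} {q : ℕ} {f : RR K} (hf : f ∈ PP K ρ T q) : θ f ∈ PP L ρ T q := by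
  refine PP_map θ.toLinearMap ?_ hf
  intro a ha x hx z hz
  rw [AlgHom.toLinearMap_apply, map_mul, map_pow, coef_ix θ h hθ, coef_sf θ h hθ]
  refine PP_gen ha hx ?_
  rw [← hom_cut θ id h rfl hθ, hz]

theorem IN_PP {ρ : ℕ} {T : ℤ} {q : ℕ} {f : RR K} (hf : f ∈ PP K ρ T q) :
    IN K f ∈ PP (Option K) ρ T q := coef_PP (IN K) (fun y c => y (some c)) IN_co hf

theorem RE_PP {ρ : ℕ} {T : ℤ} {q : ℕ} {f : RR (Option K)} (hf : f ∈ PP (Option K) ρ T q) :
    RE K f ∈ PP K ρ T q := coef_PP (RE K) ez RE_co hf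

theorem PI_PP (S : K → Bool) {ρ : ℕ} {T : ℤ} {q : ℕ} {f : RR K} (hf : f ∈ PP K ρ T q) :
    PI S f ∈ PP K ρ T q := coef_PP (PI S) (hS S) (PI_co S) hf

theorem SI_PP (S : K → Bool) {ρ : ℕ} {T : ℤ} {q : ℕ} {f : RR K} (hf : f ∈ PP K ρ T q) :
    SI S f ∈ PP K ρ T q := coef_PP (SI S) (hT S) (SI_co S) hf

theorem RN_PP (e : K → L) {ρ : ℕ} {T : ℤ} {q : ℕ} {f : RR K} (hf : f ∈ PP K ρ T q) :
    RN e f ∈ PP L ρ T q := coef_PP (RN e) (fun y c => y (e c)) (RN_co e) hf

end defs

section frob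

variable {K : Type}

theorem PHI_ix (x : RR Empty) : PHI K (ix K x) = ix K x ^ 2 := by
  have h : (PHI K).comp (ix K) = (ix K).comp (PHI Empty) := by
    apply algHom_ext
    intro v
    rw [AlgHom.comp_apply, AlgHom.comp_apply]
    cases v with
    | x a n => rw [ix_x, PHI_x, PHI_x, map_pow, ix_x]
    | s a n => rw [ix_s, PHI_s, PHI_s, map_pow, ix_s]
    | y c n => exact c.elim
  have h2 := DFunLike.congr_fun h x
  rw [AlgHom.comp_apply, AlgHom.comp_apply, PHI_sq, map_pow] at h2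
  exact h2

theorem PHI_sf (a : ℕ) (f : RR K) : PHI K (sf K a f) = sf K a (PHI K f) := by
  have h : (PHI K).comp (sf K a) = (sf K a).comp (PHI K) := by
    apply algHom_ext
    intro v
    rw [AlgHom.comp_apply, AlgHom.comp_apply]
    cases v with
    | x b n => rw [sf_x, PHI_x, PHI_x, map_pow, sf_x]
    | s b n => rw [sf_s, PHI_s, PHI_s, map_pow, sf_s]
    | y c n => rw [sf_y, PHI_y, sf_y]
  exact DFunLike.congr_fun h f

theorem PHI_PP {ρ : ℕ} {T : ℤ} {q : ℕ} {f : RR K} (hf : f ∈ PP K ρ T q) :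
    PHI K f ∈ PP K (ρ + 1) T q := by
  refine PP_map (PHI K).toLinearMap ?_ hf
  intro a ha x hx z hz
  rw [AlgHom.toLinearMap_apply, map_mul, map_pow, PHI_ix, PHI_sf, ← pow_mul,
    show 2 * 2 ^ ρ = 2 ^ (ρ + 1) by rw [pow_succ]; ring]
  refine PP_gen ha hx ?_
  rw [← PHI_cut, hz]

end frob

section faces

variable {K : Type}

theorem ix_dd (a : ℕ) (x : RR Empty) :
    ix K (dd kun a x) = ∑ j ∈ range (a + 2), ev (ept (fc (act (kun : Empty → Kd)) a j
      (ept (uni K).1)).1) x := by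
  rw [ix, ev_dd, dF]
  refine sum_congr rfl fun j _ => ?_
  congr 2
  exact Prod.ext rfl (funext fun c => c.elim)

/-- the differential of a product -/
theorem dd_PG (κ : K → Kd) {q a : ℕ} (ha : a ≤ q) (ρ : ℕ) {T : ℤ} {ν : Empty → ℕ} {x : RR Empty}
    (hx : TT kun a T ν 0 x) (z : RR K) :
    dd κ q (ix K x ^ (2 ^ ρ) * sf K a z)
      = ix K (dd kun a x) ^ (2 ^ ρ) * sf K (a + 1) z
        + ix K x ^ (2 ^ ρ) * sf K a (dd κ (q - a) z) := by
  set U := uni K with hU
  have e1 : ∀ j ≤ a, ev (fc (act κ) q j U) (ix K x ^ (2 ^ ρ) * sf K a z)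
      = ev (ept (fc (act (kun : Empty → Kd)) a j (ept U.1)).1) x ^ (2 ^ ρ) * sf K (a + 1) z := by
    intro j hj
    rw [map_mul, map_pow, ev_ix, ev_sf]
    congr 1
    · congr 1
      apply ept_congr hx
      intro i hi
      cases j with
      | zero => rw [fc_zero, fc_zero]; rfl
      | succ j => rw [fc_mid _ (by omega), fc_mid _ (by omega)]; rfl
    · rw [sf]
      congr 1
      congr 1
      cases j with
      | zero =>
        rw [fc_zero]
        refine Prod.ext ?_ rfl
        funext i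
        change U.1 (a + i + 1) = U.1 (a + 1 + i)
        rw [show a + i + 1 = a + 1 + i by omega]
      | succ j =>
        rw [fc_mid _ (by omega)]
        refine Prod.ext ?_ rfl
        funext i
        change mrg j U.1 (a + i) = U.1 (a + 1 + i)
        rw [mrg_gt (by omega), show a + i + 1 = a + 1 + i by omega]
  have e2 : ∀ j, a < j → j ≤ q + 1 → ev (fc (act κ) q j U) (ix K x ^ (2 ^ ρ) * sf K a z)
      = ix K x ^ (2 ^ ρ) * ev (fc (act κ) (q - a) (j - a) (spt a U)) z := by
    intro j hj1 hj2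
    rw [map_mul, map_pow, ev_ix, ev_sf]
    obtain ⟨k, rfl⟩ : ∃ k, j = a + (k + 1) := ⟨j - a - 1, by omega⟩
    rw [show a + (k + 1) - a = k + 1 by omega]
    congr 1
    · congr 1
      rw [ix]
      apply ept_congr hx
      intro i hi
      rcases Nat.lt_or_ge k (q - a) with h | h
      · rw [show a + (k + 1) = (a + k) + 1 by ring, fc_mid _ (by omega)]
        change (mrg (a + k) U.1 i).g = _
        rw [mrg_lt (by omega)]
      · rw [fc_last _ (by omega)]
    · congr 2
      rcases Nat.lt_or_ge k (q - a) with h | h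
      · rw [show a + (k + 1) = (a + k) + 1 by ring, fc_mid _ (by omega), fc_mid _ h]
        refine Prod.ext ?_ rfl
        funext i
        simp only [spt]
        rcases lt_trichotomy i k with h1 | h1 | h1
        · rw [mrg_lt (by omega), mrg_lt h1]
        · subst h1
          rw [mrg_eq, mrg_eq]
          rfl
        · rw [mrg_gt (by omega), mrg_gt h1]
          rfl
      · rw [fc_last _ (by omega), fc_last _ (by omega)]
        refine Prod.ext rfl ?_
        simp only [spt]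
        rw [show a + (q - a) = q by omega]
  have hs : dd κ q (ix K x ^ (2 ^ ρ) * sf K a z)
      = ∑ j ∈ range (a + 1), ev (ept (fc (act (kun : Empty → Kd)) a j (ept U.1)).1) x ^ (2 ^ ρ)
          * sf K (a + 1) z
        + ∑ k ∈ range (q - a + 1), ix K x ^ (2 ^ ρ)
          * ev (fc (act κ) (q - a) (k + 1) (spt a U)) z := by
    rw [dd_apply, show q + 2 = (a + 1) + (q - a + 1) by omega, sum_range_add]
    congr 1
    · refine sum_congr rfl fun j hj => ?_
      rw [mem_range] at hj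
      exact e1 j (by omega)
    · refine sum_congr rfl fun k hk => ?_
      rw [mem_range] at hk
      rw [e2 (a + 1 + k) (by omega) (by omega), show a + 1 + k - a = k + 1 by omega]
  have hx1 : ix K (dd kun a x)
      = ∑ j ∈ range (a + 1), ev (ept (fc (act (kun : Empty → Kd)) a j (ept U.1)).1) x
        + ix K x := by
    rw [ix_dd, sum_range_succ]
    congr 1
    rw [fc_last _ (by omega)]
    rfl
  have hz1 : sf K a (dd κ (q - a) z)
      = ∑ k ∈ range (q - a + 1), ev (fc (act κ) (q - a) (k + 1) (spt a U)) z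
        + sf K (a + 1) z := by
    rw [sf, ev_dd, dF, sum_range_succ']
    congr 1
    rw [fc_zero, sf]
    congr 1
    congr 1
    refine Prod.ext ?_ rfl
    funext i
    change (uni K).1 (a + (i + 1)) = (uni K).1 (a + 1 + i)
    rw [show a + 1 + i = a + (i + 1) by omega]
  rw [hs, hz1, hx1, add_pow0, sum_pow0, ← sum_mul, ← mul_sum]
  have h3 := p2_add_self (ix K x ^ (2 ^ ρ) * sf K (a + 1) z)
  rw [add_mul, mul_add]
  have h4 : ∀ u v w : RR K, w + w = 0 → u + v = u + w + (v + w) := by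
    intro u v w hw
    rw [show u + w + (v + w) = u + v + (w + w) by ring, hw, add_zero]
  exact h4 _ _ _ h3

theorem dd_PP (κ : K → Kd) {ρ : ℕ} {T : ℤ} {q : ℕ} {f : RR K} (hf : f ∈ PP K ρ T q) :
    dd κ q f ∈ PP K ρ T (q + 1) := by
  refine PP_map (dd κ q) ?_ hf
  intro a ha x hx z hz
  rw [dd_PG κ ha ρ hx z]
  refine Submodule.add_mem _ (PP_gen (by omega) (hx.dd naf_un) ?_) (PP_gen (by omega) hx ?_)
  · rw [show q + 1 - (a + 1) = q - a by omega, hz]
  · rw [show q + 1 - a = q - a + 1 by omega]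
    exact cut_dd κ hz

end faces

end Pool.Agent.H749.GK
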