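import Pool.Agent.H749.GK.OP

/-!
# The steps of the induction, modulo split cochains
-/

set_option autoImplicit false
set_option linter.unusedSectionVars false

namespace Pool.Agent.H749.GK

open Finset MvPolynomial Pool.Agent.W624.Stz

variable {K : Type}

/-- acyclicity modulo split cochains in degree `q`; the internal degree is `2 ^ ρ * T + c` -/
def ExP (κ : K → Kd) (ρ : ℕ) (T : ℤ) (q : ℕ) (c : ℤ) (ν : K → ℕ) (j : ℕ) : Prop :=
  ∀ f, TT κ q (2 ^ ρ * T + c) ν j f → dd κ q f ∈ PP K ρ T (q + 1) →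
    ∃ h, TT κ (q - 1) (2 ^ ρ * T + c) ν j h ∧ f + dm κ q h ∈ PP K ρ T q

theorem dm_PP (κ : K → Kd) {ρ : ℕ} {T : ℤ} {q : ℕ} {f : RR K} (hf : f ∈ PP K ρ T (q - 1)) :
    dm κ q f ∈ PP K ρ T q := by
  cases q with
  | zero => simp only [dm, LinearMap.zero_apply]; exact Submodule.zero_mem _
  | succ q => exact dd_PP κ hf

theorem ExP_of_Ex {κ : K → Kd} (hκ : Naf κ) {ρ : ℕ} {T : ℤ} {q : ℕ} {c : ℤ} {ν : K → ℕ} {j : ℕ}
    (h0 : ∀ z : RR K, IW (wF κ) z (c, (ν, j)) → z = 0) (h : Ex κ q (2 ^ ρ * T + c) ν j) :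
    ExP κ ρ T q c ν j := by
  intro f hf hdf
  obtain ⟨g, hg, hgf⟩ := h f hf (PP_zero h0 hdf (hf.dd hκ).iw)
  exact ⟨g, hg, by rw [hgf, p2_add_self]; exact Submodule.zero_mem _⟩

theorem TT0_zero {κ : K → Kd} {t : ℤ} {ν : K → ℕ} {j : ℕ} (hj : 1 ≤ j) {f : RR K}
    (hf : TT κ 0 t ν j f) : f = 0 := by
  by_contra hne
  obtain ⟨e, he⟩ := ne_zero_iff.mp hne
  have h1 := hf.jsw he
  have h2 := (cut_iff.mp hf.cu) he
  rw [Finsupp.weight_apply, Finsupp.sum, sum_eq_zero_iff] at h2
  have h3 : Finsupp.weight (js K) e = 0 := by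
    rw [Finsupp.weight_apply, Finsupp.sum, sum_eq_zero_iff]
    intro v hv
    have h4 := h2 v hv
    cases v with
    | x a n => simp [js]
    | s a n => simpa [js, hiw] using h4
    | y c n => simp [js]
  omega

theorem ExP_zero {κ : K → Kd} {ρ : ℕ} {T : ℤ} {c : ℤ} {ν : K → ℕ} {j : ℕ} (hj : 1 ≤ j) :
    ExP κ ρ T 0 c ν j := by
  intro f hf _
  refine ⟨0, TT.zero, ?_⟩
  rw [TT0_zero hj hf, map_zero, add_zero]
  exact Submodule.zero_mem _

section tstep

theorem LemTP {ρ : ℕ} {T : ℤ} (q : ℕ) (c : ℤ) (ν : K → ℕ) (j : ℕ) (hj : 1 ≤ j)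
    (hex : ∀ i, 1 ≤ i → i ≤ j → ExP (ktw : Option K → Kd) ρ T q c (nx ν i) (j - i)) :
    ExP (ktw : K → Kd) ρ T (q + 1) c ν j := by
  intro f hf hdf
  rw [Nat.add_sub_cancel]
  set t : ℤ := 2 ^ ρ * T + c with ht
  have hkE : ∀ c : K, (kE : Option K → Kd) (some c) = ktw c := fun _ => rfl
  set F := IN K f with hF
  have hFc : cut _ (q + 1) F = F := by rw [hF, ← IN_cut, hf.cu]
  have hFw : IW (wE K) F (t, (ν, j)) := IW_IN hf.iw
  have hFd : dd kE (q + 1) F ∈ PP (Option K) ρ T (q + 2) := by
    rw [hF, ← IN_dd hkE]; exact IN_PP hdf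
  have hafE : ∀ c : Option K, kE c = .af → oE K c = (0, 1) := by
    intro c hc
    cases c with
    | none => rfl
    | some c => exact absurd hc (by simp [kE])
  -- base
  have hbase : ∃ H, cut _ q H = H ∧ IW (wE K) H (t, (ν, j)) ∧
      dd kE q H + F ∈ PP (Option K) ρ T (q + 1) := by
    refine ⟨hh K q F, ?_, IW_hh rfl hFw, ?_⟩
    · have := cut_hm hFc
      exact this
    · have h1 := prism_poly (q + 1) F hFc
      have h2 : LL K F = 0 := by
        have h3 : IW (fun v => (wE K v).2.2) F j := by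
          have := hFw.coarse ((AddMonoidHom.snd (K → ℕ) ℕ).comp (AddMonoidHom.snd ℤ _))
          exact this
        have h4 : IW (fun v => (wE K v).2.2) (LL K F) 0 := by
          refine IW.aeval' (0 : ℕ →+ ℕ) (LL K) (w := fun v => (wE K v).2.2)
            (w' := fun v => (wE K v).2.2) ?_ h3
          intro v
          rw [LL, ev_X, AddMonoidHom.zero_apply]
          cases v with
          | x a n => exact isWeightedHomogeneous_X _ (fun v => (wE K v).2.2) (Vr.x a n)
          | s a n => exact IW.zero' _ _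
          | y o n =>
            cases o with
            | none => exact IW.zero' _ _
            | some c =>
              exact isWeightedHomogeneous_X _ (fun v => (wE K v).2.2) (Vr.y (some c) n)
        have h5 : IW (fun v => (wE K v).2.2) (LL K F) j := by
          refine IW.aeval' (AddMonoidHom.id ℕ) (LL K) (w := fun v => (wE K v).2.2)
            (w' := fun v => (wE K v).2.2) ?_ h3
          intro v
          rw [LL, ev_X, AddMonoidHom.id_apply]
          cases v with
          | x a n => exact isWeightedHomogeneous_X _ (fun v => (wE K v).2.2) (Vr.x a n)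
          | s a n => exact IW.zero' _ _
          | y o n =>
            cases o with
            | none => exact IW.zero' _ _
            | some c =>
              exact isWeightedHomogeneous_X _ (fun v => (wE K v).2.2) (Vr.y (some c) n)
        exact IW.uniq h4 h5 (by omega)
      rw [h2, zero_add] at h1
      have h3 : dd kE q (hh K q F) + F = hh K (q + 1) (dd kE (q + 1) F) := by
        have h4 : hh K (q + 1) (dd kE (q + 1) F) + dd kE q (hh K q F) = F := h1
        have h5 := p2_add_self (dd kE q (hh K q F))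
        calc dd kE q (hh K q F) + F
            = dd kE q (hh K q F) + (hh K (q + 1) (dd kE (q + 1) F) + dd kE q (hh K q F)) := by
              rw [h4]
          _ = hh K (q + 1) (dd kE (q + 1) F)
              + (dd kE q (hh K q F) + dd kE q (hh K q F)) := by abel
          _ = _ := by rw [h5, add_zero]
      rw [h3]
      exact hh_PP hFd
  have hmain : ∀ (i : ℕ) (H : RR (Option K)), cut _ q H = H → IW (wE K) H (t, (ν, j)) →
      dd kE q H + F ∈ PP (Option K) ρ T (q + 1) → Lt (wn K) (i + 1) H →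
      ∃ H', cut _ q H' = H' ∧ IW (wE K) H' (t, (ν, j)) ∧
        dd kE q H' + F ∈ PP (Option K) ρ T (q + 1) ∧ Lt (wn K) 1 H' := by
    intro i
    induction i with
    | zero => intro H h1 h2 h3 h4; exact ⟨H, h1, h2, h3, h4⟩
    | succ i ih =>
      intro H h1 h2 h3 h4
      set Ht := cm (wn K) (i + 1) H with hHt
      have hLtop : ∀ r : RR (Option K), Lt (wn K) (i + 1) r → cm (wn K) (i + 1) r = 0 := by
        intro r hr
        ext e
        rw [coeff_weightedHomogeneousComponent, coeff_zero]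
        split_ifs with he
        · by_contra hne
          have := hr e hne
          omega
        · rfl
      have hdt : dd ktw q Ht ∈ PP (Option K) ρ T (q + 1) := by
        have h5 := cmn_PP (i + 1) h3
        have hFn : IW (wn K) F 0 := IW_wn_IN f
        rw [map_add, cm_ne hFn (by omega : i + 1 ≠ 0), add_zero, dd_split, map_add,
          hLtop _ (lf_lt h4), add_zero] at h5
        have h6 := cm_comm (w := wn K) (w' := wn K) (fun m => m) (fun a b h => h)
          (dd ktw q) (fun f m hf => IW_dd_wn hf) H (i + 1)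
        rw [h6] at h5
        exact h5
      have hTw : IW (wE K) Ht (t, (ν, j)) := cm_other h2
      have hTn : IW (wn K) Ht (i + 1) := cm_IW _ _ _
      have hTc : cut _ q Ht = Ht := by
        have h6 := cm_comm (w := wn K) (w' := wn K) (fun m => m) (fun a b h => h)
          (cut (Option K) q).toLinearMap (fun f m hf => by
            rw [wn_eq] at hf ⊢
            exact IW_cut_c (κ := (ktw : Option K → Kd)) _ hf) H (i + 1)
        simp only [AlgHom.toLinearMap_apply] at h6
        rw [hHt, ← h6, h1]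
      have hH1 : Lt (wn K) (i + 1) (H + Ht) := by
        intro e he
        rw [coeff_add, hHt, coeff_weightedHomogeneousComponent] at he
        by_cases hc : coeff e H = 0
        · rw [hc] at he
          simp at he
        · have h7 := h4 e hc
          by_cases h8 : Finsupp.weight (wn K) e = i + 1
          · rw [if_pos h8] at he
            exfalso
            apply he
            have := p2_add_self H
            have h9 := congrArg (coeff e) this
            rwa [coeff_add, coeff_zero] at h9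
          · omega
      by_cases hz : Ht = 0
      · rw [hz, add_zero] at hH1
        exact ih H h1 h2 h3 hH1
      · -- weights of the top part
        have hfine : i + 1 ≤ j ∧ IW (wF (ktw : Option K → Kd)) Ht
            (t, (nx ν (i + 1), j - (i + 1))) := by
          have hmon : ∀ e, coeff e Ht ≠ 0 → i + 1 ≤ j ∧
              Finsupp.weight (wF (ktw : Option K → Kd)) e
                = (t, (nx ν (i + 1), j - (i + 1))) := by
            intro e he
            have a1 := hTw he
            have a2 := hTn he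
            rw [wE_eq, wmap] at a1
            rw [wn_eq', wmap] at a2
            have b1 := congrArg Prod.fst a1
            have b2 := congrArg (fun m => m.2.1) a1
            have b3 := congrArg (fun m => m.2.2) a1
            simp only [pE, AddMonoidHom.coe_mk, ZeroHom.coe_mk] at b1 b2 b3
            simp only [pn, AddMonoidHom.coe_mk, ZeroHom.coe_mk] at a2
            refine ⟨by omega, Prod.ext b1 (Prod.ext ?_ ?_)⟩
            · funext o
              cases o with
              | none => exact a2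
              | some c => exact congrFun b2 c
            · simp only
              omega
          obtain ⟨e, he⟩ := ne_zero_iff.mp hz
          exact ⟨(hmon e he).1, fun e he => (hmon e he).2⟩
        obtain ⟨hij, hfw⟩ := hfine
        obtain ⟨e, he1, he2⟩ := hex (i + 1) (by omega) hij Ht ⟨hTc, hfw⟩ hdt
        have heE : IW (wE K) e (t, (ν, j)) := by
          have := he1.iw.coarse (pE K)
          rw [← wE_eq] at this
          have h9 : pE K (t, (nx ν (i + 1), j - (i + 1))) = (t, (ν, j)) := by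
            refine Prod.ext rfl (Prod.ext rfl ?_)
            simp only [pE, AddMonoidHom.coe_mk, ZeroHom.coe_mk, nx]
            omega
          rwa [h9] at this
        have hen : IW (wn K) e (i + 1) := by
          have := he1.iw.coarse (pn K)
          rw [← wn_eq'] at this
          exact this
        have hvE : IW (wE K) (Ht + dm ktw q e) (t, (ν, j)) := by
          refine hTw.add ?_
          have := (he1.dm naf_tw).iw.coarse (pE K)
          rw [← wE_eq] at this
          have h9 : pE K (t, (nx ν (i + 1), j - (i + 1))) = (t, (ν, j)) := by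
            refine Prod.ext rfl (Prod.ext rfl ?_)
            simp only [pE, AddMonoidHom.coe_mk, ZeroHom.coe_mk, nx]
            omega
          rwa [h9] at this
        obtain ⟨r, hr1, hr2⟩ := dm_split_lt (q := q) (Lt.of_IW hen)
        have hH2 : H + dm kE q e + (Ht + dm ktw q e) = H + Ht + r := by
          rw [hr1]
          have h5 := p2_add_self (dm ktw q e)
          calc H + (dm ktw q e + r) + (Ht + dm ktw q e)
              = H + Ht + r + (dm ktw q e + dm ktw q e) := by abel
            _ = _ := by rw [h5, add_zero]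
        apply ih (H + dm kE q e + (Ht + dm ktw q e))
        · rw [map_add, map_add, h1, cut_dm _ he1.cu, map_add, hTc, cut_dm _ he1.cu]
        · exact (h2.add (IW_dm hafE heE)).add hvE
        · rw [map_add, map_add, dd_dm _ he1.cu, add_zero, add_right_comm]
          exact Submodule.add_mem _ h3 (dd_PP kE he2)
        · rw [hH2]
          exact hH1.add hr2
  obtain ⟨H0, hc0, hw0, hd0⟩ := hbase
  obtain ⟨i, hi⟩ : ∃ i, Lt (wn K) (i + 1) H0 := by
    classical
    refine ⟨H0.support.sup (Finsupp.weight (wn K)), fun e he => ?_⟩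
    exact Nat.lt_succ_of_le (Finset.le_sup (f := fun e => Finsupp.weight (wn K) e)
      (mem_support_iff.mpr he))
  obtain ⟨H, hc, hw, hd, hl⟩ := hmain i H0 hc0 hw0 hd0 hi
  have hn : IW (wn K) H 0 := by
    intro e he
    have := hl e he
    omega
  refine ⟨RE K H, ⟨by rw [← RE_cut, hc], IW_RE hw⟩, ?_⟩
  change f + dd ktw q (RE K H) ∈ _
  have h1 : IN K (dd ktw q (RE K H)) = dd kE q H := by
    rw [IN_dd hkE, IN_RE hn]
  have h2 := RE_PP hd
  rw [map_add, ← h1, RE_IN, hF, RE_IN] at h2
  rw [add_comm f]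
  exact h2

end tstep

section lift

/-- de Rham lift modulo split cochains -/
theorem liftP0 {ρ : ℕ} (hρ : 1 ≤ ρ) {T : ℤ} {ν : K → ℕ} : ∀ (q j : ℕ) (c : ℤ) (y : RR K),
    TT ktw q (2 ^ ρ * T + c) ν j y → DX K (dd ktw q y) ∈ PP K ρ T (q + 1) →
    (∀ k : ℕ, k ≤ q → ExP (ktw : K → Kd) ρ T (q - k) (c + 1 + k) ν (j + 1 + k)) →
    ∃ g h, TT ktw q (2 ^ ρ * T + c) ν j g ∧ DX K g ∈ PP K ρ T q ∧
      TT ktw (q - 1) (2 ^ ρ * T + c) ν j h ∧ y + g + dm ktw q h ∈ PP K ρ T q := by
  intro q
  induction q with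
  | zero =>
    intro j c y hy hDy hex
    obtain ⟨h, _, hh⟩ := hex 0 le_rfl (DX K y) (by
      have := hy.DX
      rwa [show 2 ^ ρ * T + c + 1 = 2 ^ ρ * T + (c + 1 + ((0 : ℕ) : ℤ)) by
        push_cast; ring] at this) (by
      have h1 := DX_dd (K := K) 0 y
      rw [show dd (ktw : K → Kd) (0 - 0) (DX K y) = DX K (dd ktw 0 y) from h1.symm]
      exact hDy)
    refine ⟨y, 0, hy, ?_, TT.zero, ?_⟩
    · simpa [dm] using hh
    · rw [map_zero, add_zero, p2_add_self]; exact Submodule.zero_mem _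
  | succ q ih =>
    intro j c y hy hDy hex
    obtain ⟨h1, hh1, hh1'⟩ := hex 0 (by omega) (DX K y) (by
      have := hy.DX
      rwa [show 2 ^ ρ * T + c + 1 = 2 ^ ρ * T + (c + 1 + ((0 : ℕ) : ℤ)) by
        push_cast; ring] at this) (by
      have h1 := DX_dd (K := K) (q + 1) y
      rw [show dd (ktw : K → Kd) (q + 1 - 0) (DX K y) = DX K (dd ktw (q + 1) y) from h1.symm]
      exact hDy)
    have hh2 : TT ktw q (2 ^ ρ * T + (c + 1)) ν (j + 1) h1 := by
      have := hh1
      rw [Nat.sub_zero, Nat.add_sub_cancel, Nat.cast_zero, add_zero] at this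
      exact this
    have hh3 : DX K y + dd ktw q h1 ∈ PP K ρ T (q + 1) := hh1'
    have hDd : DX K (dd ktw q h1) ∈ PP K ρ T (q + 1) := by
      have h2 := DX_PP hρ hh3
      rwa [map_add, DX_DX, zero_add] at h2
    obtain ⟨g1, h2, hg1, hDg1, hh4, hs⟩ := ih (j + 1) (c + 1) h1 hh2 hDd (fun k hk => by
      have h5 := hex (k + 1) (by omega)
      rwa [show q + 1 - (k + 1) = q - k by omega,
        show c + 1 + ((k + 1 : ℕ) : ℤ) = c + 1 + 1 + k by push_cast; ring,
        show j + 1 + (k + 1) = j + 1 + 1 + k by omega] at h5)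
    have hg2 : TT ktw q (2 ^ ρ * T + c) ν j (HT K g1) := by
      rw [← add_assoc] at hg1
      exact TT.HT hg1
    have hH : DX K (HT K g1) + g1 ∈ PP K ρ T q := by
      have h5 := HT_DX (j := j) hg1.jsw
      have h6 : DX K (HT K g1) + g1 = HT K (DX K g1) := by
        have h7 := p2_add_self (DX K (HT K g1))
        calc DX K (HT K g1) + g1 = DX K (HT K g1) + (HT K (DX K g1) + DX K (HT K g1)) := by
              rw [h5]
          _ = HT K (DX K g1) + (DX K (HT K g1) + DX K (HT K g1)) := by abel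
          _ = _ := by rw [h7, add_zero]
      rw [h6]
      exact HT_PP hρ hDg1
    refine ⟨y + dd ktw q (HT K g1), HT K g1, hy.add (hg2.dd naf_tw), ?_, hg2, ?_⟩
    · have e1 : dd ktw q (DX K (HT K g1)) + dd ktw q g1 ∈ PP K ρ T (q + 1) := by
        rw [← map_add]; exact dd_PP _ hH
      have e2 : dd ktw q h1 + dd ktw q g1 ∈ PP K ρ T (q + 1) := by
        have h5 := dd_PP ktw hs
        rw [map_add, map_add, dd_dm ktw hh4.cu, add_zero] at h5
        exact h5
      have e3 : DX K (dd ktw q (HT K g1)) = dd ktw q (DX K (HT K g1)) := DX_dd q _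
      rw [map_add, e3]
      have e4 := Submodule.add_mem _ (Submodule.add_mem _ hh3 e1) e2
      have e5 : DX K y + dd ktw q h1 + (dd ktw q (DX K (HT K g1)) + dd ktw q g1)
          + (dd ktw q h1 + dd ktw q g1) = DX K y + dd ktw q (DX K (HT K g1)) := by
        have h7 := p2_add_self (dd ktw q h1)
        have h8 := p2_add_self (dd ktw q g1)
        calc _ = DX K y + dd ktw q (DX K (HT K g1)) + (dd ktw q h1 + dd ktw q h1)
              + (dd ktw q g1 + dd ktw q g1) := by abel
          _ = _ := by rw [h7, h8, add_zero, add_zero]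
      rwa [e5] at e4
    · change y + (y + dd ktw q (HT K g1)) + dd ktw q (HT K g1) ∈ _
      have h7 := p2_add_self y
      have h8 := p2_add_self (dd ktw q (HT K g1))
      rw [show y + (y + dd ktw q (HT K g1)) + dd ktw q (HT K g1)
        = (y + y) + (dd ktw q (HT K g1) + dd ktw q (HT K g1)) by abel, h7, h8, add_zero]
      exact Submodule.zero_mem _

theorem liftP {ρ : ℕ} (hρ : 1 ≤ ρ) {T : ℤ} {ν : K → ℕ} {q : ℕ} {c : ℤ} {y : RR K}
    (hy : TT ktw q (2 ^ ρ * T + c) ν 0 y) (hD : dd ktw q y ∈ PP K ρ T (q + 1))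
    (hex : ∀ k : ℕ, k ≤ q → ExP (ktw : K → Kd) ρ T (q - k) (c + 1 + k) ν (1 + k)) :
    ∃ g h, TT ktw q (2 ^ ρ * T + c) ν 0 g ∧ DX K g = 0 ∧
      TT ktw (q - 1) (2 ^ ρ * T + c) ν 0 h ∧ y + g + dm ktw q h ∈ PP K ρ T q := by
  obtain ⟨g, h, hg, hDg, hh, hs⟩ := liftP0 hρ q 0 c y hy (DX_PP hρ hD) (by
    intro k hk
    rw [zero_add]
    exact hex k hk)
  have h1 : TT ktw q (2 ^ ρ * T + c) ν 0 (HT K (DX K g)) := TT.HT hg.DX
  refine ⟨g + HT K (DX K g), h, hg.add h1, ?_, hh, ?_⟩
  · have h2 := HT_DX (f := DX K g) (j := 0) hg.DX.jsw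
    rw [DX_DX, map_zero, zero_add] at h2
    rw [map_add, h2, p2_add_self]
  · rw [show y + (g + HT K (DX K g)) + dm ktw q h = y + g + dm ktw q h + HT K (DX K g) by abel]
    exact Submodule.add_mem _ hs (HT_PP hρ hDg)

/-- the Frobenius step -/
theorem stepBP {ρ : ℕ} {T : ℤ} {ν : K → ℕ} {p : ℕ} {c : ℤ}
    (hQ : ∀ k : ℕ, k ≤ p → ExP (ktw : K → Kd) (ρ + 1) T (p - k) (c + 1 + k) ν (1 + k))
    (hA : ∀ c', c = 2 * c' → ExP (kun : K → Kd) ρ T p c' ν 0) :
    ExP (ktw : K → Kd) (ρ + 1) T p c ν 0 := by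
  intro f hf hdf
  obtain ⟨g, h, hg, hDg, hh, hs⟩ := liftP (by omega) hf hdf hQ
  rcases PHI_root hg hDg with h0 | ⟨t', ht', z, hz, hzg⟩
  · refine ⟨h, hh, ?_⟩
    rwa [h0, add_zero] at hs
  · have hc : c = 2 * (t' - 2 ^ ρ * T) := by
      rw [pow_succ] at ht'
      linarith
    have hz' : TT kun p (2 ^ ρ * T + (t' - 2 ^ ρ * T)) ν 0 z := by
      rwa [show 2 ^ ρ * T + (t' - 2 ^ ρ * T) = t' by ring]
    have hdg : dd ktw p g ∈ PP K (ρ + 1) T (p + 1) := by
      have h1 := dd_PP ktw hs
      rw [map_add, map_add, dd_dm ktw hh.cu, add_zero] at h1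
      have h2 := Submodule.add_mem _ hdf h1
      rwa [← add_assoc, p2_add_self, zero_add] at h2
    have hdz : dd kun p z ∈ PP K ρ T (p + 1) := by
      apply PHI_PP_root
      rw [PHI_dd, hzg]
      exact hdg
    obtain ⟨z', hz1, hz2⟩ := hA _ hc z hz' hdz
    rw [show 2 ^ ρ * T + (t' - 2 ^ ρ * T) = t' by ring] at hz1
    have h3 := PHI_PP hz2
    rw [map_add, hzg, PHI_dm] at h3
    have h5 := IW_PHI hz1.iw
    have h6 : dbl (K → ℕ) (t', (ν, 0)) = (2 ^ (ρ + 1) * T + c, (ν, 0)) := by
      rw [ht']; rfl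
    rw [h6] at h5
    refine ⟨h + PHI K z', hh.add ⟨by rw [← PHI_cut, hz1.cu], h5⟩, ?_⟩
    have h7 := Submodule.add_mem _ hs h3
    have h8 := p2_add_self g
    rw [show f + g + dm ktw p h + (g + dm ktw p (PHI K z'))
      = f + (dm ktw p h + dm ktw p (PHI K z')) + (g + g) by abel, h8, add_zero, ← map_add] at h7
    exact h7

end lift

section astep

variable [Fintype K]

theorem PI_SU_tw {κ : K → Kd} (h : ∀ c, κ c = .tw) (f : RR K) : PI (SU κ) f = f := by
  have h2 : PI (SU κ) = AlgHom.id (ZMod 2) (RR K) := by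
    apply algHom_ext
    intro v
    rw [AlgHom.id_apply]
    cases v with
    | x a n => rw [PI_x]
    | s a n => rw [PI_s]
    | y c n =>
      rw [PI_y]
      simp only [hS]
      rw [if_neg (by rw [SU_tw (h c)]; simp), uni_y]
  rw [h2, AlgHom.id_apply]

theorem BBP {ρ : ℕ} {T : ℤ} (p : ℕ) : ∀ (N : ℕ) (κ : K → Kd) (_ : Naf κ) (c : ℤ) (ν : K → ℕ)
    (_ : UU κ + ∑ c, ν c ≤ N)
    (_ : ∀ d : ℕ, 1 ≤ d → d ≤ ∑ c, ν c → ∀ ν' : K → ℕ, ∑ c, ν' c + d = ∑ c, ν c →
      ExP (ktw : K → Kd) ρ T p (c - d) ν' 0)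
    (f : RR K) (_ : TT κ p (2 ^ ρ * T + c) ν 0 f) (_ : dd κ p f ∈ PP K ρ T (p + 1))
    (_ : ∃ h, TT ktw (p - 1) (2 ^ ρ * T + c) ν 0 h ∧ PI (SU κ) f + dm ktw p h ∈ PP K ρ T p),
    ∃ h, TT κ (p - 1) (2 ^ ρ * T + c) ν 0 h ∧ f + dm κ p h ∈ PP K ρ T p := by
  intro N
  induction N with
  | zero =>
    intro κ hκ c ν hN _ f hf _ hB
    have hS0 : ∀ c, κ c = .tw := by
      intro c
      cases hc : κ c with
      | un =>
        have h1 := UU_upd hc
        omega
      | tw => rfl
      | af => exact absurd hc (hκ c)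
    have hk : κ = ktw := funext hS0
    subst hk
    rwa [PI_SU_tw hS0] at hB
  | succ N ih =>
    intro κ hκ t ν hN hP f hf hdf hB
    by_cases hun : ∃ c, κ c = .un
    · obtain ⟨c, hc⟩ := hun
      have hrel := Rel_upd hc
      have hU := UU_upd hc
      obtain ⟨h, hh1, hh2⟩ := ih (upd κ c) (naf_upd hκ c) t ν (by omega) hP (PI (sg c) f)
        (hf.PI hrel) (by rw [← PI_dd hrel]; exact PI_PP _ hdf) (by rw [PI_PI hc]; exact hB)
      have hSI := hh1.SI hrel
      set w := PI (sg c) f + dm (upd κ c) p h with hw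
      have hwT : TT (upd κ c) p (2 ^ ρ * T + t) ν 0 w :=
        (hf.PI hrel).add (hh1.dm (naf_upd hκ c))
      have hwS := hwT.SI hrel
      set f1 := f + dm κ p (SI (sg c) h) + SI (sg c) w with hf1d
      have hf1 : TT κ p (2 ^ ρ * T + t) ν 0 f1 := (hf.add (hSI.dm hκ)).add hwS
      have hf2 : PI (sg c) f1 = 0 := by
        rw [hf1d, map_add, map_add, PI_dm hrel, PI_SI, PI_SI, ← hw, p2_add_self]
      have hf3 : dd κ p f1 ∈ PP K ρ T (p + 1) := by
        rw [hf1d, map_add, map_add, dd_dm κ hSI.cu, add_zero]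
        exact Submodule.add_mem _ hdf (dd_PP κ (SI_PP _ hh2))
      rcases Y_div hc hf1 hf2 with h0 | ⟨hν, f', hf', hTf'⟩
      · refine ⟨SI (sg c) h, hSI, ?_⟩
        have h1 : f + dm κ p (SI (sg c) h) = SI (sg c) w := p2_eq_of_add (by rw [← hf1d]; exact h0)
        rw [h1]
        exact SI_PP _ hh2
      · rw [hf', dd_Y hc] at hf3
        have hdf' : dd κ p f' ∈ PP K ρ T (p + 1) := Y_PP hf3
        have hsum := sum_sub_ee hν
        have hrelU := Rel_SU hκ
        have hdeg : 2 ^ ρ * T + t - 1 = 2 ^ ρ * T + (t - 1) := by ring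
        rw [hdeg] at hTf'
        have hP1 : ExP (ktw : K → Kd) ρ T p (t - 1) (ν - ee c) 0 := by
          have := hP 1 le_rfl (by omega) (ν - ee c) (by omega)
          rwa [Nat.cast_one] at this
        have hi1 : UU κ + ∑ x, (ν - ee c) x ≤ N := by omega
        have hi2 : ∀ d : ℕ, 1 ≤ d → d ≤ ∑ x, (ν - ee c) x → ∀ ν' : K → ℕ,
            ∑ x, ν' x + d = ∑ x, (ν - ee c) x →
            ExP (ktw : K → Kd) ρ T p (t - 1 - d) ν' 0 := by
          intro d hd1 hd2 ν' hν'
          have h6 : ∑ x, ν' x + (d + 1) = ∑ x, ν x := by omega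
          have := hP (d + 1) (by omega) (by omega) ν' h6
          have h5 : t - ((d + 1 : ℕ) : ℤ) = t - 1 - d := by push_cast; ring
          rwa [h5] at this
        have hi3 := hP1 (PI (SU κ) f') (hTf'.PI hrelU)
          (by rw [← PI_dd hrelU]; exact PI_PP _ hdf')
        obtain ⟨h', hh'1, hh'2⟩ := ih κ hκ (t - 1) (ν - ee c) hi1 hi2 f' hTf' hdf' hi3
        rw [← hdeg] at hh'1
        have hY : TT κ (p - 1) (2 ^ ρ * T + t) ν 0 (X (.y c 0) * h') :=
          TT.mulY (ν := ν) (c := c) hc hν hh'1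
        refine ⟨_, TT.add hSI hY, ?_⟩
        rw [map_add, dm_Y hc]
        have h1 := Submodule.add_mem _ (mulY_PP c hh'2) (SI_PP (sg c) hh2)
        have h2 : X (.y c 0) * (f' + dm κ p h') + SI (sg c) w
            = f + (dm κ p (SI (sg c) h) + X (.y c 0) * dm κ p h') := by
          rw [mul_add, ← hf', hf1d]
          have h3 := p2_add_self (SI (sg c) w)
          rw [show f + dm κ p (SI (sg c) h) + SI (sg c) w + X (.y c 0) * dm κ p h' + SI (sg c) w
            = f + (dm κ p (SI (sg c) h) + X (.y c 0) * dm κ p h')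
              + (SI (sg c) w + SI (sg c) w) by abel, h3, add_zero]
        rwa [h2] at h1
    · push Not at hun
      have hS0 : ∀ c, κ c = .tw := by
        intro c
        cases hc : κ c with
        | un => exact absurd hc (hun c)
        | tw => rfl
        | af => exact absurd hc (hκ c)
      have hk : κ = ktw := funext hS0
      subst hk
      rwa [PI_SU_tw hS0] at hB

theorem stepAP {ρ : ℕ} {T : ℤ} {p : ℕ} {c : ℤ} {ν : K → ℕ}
    (h : ∀ d : ℕ, d ≤ ∑ c, ν c → ∀ ν' : K → ℕ, ∑ c, ν' c + d = ∑ c, ν c →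
      ExP (ktw : K → Kd) ρ T p (c - d) ν' 0) : ExP (kun : K → Kd) ρ T p c ν 0 := by
  intro f hf hdf
  have hR := Rel_SU (naf_un (K := K))
  refine BBP p _ kun naf_un c ν le_rfl (fun d _ hd ν' hν' => h d hd ν' hν') f hf hdf ?_
  have h0 := h 0 (Nat.zero_le _) ν (by omega)
  rw [Nat.cast_zero, sub_zero] at h0
  exact h0 (PI (SU kun) f) (hf.PI hR) (by rw [← PI_dd hR]; exact PI_PP _ hdf)

end astep

end Pool.Agent.H749.GK
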