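import Pool.Agent.H749.GK.KT
import Pool.Agent.H749.GK.Def

/-!
# Transfer of the acyclicity to the cobar complex of the statement
-/

set_option autoImplicit false
set_option linter.unusedSectionVars false

namespace Pool.Agent.H749.GK.St

open Finset MvPolynomial Pool.Agent.W624.Stz

/-- the variables -/
def iv (v : ℕ × ℕ) : Vr Empty := .x v.1 v.2

theorem iv_inj : Function.Injective iv := by
  intro v w h
  simp only [iv, Vr.x.injEq] at h
  exact Prod.ext h.1 h.2

/-- into the big ring -/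
noncomputable def io : P →ₐ[ZMod 2] RR Empty := rename iv

theorem io_X (v : ℕ × ℕ) : io (X v) = X (.x v.1 v.2) := by
  rw [io, rename_X]; rfl

theorem io_inj : Function.Injective io := rename_injective _ iv_inj

/-- out of the big ring -/
noncomputable def ro : RR Empty →ₐ[ZMod 2] P :=
  aeval (fun v => match v with
    | .x a n => X (a, n)
    | .s _ _ => 0
    | .y _ _ => 0)

theorem ro_x (a n : ℕ) : ro (X (.x a n)) = X (a, n) := aeval_X _ _
theorem ro_s (a n : ℕ) : ro (X (.s a n)) = 0 := aeval_X _ _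

theorem ro_io (f : P) : ro (io f) = f := by
  have : ro.comp io = AlgHom.id (ZMod 2) P := by
    apply algHom_ext
    rintro ⟨a, n⟩
    rw [AlgHom.comp_apply, io_X, ro_x]
    rfl
  exact DFunLike.congr_fun this f

theorem io_xi (a n : ℕ) : io (ξ a n) = ((uni Empty).1 a).g n := by
  cases n with
  | zero => exact map_one _
  | succ n => exact io_X _

theorem io_cop (a n : ℕ) : io (coprod a n)
    = ((uni Empty).1 a * (uni Empty).1 (a + 1)).g n := by
  rw [coprod, map_sum, mul_g, op_range]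
  refine sum_congr rfl fun i _ => ?_
  rw [map_mul, map_pow, io_xi, io_xi]

theorem io_face {s j : ℕ} (hj : j ≤ s + 1) {f : P} (hf : f ∈ supported (ZMod 2)
    {v : ℕ × ℕ | v.1 < s}) : io (face j f) = ev (fc (act kun) s j (uni Empty)) (io f) := by
  obtain ⟨g, rfl⟩ := (AlgHom.mem_range _).mp ((supported_eq_range_rename (R := ZMod 2)
    {v : ℕ × ℕ | v.1 < s}) ▸ hf)
  have : (io.comp (face j)).comp (rename (Subtype.val : {v : ℕ × ℕ | v.1 < s} → ℕ × ℕ))
      = ((ev (fc (act kun) s j (uni Empty))).comp io).comp (rename Subtype.val) := by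
    apply algHom_ext
    rintro ⟨⟨a, n⟩, ha⟩
    have ha' : a < s := ha
    simp only [AlgHom.comp_apply, rename_X, io_X, ev_X, face, aeval_X]
    rcases Nat.eq_zero_or_pos j with rfl | hj0
    · rw [if_neg (by omega), if_neg (by omega), io_X, fc_zero]
      rfl
    · obtain ⟨j, rfl⟩ : ∃ k, j = k + 1 := ⟨j - 1, by omega⟩
      rcases Nat.lt_or_ge j s with hjs | hjs
      · rw [fc_mid _ hjs]
        simp only [co]
        rcases lt_trichotomy a j with h | h | h
        · rw [if_pos (by omega), io_X, mrg_lt h]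
          rfl
        · subst h
          rw [if_neg (by omega), if_pos rfl, io_cop, mrg_eq]
        · rw [if_neg (by omega), if_neg (by omega), io_X, mrg_gt h]
          rfl
      · have : j = s := by omega
        subst this
        rw [if_pos (by omega), io_X, fc_last _ (by omega)]
        rfl
  exact DFunLike.congr_fun this g

theorem io_d {s : ℕ} {f : P} (hf : f ∈ supported (ZMod 2) {v : ℕ × ℕ | v.1 < s}) :
    io (d s f) = dd kun s (io f) := by
  rw [d, dd_apply, LinearMap.sum_apply, map_sum]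
  refine sum_congr rfl fun j hj => ?_
  rw [mem_range] at hj
  exact io_face (by omega) hf

theorem io_shift (a : ℕ) (f : P) : io (shift a f) = sf Empty a (io f) := by
  have : io.comp (shift a) = (sf Empty a).comp io := by
    apply algHom_ext
    rintro ⟨b, n⟩
    simp only [AlgHom.comp_apply, io_X, sf_x, shift, rename_X]
  exact DFunLike.congr_fun this f

theorem ro_sf (a : ℕ) (f : RR Empty) : ro (sf Empty a f) = shift a (ro f) := by
  have : ro.comp (sf Empty a) = (shift a).comp ro := by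
    apply algHom_ext
    intro v
    cases v with
    | x b n => simp only [AlgHom.comp_apply, ro_x, sf_x, shift, rename_X]
    | s b n => simp only [AlgHom.comp_apply, ro_s, sf_s, map_zero]
    | y c n => exact c.elim
  exact DFunLike.congr_fun this f

theorem io_cut {s : ℕ} {f : P} (hf : f ∈ supported (ZMod 2) {v : ℕ × ℕ | v.1 < s}) :
    cut Empty s (io f) = io f := by
  obtain ⟨g, rfl⟩ := (AlgHom.mem_range _).mp ((supported_eq_range_rename (R := ZMod 2)
    {v : ℕ × ℕ | v.1 < s}) ▸ hf)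
  have : ((cut Empty s).comp io).comp (rename (Subtype.val : {v : ℕ × ℕ | v.1 < s} → ℕ × ℕ))
      = io.comp (rename Subtype.val) := by
    apply algHom_ext
    rintro ⟨⟨a, n⟩, ha⟩
    have ha' : a < s := ha
    simp only [AlgHom.comp_apply, rename_X, io_X]
    exact cut_X0 (by simp [hiw, ha'])
  exact DFunLike.congr_fun this g

theorem ro_supp {s : ℕ} {f : RR Empty} (hf : cut Empty s f = f) :
    ro f ∈ supported (ZMod 2) {v : ℕ × ℕ | v.1 < s} := by
  have key : ∀ g : RR Empty, ro (cut Empty s g) ∈ supported (ZMod 2) {v : ℕ × ℕ | v.1 < s} := by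
    intro g
    induction g using MvPolynomial.induction_on with
    | C a => rw [algHom_C, AlgHom.commutes]; exact Subalgebra.algebraMap_mem _ _
    | add p q hp hq => rw [map_add, map_add]; exact Subalgebra.add_mem _ hp hq
    | mul_X p v hp =>
      rw [map_mul, map_mul]
      refine Subalgebra.mul_mem _ hp ?_
      by_cases hv : hiw Empty s v = 0
      · rw [cut_X0 hv]
        cases v with
        | x a n =>
          rw [ro_x, X_mem_supported]
          by_contra h
          simp only [Set.mem_ofPred_eq] at h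
          simp [hiw, h] at hv
        | s a n => rw [ro_s]; exact Subalgebra.zero_mem _
        | y c n => exact c.elim
      · rw [cut_X1 hv, map_zero]; exact Subalgebra.zero_mem _
  have := key f
  rwa [hf] at this

theorem io_wF (v : ℕ × ℕ) : wF (kun : Empty → Kd) (iv v) = ((2 : ℤ) ^ (v.2 + 1) - 1, (0, 0)) :=
  Prod.ext rfl (Prod.ext (funext fun c => c.elim) rfl)

/-- the weights -/
def inj1 : ℤ →+ ℤ × ((Empty → ℕ) × ℕ) := AddMonoidHom.inl ℤ ((Empty → ℕ) × ℕ)

theorem io_TT {s : ℕ} {t : ℤ} {f : P} (hf : f ∈ C s t) : TT kun s t 0 0 (io f) := by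
  refine ⟨io_cut hf.1, ?_⟩
  have h := IW.aeval' (w := fun v : ℕ × ℕ => (2 : ℤ) ^ (v.2 + 1) - 1)
    (w' := wF (kun : Empty → Kd)) inj1 io (fun v => by
      rw [io_X]
      have h2 := isWeightedHomogeneous_X (ZMod 2) (wF (kun : Empty → Kd)) (iv v)
      rw [io_wF] at h2
      exact h2) hf.2
  exact h

theorem ro_C {s : ℕ} {t : ℤ} {f : RR Empty} (hf : TT kun s t 0 0 f) : ro f ∈ C s t := by
  refine ⟨ro_supp hf.cu, ?_⟩
  have h := IW.aeval' (w := wF (kun : Empty → Kd))
    (w' := fun v : ℕ × ℕ => (2 : ℤ) ^ (v.2 + 1) - 1) (AddMonoidHom.fst ℤ ((Empty → ℕ) × ℕ)) ro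
    (fun v => by
      cases v with
      | x a n =>
        rw [ro_x]
        exact isWeightedHomogeneous_X (ZMod 2) (fun v : ℕ × ℕ => (2 : ℤ) ^ (v.2 + 1) - 1) (a, n)
      | s a n => rw [ro_s]; exact IW.zero' _ _
      | y c n => exact c.elim) hf.iw
  exact h

theorem io_ro {s : ℕ} {t : ℤ} {f : RR Empty} (hf : TT kun s t 0 0 f) : io (ro f) = f := by
  have := hom_congr hf (io.comp ro) (AlgHom.id _ _) (by
    intro a n _
    rw [AlgHom.comp_apply, ro_x, io_X]
    rfl) (fun c => c.elim)
  exact this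

/-- split cochains: spanned by the products `x ^ (2 ^ ρ) * shift a y` of a cochain `x` of degree
`a` and internal degree `T` and a cochain `y` of degree `s - a` -/
noncomputable def Sp (ρ : ℕ) (T : ℤ) (s : ℕ) : Submodule (ZMod 2) P :=
  Submodule.span (ZMod 2) {f | ∃ a ≤ s, ∃ x ∈ C a T, ∃ y ∈ supported (ZMod 2)
    {v : ℕ × ℕ | v.1 < s - a}, f = x ^ (2 ^ ρ) * shift a y}

theorem io_Sp {ρ : ℕ} {T : ℤ} {s : ℕ} {f : P} (hf : f ∈ Sp ρ T s) : io f ∈ PP Empty ρ T s := by
  induction hf using Submodule.span_induction with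
  | mem f hf =>
    obtain ⟨a, ha, x, hx, y, hy, rfl⟩ := hf
    rw [map_mul, map_pow, io_shift, ← ix_empty (io x)]
    exact PP_gen ha (io_TT hx) (io_cut hy)
  | zero => rw [map_zero]; exact Submodule.zero_mem _
  | add f g _ _ hf hg => rw [map_add]; exact Submodule.add_mem _ hf hg
  | smul c f _ hf => rw [map_smul]; exact Submodule.smul_mem _ _ hf

theorem ro_Sp {ρ : ℕ} {T : ℤ} {s : ℕ} {f : RR Empty} (hf : f ∈ PP Empty ρ T s) :
    ro f ∈ Sp ρ T s := by
  induction hf using Submodule.span_induction with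
  | mem f hf =>
    obtain ⟨a, ha, x, hx, y, hy, rfl⟩ := hf
    rw [map_mul, map_pow, ro_sf, ix_empty]
    exact Submodule.subset_span ⟨a, ha, ro x, ro_C hx, ro y, ro_supp hy, rfl⟩
  | zero => rw [map_zero]; exact Submodule.zero_mem _
  | add f g _ _ hf hg => rw [map_add]; exact Submodule.add_mem _ hf hg
  | smul c f _ hf => rw [map_smul]; exact Submodule.smul_mem _ _ hf

/-- the cochains are closed under the differential -/
theorem d_C {s : ℕ} {t : ℤ} {f : P} (hf : f ∈ C s t) : d s f ∈ C (s + 1) t := by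
  have h1 := (io_TT hf).dd naf_un
  rw [← io_d hf.1] at h1
  have h2 := ro_C h1
  rwa [ro_io] at h2

theorem d_d {s : ℕ} {f : P} (hf : f ∈ supported (ZMod 2) {v : ℕ × ℕ | v.1 < s}) :
    d (s + 1) (d s f) = 0 := by
  apply io_inj
  have h1 : d s f ∈ supported (ZMod 2) {v : ℕ × ℕ | v.1 < s + 1} := by
    have h2 := ro_supp (cut_dd kun (io_cut hf))
    rwa [← io_d hf, ro_io] at h2
  rw [io_d h1, io_d hf, dd_dd kun (io_cut hf), map_zero]

/-- the previous differential -/
noncomputable def dp : ℕ → (P →ₗ[ZMod 2] P)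
  | 0 => 0
  | s + 1 => d s

theorem io_dp {s : ℕ} {f : P} (hf : f ∈ supported (ZMod 2) {v : ℕ × ℕ | v.1 < s - 1}) :
    io (dp s f) = dm kun s (io f) := by
  cases s with
  | zero => rw [dp, dm, LinearMap.zero_apply, LinearMap.zero_apply, map_zero]
  | succ s => exact io_d hf

/-- **Acyclicity modulo split cochains** -/
theorem acyc {s ρ : ℕ} {T c : ℤ} (hT : (2 : ℤ) ^ (2 * s + 1) ∣ T) (hc : 0 ≤ c)
    (hc2 : c < 2 ^ ρ) {f : P} (hf : f ∈ C s (2 ^ ρ * T + c)) (hd : d s f ∈ Sp ρ T (s + 1)) :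
    ∃ h ∈ C (s - 1) (2 ^ ρ * T + c), f + dp s h ∈ Sp ρ T s := by
  have h1 := (acyclic s ρ).1 0 T c (by simpa using hT) hc (by simpa using hc2) Empty (fun _ => 0)
    (by simp) (io f) (io_TT hf) (by rw [← io_d hf.1]; exact io_Sp hd)
  obtain ⟨h, hh, h2⟩ := h1
  refine ⟨ro h, ro_C hh, ?_⟩
  have h3 := ro_Sp h2
  have h4 : io (f + dp s (ro h)) = io f + dm kun s h := by
    rw [map_add, io_dp (ro_supp hh.cu), io_ro hh]
  rwa [← h4, ro_io] at h3

/-- **Vanishing** -/
theorem vani {s ρ : ℕ} {T c : ℤ} (hT : (2 : ℤ) ^ (ρ + 2 * s + 1) ∣ T) (hc : c < 0)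
    (hc2 : -2 ^ (ρ + 1) < c) {f : P} (hf : f ∈ C s (T + c)) (hd : d s f = 0) :
    ∃ h ∈ C (s - 1) (T + c), dp s h = f := by
  have h1 := (explicit s).2 0 (ρ + 2 * s + 1) T c hT (by omega) (by simpa using hc) (by
    rw [show ρ + 2 * s + 1 - 2 * s = ρ + 1 by omega, pow_zero]
    linarith) Empty (fun _ => 0) (by simp) (io f) (io_TT hf) (by rw [← io_d hf.1, hd, map_zero])
  obtain ⟨h, hh, h2⟩ := h1
  refine ⟨ro h, ro_C hh, ?_⟩
  apply io_inj
  rw [io_dp (ro_supp hh.cu), io_ro hh, h2]

end Pool.Agent.H749.GK.St
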